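import Pool.Agent.HGX.Stmts

/-!
# The hit problem, explicit and equivariant gap splitting: the assembly, with the modules as hypotheses
-/

namespace HGX

open HGP

/-- The final statement: the formula, the isomorphism and the covering, with explicit bounds. -/
def P_FIN : Prop :=
  (∀ (d : ℕ) (c : ℤ) (t C : ℕ), TT d c ≤ t → TT d c ≤ C → ∀ q : ℤ,
    qz d (2 ^ t * q - c) = RH d c C q ∧
    Iso d (2 ^ t * q - c) (fun m => 2 ^ C * q - ((d - m : ℕ) : ℤ)) fun m => ((d - m : ℕ) : ℤ) - c) ∧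
  ∀ d n : ℕ, Pool.Agent.Lib_helper74.Hit.qd (Fin d) n ≠ 0 → ∃ (c q : ℤ) (t : ℕ),
    |c| < 2 ^ 4 ^ ((d + 3) ^ 2) ∧ TT d c < t ∧ t ≤ 4 ^ ((d + 3) ^ 2) ∧ (n : ℤ) = 2 ^ t * q - c

theorem asm (tDCK : Stmt_DCK) (tSVI : Stmt_SVI) (tNUE : Stmt_NUE) (tESD : Stmt_ESD)
    (tBGN : Stmt_BGN) (tKOS : Stmt_KOS) (tGK1 : Stmt_GK1) (tGKL : Stmt_GKL) (tCHK : Stmt_CHK)
    (tSPL : Stmt_SPL) (tKRE : Stmt_KRE) (tCKE : Stmt_CKE) (tFSE : Stmt_FSE) (tQZE : Stmt_QZE)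
    (tMAE : Stmt_MAE) (tGSE : Stmt_GSE) (tGAE : Stmt_GAE) (tUN2 : Stmt_UN2) (tHPJ : Stmt_HPJ)
    (tTDL : Stmt_TDL) (tTHT : Stmt_THT) (tEQV : Stmt_EQV) (tEIN : Stmt_EIN) (tESU : Stmt_ESU)
    (tLVL : Stmt_LVL) (tKAM : Stmt_KAM) (tTRI : Stmt_TRI) (tGLF : Stmt_GLF) : P_FIN := by
  have hDCK : P_DCK := tDCK
  have hSVI : P_SVI := tSVI
  have hNUE : P_NUE := tNUE hSVI
  have hESD : P_ESD := tESD hDCK
  have hBGN : P_BGN := tBGN hESD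
  have hGK1 : P_GK1 := tGK1 hBGN tKOS
  have hGKL : P_GKL := tGKL hGK1
  have hSPL : P_SPL := tSPL hGKL tCHK
  have hKRE : P_KRE := tKRE hSVI hSPL
  have hCKE : P_CKE := tCKE hNUE
  have hMAE : P_MAE := tMAE hKRE hCKE tFSE tQZE
  have hGSE : P_GSE := tGSE hMAE
  have hTHT : P_THT := tTHT tHPJ tTDL
  have hEQV : P_EQV := tEQV tUN2 tTDL
  have hESU : P_ESU := tESU tUN2 tTDL hEQV
  have hLVL : P_LVL := tLVL hTHT hEQV tEIN hESU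
  have hKAM : P_KAM := tKAM hMAE
  have hGLF : P_GLF := tGLF hMAE hLVL hKAM tTRI
  exact ⟨fun d c t C ht hC q => ⟨hGSE d c t C ht hC q, hGLF d c t C ht hC q⟩, tGAE⟩

end HGX
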