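import Pool.Agent.HGX.Defs

/-!
# The hit problem, explicit and equivariant gap splitting: the statements of the modules

Everything of the first part is available as `HGX.NNB : P_NNB`, `HGX.GEN : P_GEN`, `HGX.PJB : P_PJB`
and so on (file `Pool/Agent/HGX/Facts.lean`; statements in `Pool/Agent/HGP/Stmts.lean`, definitions in
`Pool/Agent/HGP/Base.lean`). Module `X` is the file `Pool/Agent/HGX/X.lean` (import
`Pool.Agent.HGX.Stmts`) with `theorem t_X : Stmt_X` in namespace HGX, own lemmas in namespace HGX.X.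

Notation of the proofs: `T = C + t`, `y_j = X_j ^ 2 ^ T`, `F = ZMod 2`, everything in characteristic 2.
-/

namespace HGX

open HGP MvPolynomial
open Pool.Agent.Lib_helper74.Hit (hits qd)
open scoped TensorProduct

/-! ### A. explicit bounds -/

/-- **DCK** (Dickson relation). In a commutative ring of characteristic 2 and for `y_0, …, y_{k-1}` there
are `Q_n` with `y_i ^ 2 ^ k = ∑_{n<k} Q_n y_i ^ 2 ^ n` for all `i`.

Proof. Induction on `k`: let `L(z) = z ^ 2 ^ k + ∑_{n<k} Q_n z ^ 2 ^ n` vanish at `y_0, …, y_{k-1}` (use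
`Fin.castSucc`) and put `b = L(y_k)`. `L` is additive. `L(z) ^ 2 + b L(z)` is again
`z ^ 2 ^ (k+1) + ∑_{n<k+1} Q'_n z ^ 2 ^ n`, with `Q'_n = (Q_{n-1}) ^ 2 + b Q_n` (`Q_{-1} = 0`, `Q_k = 1`), and
vanishes at `y_0, …, y_{k-1}` and at `y_k` (`b ^ 2 + b b = 0`). -/
def P_DCK : Prop :=
  ∀ (A : Type) [CommRing A] [CharP A 2] (k : ℕ) (y : Fin k → A), ∃ Q : ℕ → A,
    ∀ i, y i ^ 2 ^ k = ∑ n ∈ Finset.range k, Q n * y i ^ 2 ^ n

/-- DCK -/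
def Stmt_DCK : Prop := P_DCK

/-- **SVI**. `X_i ^ 2 ^ (d + s)` is in the ideal of the `Sv v ^ 2 ^ s`, `v ≠ 0` (`d + 1` variables).

Proof. Identity, in any commutative ring of characteristic 2 with elements `x, y_1, …, y_d`:
`x ^ 2 ^ d = ∑_{ε : Fin d → F} ∏_{u : Fin d → F} (x + ∑_i u_i (y_i + ε_i x))`. Induction on `d`: for fixed
`ε` put `L(z) = ∏_u (z + ∑_i u_i (y_i + ε_i x))`, an additive polynomial in `z` (prove additivity for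
`∏_u (z + ∑ u_i a_i)`, by induction: `L'(z) = L(z) L(z + a) = L(z) (L(z) + L(a))`). With one more
element `y` and `ε_0 = 0, 1` the two products are `L(x) L(x + y)` and `L(x) L(x + y + x)`, their
sum is `L(x) (L(x) + L(y) + L(y)) = L(x) ^ 2`; and the sum of squares is the square of the sum.
For `X_0` the products are the `Sv v` with `v = (1, ε)`: `v u = 1` iff `u = (1 + ε·u', u')`, so
`Sv v = ∏_{u'} (X_0 + ∑ u'_i (X_i + ε_i X_0))`. For the other `X_i` use the same identity with the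
variables in another order (for instance a general statement for a family `Fin (d+1) → A` composed
with a permutation, or the substitution `sb` of the transposition, which permutes the `Sv v` as in
`HGP/RES.lean` (3)). Take `2 ^ s`-th powers (Frobenius). -/
def P_SVI : Prop :=
  ∀ (d s : ℕ) (i : Fin (d + 1)), (X i : PS (Fin (d + 1))) ^ 2 ^ (d + s) ∈
    Ideal.span {x : PS (Fin (d + 1)) | ∃ v : WS (Fin (d + 1)) →ₗ[ZMod 2] ZMod 2,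
      v ≠ 0 ∧ x = Sv v ^ 2 ^ s}

/-- SVI -/
def Stmt_SVI : Prop := P_SVI

/-- **NUE**. The explicit form of `P_NUL`.

Proof. `d = 0`: `Hg (Fin 0) b = 0` for `b ≥ 1`. `d + 1` variables: a monomial of degree
`b > (d+1) 2 ^ (d+1+s)` has an exponent `≥ 2 ^ (d+s)` (else its degree is smaller), so it is a
multiple of some `X_i ^ 2 ^ (d+s)`: SVI. (`r` is the sum of its monomials, all of degree `b`.) -/
def P_NUE : Prop :=
  ∀ (d s b : ℕ) (r : PS (Fin d)), d * 2 ^ (d + s) < b → r ∈ Hg (Fin d) b →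
    r ∈ Ideal.span {x : PS (Fin d) | ∃ v : WS (Fin d) →ₗ[ZMod 2] ZMod 2, v ≠ 0 ∧ x = Sv v ^ 2 ^ s}

/-- NUE -/
def Stmt_NUE : Prop := P_SVI → P_NUE

/-- **ESD**. The operations `Os j κ` with large `j` are combinations, with `2 ^ T`-th powers as
coefficients, of operations of smaller degree.

Proof. `T ≥ 1`, so `j ≥ d`. Let `Q_n` be as in DCK for the variables (`k = d`, `A = PS (Fin d)`).
Let `Ψ : MvPolynomial ℕ (PS (Fin d)) → Polynomial (PS (Fin d))` be the algebra map over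
`PS (Fin d)` with `Ψ (X_i) = C (Q_{i+d-j} ^ 2 ^ (j+1-d)) * X` for `j - d ≤ i < j` and `0` for the other
`i`. Then `Ψ ∘ ph j = es j`: both are algebra maps over `F`, and on `X_l`:
`X_l + ∑_{n<d} X_l ^ 2 ^ (n+j-d+1) Q_n ^ 2 ^ (j+1-d) T = X_l + (∑_n Q_n X_l ^ 2 ^ n) ^ 2 ^ (j+1-d) T
= X_l + X_l ^ 2 ^ (j+1) T`. So `Os j κ f` is the coefficient of `T ^ κ` of
`∑_α (Mp j α f) Ψ (X ^ α)`: the sum over the `α` (in the support of `ph j f`) with support in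
`[j-d, j)` and `|α| = κ` of `(∏ Q ^ α) ^ 2 ^ (j+1-d) Mp j α f`. As `1 ≤ κ < 2 ^ T`: `α ≠ 0`, `α_i < 2 ^ T`,
`wt α ≤ κ (2 ^ j - 1) < κ (2 ^ (j+1) - 1)`, and `2 ^ (j+1-d)` is a multiple of `2 ^ T`. -/
def P_ESD : Prop :=
  ∀ (d T j κ : ℕ) (f : PS (Fin d)), 1 ≤ κ → κ < 2 ^ T → d + T ≤ j + 1 →
    Os j κ f ∈ Submodule.span (ZMod 2) {x : PS (Fin d) | ∃ (r : PS (Fin d)) (m : ℕ) (α : ℕ →₀ ℕ),
      α ≠ 0 ∧ (∀ i, α i < 2 ^ T) ∧ wt α < κ * (2 ^ (j + 1) - 1) ∧ x = r ^ 2 ^ T * Mp m α f}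

/-- ESD -/
def Stmt_ESD : Prop := P_DCK → P_ESD

/-- The elements `r ^ 2 ^ T * ν` of degree `n` with `ν` in `NN` of degree at most
`d 2 ^ T + 2 ^ (2 T + d)`. -/
def BG (d T n : ℕ) : Set (PS (Fin d)) :=
  {x | ∃ (a b : ℕ) (r ν : PS (Fin d)), r ∈ Hg (Fin d) a ∧ ν ∈ Hg (Fin d) b ∧ ν ∈ NN (Fin d) T ∧
    b ≤ d * 2 ^ T + 2 ^ (2 * T + d) ∧ a * 2 ^ T + b = n ∧ x = r ^ 2 ^ T * ν}

/-- **BGN** (bounded generation of `NN`).

Proof. `T = 0`: `NN = 0` (no `α ≠ 0` with all `α_j < 1`). `T ≥ 1`: strong induction on `n`. By GEN `f` is a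
sum of `Os j κ h`, `h ∈ Hg n'`, `n' + κ (2 ^ (j+1) - 1) = n`, with `j = 0`, `κ = 2 ^ i < 2 ^ T` or
`κ = 2 ^ (T-1)`; `h` is a sum of monomials `X ^ s`, `s = 2 ^ T a + s'`, `s'_i < 2 ^ T`, and
`Os j κ (X ^ s) = (X ^ a) ^ 2 ^ T * Os j κ (X ^ s')` (`κ < 2 ^ T`; OPB (6), (7)). If `a ≠ 0`, the element
`Os j κ (X ^ s')` of `NN` (NNB (8)) has smaller degree (NNB (9)): induction, and multiply by
`(X ^ a) ^ 2 ^ T`. If `a = 0`: `n' ≤ d (2 ^ T - 1)`. If `κ (2 ^ (j+1) - 1) ≤ 2 ^ (2T+d)` take `r = 1`. Otherwise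
`2 ^ (j+1) > 2 ^ (T+d)`, so ESD applies: `Os j κ (X ^ s)` is a sum of `r ^ 2 ^ T * Mp m α (X ^ s)` with
`Mp m α (X ^ s)` in `NN` of degree `n' + wt α < n` (OPB (3)): induction; take the homogeneous component
of degree `n` (it replaces `r` by a homogeneous component of `r`, or is zero). -/
def P_BGN : Prop :=
  ∀ (d T n : ℕ) (f : PS (Fin d)), f ∈ Hg (Fin d) n → f ∈ NN (Fin d) T →
    f ∈ Submodule.span (ZMod 2) (BG d T n)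

/-- BGN -/
def Stmt_BGN : Prop := P_ESD → P_BGN

/-- **KOS** (exactness of the Koszul complex of the `X_j ^ N`, first step).

Proof. Look at the relation monomial by monomial. For a monomial `s` of degree `a + 2 N` let
`J(s) = {j : N ≤ s_j}` and `c_j(s)` the coefficient of `u_j` at `s - N e_j` (`j ∈ J(s)`). The relation says
`∑_{j ∈ J(s)} c_j(s) = 0`. Let `p(s)` be the least element of `J(s)`. Put, for `i < j`, `Z_{ij} = Z_{ji} =`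
the sum of `c_j(s) X ^ (s - N e_i - N e_j)` over the `s` with `i = p(s)`, `j ∈ J(s)`; `Z_{ii} = 0`. The
coefficient of `∑_i X_i ^ N Z_{ij}` at `s - N e_j` is: if `j ≠ p(s)`: from `i = p(s)`: `c_j(s)` (from the
other `i` nothing: `Z_{ij}` at `s - N e_i - N e_j` is zero unless `p(s)` is `i` or `j`); if `j = p(s)`:
`∑_{i ∈ J(s), i ≠ j} c_i(s) = c_j(s)`. (Or: induction on the number of variables.) -/
def P_KOS : Prop :=
  ∀ (k N a : ℕ) (u : Fin k → PS (Fin k)), (∀ j, u j ∈ Hg (Fin k) (a + N)) →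
    ∑ j, (X j : PS (Fin k)) ^ N * u j = 0 →
      ∃ Z : Fin k → Fin k → PS (Fin k), (∀ i j, Z i j ∈ Hg (Fin k) a) ∧ (∀ i, Z i i = 0) ∧
        (∀ i j, Z i j = Z j i) ∧ ∀ j, u j = ∑ i, (X i : PS (Fin k)) ^ N * Z i j

/-- KOS -/
def Stmt_KOS : Prop := P_KOS

/-- **GK1** (the same modulo `NN`, in large degrees).

Proof. Every `x` in the span of `BG k C (a + 2 * 2 ^ C)` is `∑_j X_j ^ 2 ^ C w_j` with
`w_j ∈ NN ∩ Hg (a + 2 ^ C)`: for `x = r ^ 2 ^ C * ν`, `r ∈ Hg a'`, `ν ∈ Hg b`, `a' 2 ^ C + b = a + 2 * 2 ^ C`; as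
`b` is smaller than this, `a' ≥ 1` and `r = ∑_j X_j r_j`, `r_j ∈ Hg (a' - 1)`, `r ^ 2 ^ C =
∑_j X_j ^ 2 ^ C r_j ^ 2 ^ C`, `w_j = r_j ^ 2 ^ C * ν` (NNB (1)). Apply this to `x = ∑_j X_j ^ 2 ^ C u_j` (BGN)
and KOS to the `u_j - w_j`. -/
def P_GK1 : Prop :=
  ∀ (k C a : ℕ) (u : Fin k → PS (Fin k)), k * 2 ^ C + 2 ^ (2 * C + k) < a + 2 * 2 ^ C →
    (∀ j, u j ∈ Hg (Fin k) (a + 2 ^ C)) →
    ∑ j, (X j : PS (Fin k)) ^ 2 ^ C * u j ∈ NN (Fin k) C →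
      ∃ Z : Fin k → Fin k → PS (Fin k), (∀ i j, Z i j ∈ Hg (Fin k) a) ∧ (∀ i, Z i i = 0) ∧
        (∀ i j, Z i j = Z j i) ∧
          ∀ j, u j - ∑ i, (X i : PS (Fin k)) ^ 2 ^ C * Z i j ∈ NN (Fin k) C

/-- GK1 -/
def Stmt_GK1 : Prop := P_BGN → P_KOS → P_GK1

/-- The image of the variable `X_j` under the projection of `g` to the variables of the first kind: a
linear form. -/
noncomputable def lj {d k m : ℕ} (g : WS (Fin d) ≃ₗ[ZMod 2] WS (Fin k ⊕ Fin m)) (j : Fin d) :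
    PS (Fin k) :=
  kl (Fin k) (Fin m) (sb g.toLinearMap (X j))

/-- **GKL** (the same for the linear forms `lj g j`).

Proof. `lj g j = lf (a_j)`, `g e_j = (a_j, b_j)`. Put `U_i = ∑_j (a_j)_i H_j` (`i : Fin k`) and
`V_l = ∑_j (b_j)_l H_j` (`l : Fin m`), homogeneous of degree `a + 2 ^ C`. `∑_j (lj g j) ^ 2 ^ C H_j =
∑_i X_i ^ 2 ^ C U_i`, so GK1 gives `Z'_{i i'}` with `U_{i'} - ∑_i X_i ^ 2 ^ C Z'_{i i'} ∈ NN`. The degree of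
`V_l` is `> k 2 ^ C`, so every monomial has an exponent `≥ 2 ^ C`: `V_l = ∑_i X_i ^ 2 ^ C Z'_{i l}` with
`Z'_{i l} ∈ Hg a`. Let `Z'` be symmetric on `Fin k ⊕ Fin m`, with `Z'_{l l'} = 0`. With `M_{j x}` the
matrix of `g⁻¹` (`(g⁻¹ e_x)_j`) put `Z_{j j'} = ∑_{x, x'} M_{j x} M_{j' x'} Z'_{x x'}`: symmetric, zero on
the diagonal. `∑_j (lj g j) ^ 2 ^ C M_{j x}` is the `2 ^ C`-th power of `kl (lf e_x)`: `X_x ^ 2 ^ C` for `x` of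
the first kind, `0` else. So `∑_j (lj g j) ^ 2 ^ C Z_{j j'} = ∑_{x'} M_{j' x'} (∑_i X_i ^ 2 ^ C Z'_{i x'})`,
which is modulo `NN` the sum `∑_{x'} M_{j' x'} (U, V)_{x'} = H_{j'}`. -/
def P_GKL : Prop :=
  ∀ (d k m C a : ℕ) (g : WS (Fin d) ≃ₗ[ZMod 2] WS (Fin k ⊕ Fin m)) (H : Fin d → PS (Fin k)),
    k * 2 ^ C + 2 ^ (2 * C + k) < a + 2 * 2 ^ C → (∀ j, H j ∈ Hg (Fin k) (a + 2 ^ C)) →
    ∑ j, lj g j ^ 2 ^ C * H j ∈ NN (Fin k) C →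
      ∃ Z : Fin d → Fin d → PS (Fin k), (∀ i j, Z i j ∈ Hg (Fin k) a) ∧ (∀ i, Z i i = 0) ∧
        (∀ i j, Z i j = Z j i) ∧ ∀ j, H j - ∑ i, lj g i ^ 2 ^ C * Z i j ∈ NN (Fin k) C

/-- GKL -/
def Stmt_GKL : Prop := P_GK1 → P_GKL

/-- **CHK**. `KK` may be tested on one equivalence for every subspace.

Proof. Let `g, μ` with `Ad c k m μ` be given, `Λ = An g` and `k', m', g'` as in the hypothesis;
`m' = finrank Λ = m`, `k' = k` (LIN (3)). `k - c ≤ d - c < 2 ^ t` so `μ` kills the degrees `≥ 2 ^ t`; UNI: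
`pj t g μ f = sb A (pj t g' (μ ∘ sb D) f)`, SBB (6), NNB (3). -/
def P_CHK : Prop :=
  ∀ (d : ℕ) (c : ℤ) (t C : ℕ) (f : PS (Fin d)), (d : ℤ) - c < 2 ^ t →
    (∀ Λ : Submodule (ZMod 2) (WS (Fin d)), ∃ (k m : ℕ)
      (g : WS (Fin d) ≃ₗ[ZMod 2] WS (Fin k ⊕ Fin m)), An g = Λ ∧
        ∀ μ, Ad c k m μ → pj t g μ f ∈ NN (Fin k) C) → KK c t C f

/-- CHK -/
def Stmt_CHK : Prop := P_CHK

/-- **SPL**. The elements of the kernel of degree `q` are combinations of the `y_j` and elements of the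
kernel of degree `q - 1`.

Proof. Put `B' = B + |c| + 3 d + 2 + 2 ^ (C+d) < q`. `n > d 2 ^ T`, so every monomial of `f` has an exponent
`≥ 2 ^ T`: `f = ∑_j y_j h⁰_j`, `h⁰_j ∈ Hg n₁`, `n₁ = n - 2 ^ T`. For every subspace `Λ` of `WS (Fin d)` choose
`k, m, g` with `An g = Λ` (LIN (1)); if `k - c < 0` nothing is to be done (an `Ad`-functional is zero
on all homogeneous polynomials, so zero). Else let `r = k - c`, `ν_i, μ_i` from DUB m r (`μ_i` is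
`Ad c k m`). For every such `(Λ, i)`: `H_j = pj t g μ_i h⁰_j ∈ Hg (2 ^ C (q-1) - k)` (PJB (4)), and
`∑_j (lj g j) ^ 2 ^ C H_j = pj t g μ_i f ∈ NN` (PJB (1), `KK f`). With `a = 2 ^ C (q-2) - k` GKL gives
`Z_{j j'}`. Sur at `q - 2` gives for `j < j'` lifts `F_{j j'} = F_{j' j}` of `(Z_{j j'}, ν_i)` at `g`
(`Lft`); `F_{j j} = 0`. Put `h_j = h⁰_j - ∑_{(Λ, i)} ∑_{j'} y_{j'} F_{j' j}`. Then `∑_j y_j h_j = f` (the
double sum of the symmetric `y_j y_{j'} F_{j' j}` with zero diagonal vanishes). `KK h_j` by CHK: for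
`Λ` and `μ` (by DUB (4) a combination of the `μ_i`; `pj` is linear in `μ`, see `DET.pj_add`, `DET.pj_smul`,
`DET.pj_sum`): `pj t g_Λ μ_i h_j = H_j - ∑ (lj g j') ^ 2 ^ C (pj t g_Λ μ_i F^{(Λ', i')}_{j' j})` where the terms
with `Λ' ≠ Λ` are in `NN`, and those with `Λ' = Λ` are `[i = i'] Z^{(Λ, i)}_{j' j}` modulo `NN`. -/
def P_SPL : Prop :=
  ∀ (d : ℕ) (c : ℤ) (t C B : ℕ) (q : ℤ), (d : ℤ) - c < 2 ^ t →
    (∀ q' : ℤ, (B : ℤ) < q' → Sur d c t C q') → (B : ℤ) + |c| + 3 * d + 2 + 2 ^ (C + d) < q →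
    ∀ (n : ℕ) (f : PS (Fin d)), (n : ℤ) = 2 ^ (C + t) * q - c → f ∈ Hg (Fin d) n → KK c t C f →
      ∃ (n₁ : ℕ) (h : Fin d → PS (Fin d)), (n₁ : ℤ) = 2 ^ (C + t) * (q - 1) - c ∧
        (∀ j, h j ∈ Hg (Fin d) n₁ ∧ KK c t C (h j)) ∧
          f = ∑ j, (X j : PS (Fin d)) ^ 2 ^ (C + t) * h j

/-- SPL -/
def Stmt_SPL : Prop := P_GKL → P_CHK → P_SPL

/-- **KRE** (explicit KR2).

Proof. `d = 0`: `n = 2 ^ T q - c > 0`, `Hg (Fin 0) n = 0`. `d ≥ 1`: iterate SPL `M = d 2 ^ (d+T)` times: `f` is in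
the span of the `(X ^ β) ^ 2 ^ T * h` with `|β| = M`, `h` homogeneous with `KK h` of degree
`2 ^ T (q - M) - c`. Some `β_j ≥ 2 ^ (d-1+T)` (else `|β| < M`). The `r` with `r ^ 2 ^ T * h ∈ NN` form an ideal
(as `I` in `HGP/KR2.lean`), which contains the `Sv v ^ 2 ^ T`, `v ≠ 0` (Tor), so `X_j ^ 2 ^ (d-1+T)` (SVI with
`s = T`), so `X ^ β`. -/
def P_KRE : Prop :=
  ∀ (d : ℕ) (c : ℤ) (t C B : ℕ), (d : ℤ) - c < 2 ^ t → Tor d c t C →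
    (∀ q : ℤ, (B : ℤ) < q → Sur d c t C q) → ∀ q : ℤ,
      (B : ℤ) + |c| + 3 * d + 2 + 2 ^ (C + d) + d * 2 ^ (d + C + t) < q → Inj d c t C q

/-- KRE -/
def Stmt_KRE : Prop := P_SVI → P_SPL → P_KRE

/-- **CKE** (explicit CK3).

Proof. As `HGP/CK3.lean`, with NUE (`s = m + 2 C`, `k` variables, `k 2 ^ (k+m+2C) < n'`) in place of NUL:
`n' = 2 ^ C q - k ≥ (d+1) 2 ^ (d+1+2C) + (d+2) 2 ^ C - k > k 2 ^ (d+1+2C)`; and
`n₂ = 2 ^ C (q - 2 ^ (d+C)) - k ≥ 0`. -/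
def P_CKE : Prop :=
  ∀ (d : ℕ) (c : ℤ) (t C : ℕ), Cok d c t C → ∀ q : ℤ,
    ((d : ℤ) + 1) * (2 ^ (d + 1 + C) + 1) < q → Sur (d + 1) c t C q

/-- CKE -/
def Stmt_CKE : Prop := P_NUE → P_CKE

/-- **FSE** (explicit FST). Proof: `HGP/FST.lean` with `a = β + 1`. -/
def P_FSE : Prop :=
  ∀ (d : ℕ) (c : ℤ) (t C β : ℕ), (d : ℤ) - c < 2 ^ t →
    (∀ q : ℤ, (2 : ℤ) ^ β < q → Inj d c t C q ∧ Sur d c t C q) →
      ∀ C', C + β + 2 ≤ C' → ∀ q, Inj d c t C' q ∧ Sur d c t C' q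

/-- FSE -/
def Stmt_FSE : Prop := P_FSE

/-- **QZE** (explicit second part of QZR). Proof: the end of `HGP/QZR.lean`. -/
def P_QZE : Prop :=
  ∀ (c : ℤ) (t C : ℕ) (q : ℤ), -c < 2 ^ t → |c| < 2 ^ C → Inj 0 c t C q ∧ Sur 0 c t C q

/-- QZE -/
def Stmt_QZE : Prop := P_QZE

/-- **MAE** (explicit MAI).

Proof. Induction on `d`. `d = 0`: QZE, `|c| < 2 ^ sz c` and `sz c ≤ C`. Step: `C_* = 4 ^ (d+1) (t + sz (c-1) + 2) ≥ 1`;
`d - (c-1) < 2 ^ t`. By induction `Inj`, `Sur` for `d, c-1, t, C_*` and all `q`. KR1: `Tor (d+1) c t C_*`; CK2, CKE: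
`Sur (d+1) c t C_* q` for `q > B := (d+1) (2 ^ (d+1+C_*) + 1)`; KRE: `Inj` for
`q > B + |c| + 3 (d+1) + 2 + 2 ^ (C_*+d+1) + (d+1) 2 ^ (d+1+C_*+t)`. Both bounds are
`≤ 2 ^ β`, `β = C_* + t + 2 d + 4 + sz c` (use `d + 1 ≤ 2 ^ d`, `|c| < 2 ^ sz c`). FSE: all `C' ≥ C_* + β + 2 =
2 C_* + t + 2 d + 6 + sz c`. As `sz (c-1) ≤ sz c + 1` this is at most
`2 * 4 ^ (d+1) (t + sz c + 3) + t + sz c + 2 d + 6 ≤ 4 ^ (d+2) (t + sz c + 2)`, because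
`t + sz c + 2 d + 6 ≤ 4 ^ (d+1) (2 (t + sz c) + 2)`. -/
def P_MAE : Prop :=
  ∀ (d : ℕ) (c : ℤ) (t C : ℕ), (d : ℤ) - c < 2 ^ t → 4 ^ (d + 1) * (t + sz c + 2) ≤ C →
    ∀ q, Inj d c t C q ∧ Sur d c t C q

/-- MAE -/
def Stmt_MAE : Prop := P_KRE → P_CKE → P_FSE → P_QZE → P_MAE

/-- **GSE** (explicit GSP).

Proof. As `HGP/GSP.lean`. Put `t₀ = sz c + d`: `d - c ≤ d + |c| < 2 ^ t₀` (`|c| < 2 ^ sz c`). For `t ≥ TT d c`:
`t - t₀ ≥ 4 ^ (d+1) (t₀ + sz c + 2)`, so MAE and CNT at `C₁ = t - t₀`. Stability for `k ≤ d` from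
`4 ^ (k+1) (1 + sz k + 2) ≤ TT d c` (`sz k ≤ k`): MAE k k 1. -/
def P_GSE : Prop :=
  ∀ (d : ℕ) (c : ℤ) (t C : ℕ), TT d c ≤ t → TT d c ≤ C → ∀ q : ℤ,
    qz d (2 ^ t * q - c) = RH d c C q

/-- GSE -/
def Stmt_GSE : Prop := P_MAE → P_GSE

/-- **GAE** (explicit covering).

Proof. First the explicit form of GAP, by induction on `D`: for all `λ` and all integers `x`, if
`x + r = N`, `|r| < 2 ^ λ`, `al N ≤ D`, then there are `c, t` with `|c| < 2 ^ Λ`, `TT d c < t`,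
`t ≤ 4 ^ (d+2) (Λ + d + 1) + 1`, `2 ^ t ∣ x + c`, where `Λ = Λ(D, λ)` is `λ` for `D = 0` and
`Λ(D, 4 ^ (d+2) (λ+d+1) + 1)` for `D + 1`; so `Λ + d + 1 ≤ 4 ^ ((d+3) D) (λ + d + 1)`. Step: let
`T₀ = 4 ^ (d+2) (λ+d+1) ≥ TT d r`. If `2 ^ (T₀+1) ∣ N` take `c = r`, `t = T₀ + 1`; else the lowest bit `f` of
`N` is `≤ T₀` (`GAP.split`), and `x + (r - 2 ^ f) = N - 2 ^ f`, `|r - 2 ^ f| < 2 ^ λ + 2 ^ T₀ ≤ 2 ^ (T₀+1)`. Use it
with VNI: `D = d`, `x = n`, `|r| ≤ d + 2 ^ (d+1) < 2 ^ (d+2)`, `λ = d + 2`. Finally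
`4 ^ (d+2) 4 ^ ((d+3) d) (2 d + 3) + 1 ≤ 4 ^ ((d+3) ^ 2)` and `Λ ≤ 4 ^ ((d+3) d) (2 d + 3)`. -/
def P_GAE : Prop :=
  ∀ d n : ℕ, qd (Fin d) n ≠ 0 → ∃ (c q : ℤ) (t : ℕ), |c| < 2 ^ 4 ^ ((d + 3) ^ 2) ∧ TT d c < t ∧
    t ≤ 4 ^ ((d + 3) ^ 2) ∧ (n : ℤ) = 2 ^ t * q - c

/-- GAE -/
def Stmt_GAE : Prop := P_GAE

/-! ### B. the action of the linear group -/

/-- **UN2**. UNI with the given blocks, and the existence of the blocks.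

Proof. See `HGP/UNI.lean`: `bA h`, `bD h` are the blocks; the computation there is for the linear map
`h = g₀⁻¹ g`. -/
def P_UN2 : Prop :=
  (∀ (d t k m : ℕ) (g : WS (Fin d) ≃ₗ[ZMod 2] WS (Fin k ⊕ Fin m))
    (h : WS (Fin k ⊕ Fin m) ≃ₗ[ZMod 2] WS (Fin k ⊕ Fin m)) (A : WS (Fin k) ≃ₗ[ZMod 2] WS (Fin k))
    (D : WS (Fin m) ≃ₗ[ZMod 2] WS (Fin m)) (μ : PS (Fin m) →ₗ[ZMod 2] ZMod 2) (f : PS (Fin d)),
    Blk h A D → (∀ s, 2 ^ t ≤ s → ∀ b ∈ Hg (Fin m) s, μ b = 0) →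
      pj t (g.trans h) μ f = sb A.toLinearMap (pj t g (μ.comp (sb D.toLinearMap).toLinearMap) f)) ∧
  ∀ (d k m : ℕ) (g g₀ : WS (Fin d) ≃ₗ[ZMod 2] WS (Fin k ⊕ Fin m)), An g = An g₀ →
    ∃ (A : WS (Fin k) ≃ₗ[ZMod 2] WS (Fin k)) (D : WS (Fin m) ≃ₗ[ZMod 2] WS (Fin m)),
      Blk (g₀.symm.trans g) A D

/-- UN2 -/
def Stmt_UN2 : Prop := P_UN2

/-- **HPJ**. The projections respect the hits.

Proof. Components: `f ∈ Hg n` (hits are homogeneous: `DUB.comp_hits`). HTS (2) with `t`: `f ∈ NN (Fin d) t ⊔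
OG (JS t) n`; on `NN (Fin d) (0 + t)` the projection is in `NN (Fin k) 0 = 0` (PJB (2)); for
`Os 0 (2 ^ i) h`, `t ≤ i`, it is `Os 0 (2 ^ (i-t)) (pj h)` (PJB (3)), a hit. See `CNT.pj_mem_hits`. -/
def P_HPJ : Prop :=
  ∀ (d : ℕ) (c : ℤ) (t k m : ℕ) (g : WS (Fin d) ≃ₗ[ZMod 2] WS (Fin k ⊕ Fin m))
    (μ : PS (Fin m) →ₗ[ZMod 2] ZMod 2), (d : ℤ) - c < 2 ^ t → Ad c k m μ →
      ∀ f ∈ hits (Fin d), pj t g μ f ∈ hits (Fin k)

/-- HPJ -/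
def Stmt_HPJ : Prop := P_HPJ

/-- **TDL** (dual bases in `Q P_m`).

Proof. `b < 0`: `Qz = 0`, `N = 0`. `b ≥ 0`: `ν_i, μ_i` from DUB m b, `e_i` the class of `ν_i`, `ε_i` the functional
induced by `μ_i`. For `v ∈ Hg b`: `v - ∑ μ_i(v) ν_i` is a hit (else there is a functional which kills
the hits and not this element; compose it with the component of degree `b`; it contradicts DUB (4)).
So every element of `Bs k m b` is a sum of `u_i ⊗ e_i`, and `ev k ε_i` of it is `u_i`. -/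
def P_TDL : Prop :=
  ∀ (k m : ℕ) (b : ℤ), ∃ (N : ℕ) (e : Fin N → QS (Fin m))
    (ε : Fin N → (QS (Fin m) →ₗ[ZMod 2] ZMod 2)), (∀ i, e i ∈ Qz (Fin m) b) ∧
    (∀ i z, z ≠ b → ∀ v ∈ Qz (Fin m) z, ε i v = 0) ∧
    (∀ i j, ε i (e j) = if i = j then 1 else 0) ∧
    (∀ v ∈ Qz (Fin m) b, v = ∑ i, ε i v • e i) ∧
    ∀ x ∈ Bs k m b, x = ∑ i, (ev k (ε i) x) ⊗ₜ[ZMod 2] (e i)

/-- TDL -/
def Stmt_TDL : Prop := P_TDL

/-- **THT**. The maps `θ g` exist.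

Proof. `b = k - c`; `N, e, ε` from TDL, `θ g (f) = ∑_i (class of pj t g (ε_i ∘ mkQ) f) ⊗ e_i`; well defined
by HPJ (`ε_i ∘ mkQ` is `Ad c k m`). For an admissible `ν`: `ν` and `∑ ν(e_i) ε_i` agree on `Qz b` and both
vanish on the other `Qz z`, and these span `QS` (every polynomial is the sum of its components), so
`ν = ∑ ν(e_i) ε_i`; `pj` is linear in `μ` (`DET.pj_sum`, `DET.pj_smul`). -/
def P_THT : Prop :=
  ∀ (d : ℕ) (c : ℤ) (t k m : ℕ), (d : ℤ) - c < 2 ^ t → ∃ θ, IsTh d c t k m θ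

/-- THT -/
def Stmt_THT : Prop := P_HPJ → P_TDL → P_THT

/-- **EQV**. Properties of `θ`.

Proof. Two elements of `Bs k m (k - c)` with the same values under all `ev k ν`, `ν ∘ mkQ` admissible,
are equal (TDL). (1) `ev k ν` of the right side is `qs A (ev k (ν ∘ qs D) (θ g x))`; UN2 (1) (an admissible
functional kills the degrees `≥ 2 ^ t`, since `k - c < 2 ^ t`), SBB (6). (2) `θ g` of the class of
`sb A f` and `θ (A.trans g)` of the class of `f`: SBB (7). (3) `x` is the class of `f ∈ Hg n`, `n = 2 ^ (C+t) q - c ≥ 0`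
(or `x = 0`). `pj t g μ f ∈ Hg (2 ^ C q - k)` if this is `≥ 0` (PJB (4)), and `0` else (PJB (5)). So
`θ g x = ∑ (ev k ε_i (θ g x)) ⊗ e_i` is in `Bd`. -/
def P_EQV : Prop :=
  ∀ (d : ℕ) (c : ℤ) (t k m : ℕ)
    (θ : (WS (Fin d) ≃ₗ[ZMod 2] WS (Fin k ⊕ Fin m)) →
      (QS (Fin d) →ₗ[ZMod 2] QS (Fin k) ⊗[ZMod 2] QS (Fin m))),
    (d : ℤ) - c < 2 ^ t → IsTh d c t k m θ →
    (∀ (g : WS (Fin d) ≃ₗ[ZMod 2] WS (Fin k ⊕ Fin m))
      (h : WS (Fin k ⊕ Fin m) ≃ₗ[ZMod 2] WS (Fin k ⊕ Fin m)) (A : WS (Fin k) ≃ₗ[ZMod 2] WS (Fin k))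
      (D : WS (Fin m) ≃ₗ[ZMod 2] WS (Fin m)) (x : QS (Fin d)), Blk h A D →
        θ (g.trans h) x = TensorProduct.map (qs A.toLinearMap) (qs D.toLinearMap) (θ g x)) ∧
    (∀ (g : WS (Fin d) ≃ₗ[ZMod 2] WS (Fin k ⊕ Fin m)) (A : WS (Fin d) ≃ₗ[ZMod 2] WS (Fin d))
      (x : QS (Fin d)), θ g (qs A.toLinearMap x) = θ (A.trans g) x) ∧
    ∀ (C : ℕ) (q : ℤ) (g : WS (Fin d) ≃ₗ[ZMod 2] WS (Fin k ⊕ Fin m)),
      ∀ x ∈ Qz (Fin d) (2 ^ (C + t) * q - c), θ g x ∈ Bd k m (2 ^ C * q - k) ((k : ℤ) - c)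

/-- EQV -/
def Stmt_EQV : Prop := P_UN2 → P_TDL → P_EQV

/-- A family of the maps `θ` for all `m ≤ d`. -/
abbrev ThFam (d : ℕ) : Type := (m : Fin (d + 1)) →
  (WS (Fin d) ≃ₗ[ZMod 2] WS (Fin (d - (m : ℕ)) ⊕ Fin (m : ℕ))) →
    (QS (Fin d) →ₗ[ZMod 2] QS (Fin (d - (m : ℕ))) ⊗[ZMod 2] QS (Fin (m : ℕ)))

/-- **EIN**. Injectivity on `Q P`.

Proof. `x` is the class of `f ∈ Hg n`, `n = 2 ^ (C+t) q - c` (or 0). For all `k, m, g` and admissible `μ` (a functional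
which kills the hits is `ν ∘ mkQ`; `k = d - m` by LIN (3)) the class of `pj t g μ f` is
`ev k ν (θ g x) = 0`. So `pj t g μ f` is a hit for all `g, μ`: `f` is a hit by `CNT.mem_hits_of_Ps`
(or its proof: HTS (2), Shf for `JS C`, DET). -/
def P_EIN : Prop :=
  ∀ (d : ℕ) (c : ℤ) (t C : ℕ) (Θ : ThFam d), (d : ℤ) - c < 2 ^ t →
    (∀ m : Fin (d + 1), IsTh d c t (d - (m : ℕ)) m (Θ m)) →
    (∀ q, Inj d c t C q ∧ Sur d c t C q) → ∀ (q : ℤ), ∀ x ∈ Qz (Fin d) (2 ^ (C + t) * q - c),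
      (∀ m g, Θ m g x = 0) → x = 0

/-- EIN -/
def Stmt_EIN : Prop := P_EIN

/-- **ESU**. Surjectivity onto the induced modules.

Proof. If `2 ^ (C+t) q - c < 0` then `q ≤ 0` (as `|c| < 2 ^ (C+t)`), and all `Ind` are zero: `q < 0`: `2 ^ C q - k < 0`;
`q = 0`: `c > 0`, and `-k < 0` or `k = 0`, `k - c < 0`; so `Bd = 0` and `x = 0` works. Else `n = 2 ^ (C+t) q - c`. For
every subspace `Λ` choose `g_Λ : WS (Fin d) ≃ WS (Fin (d-m) ⊕ Fin m)`, `m = finrank Λ`, `An g_Λ = Λ`. Let `e, ε` be as in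
TDL for `b = (d-m) - c`; `φ_m (g_Λ) = ∑_i u_i ⊗ e_i` with `u_i = ev ε_i (φ_m g_Λ) ∈ Qz (2 ^ C q - (d-m))`; if this degree or
`b` is negative, `φ_m(g_Λ) = 0`. Choose representatives `U_i`, `ν_i`, and lifts `f_{Λ,i}` of `(U_i, ν_i)` at `g_Λ`
(Sur); `f = ∑ f_{Λ,i}`, `x` its class. For `Λ' ≠ Λ`: `pj t g_{Λ'} μ f_{Λ,i} ∈ NN ≤ hits`, so
`Θ g_{Λ'} f_{Λ,i} = 0` (TDL), and `Θ g_Λ f_{Λ,i} = u_i ⊗ e_i`. So `Θ_m g_Λ x = φ_m g_Λ`. For general `g` with `An g = Λ`: `g = g_Λ h`,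
`Blk h A D` (UN2 (2)), EQV (1), and the same for `φ`. -/
def P_ESU : Prop :=
  ∀ (d : ℕ) (c : ℤ) (t C : ℕ) (Θ : ThFam d), (d : ℤ) - c < 2 ^ t →
    (∀ m : Fin (d + 1), IsTh d c t (d - (m : ℕ)) m (Θ m)) →
    (∀ q, Inj d c t C q ∧ Sur d c t C q) → |c| < 2 ^ (C + t) → ∀ (q : ℤ)
      (φ : (m : Fin (d + 1)) → Ind d (d - (m : ℕ)) m (2 ^ C * q - ((d - (m : ℕ) : ℕ) : ℤ))
        (((d - (m : ℕ) : ℕ) : ℤ) - c)),
      ∃ x ∈ Qz (Fin d) (2 ^ (C + t) * q - c), ∀ m g, Θ m g x = (φ m).1 g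

/-- ESU -/
def Stmt_ESU : Prop := P_UN2 → P_TDL → P_EQV → P_ESU

/-- The equivariant isomorphism of `(Q P_d)_z` and the sum of the induced modules. -/
def Iso (d : ℕ) (z : ℤ) (a b : ℕ → ℤ) : Prop :=
  ∃ e : Qz (Fin d) z ≃ₗ[ZMod 2] ((m : Fin (d + 1)) → Ind d (d - (m : ℕ)) m (a m) (b m)),
    ∀ (A : WS (Fin d) ≃ₗ[ZMod 2] WS (Fin d)) (x y : Qz (Fin d) z),
      (y : QS (Fin d)) = qs A.toLinearMap (x : QS (Fin d)) →
        ∀ m g, (e y m).1 g = (e x m).1 (A.trans g)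

/-- **LVL**. The isomorphism at one level.

Proof. `Θ` from THT (choice). The map `x ↦ (Θ_m g x)` goes into the induced modules by EQV (1), (3); it is
bijective by EIN, ESU; equivariant by EQV (2). -/
def P_LVL : Prop :=
  ∀ (d : ℕ) (c : ℤ) (t C : ℕ), (d : ℤ) - c < 2 ^ t → (∀ q, Inj d c t C q ∧ Sur d c t C q) →
    |c| < 2 ^ (C + t) → ∀ q : ℤ, Iso d (2 ^ (C + t) * q - c)
      (fun m => 2 ^ C * q - ((d - m : ℕ) : ℤ)) fun m => ((d - m : ℕ) : ℤ) - c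

/-- LVL -/
def Stmt_LVL : Prop := P_THT → P_EQV → P_EIN → P_ESU → P_LVL

/-- **KAM** (Kameko's isomorphism, in the stable range).

Proof. By composition (and inverses) enough: `C' = C + 1`, `4 ^ (k+1) (sz k + 3) ≤ C`. `ex 1` maps
`Hg (2 ^ (C+1) q - k)` to `Hg (2 ^ C q - k)` (EXB (4)), hits to hits (a hit is a sum of `Mp m α f` with `α ≠ 0`:
`Sq i f = Mp 1 (single 0 i) f`, OPB (7), (8); EXO, HTS (1)), is surjective (EXB (7): `ex 1 (X_1 ⋯ X_k g ^ 2) = g`)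
and commutes with `sb A` (EXE). The dimensions of the two spaces are equal: MAE and CNT for `(k, k, 1, C)`:
`qz k (2 ^ (C+1) q - k) = RH k k C q = qz k (2 ^ C q - k)` (`GSP.RH_self`); they are `finrank` of `Qz` (see
`CNT.finrank_TT`). For `2 ^ C q - k < 0`: if `q ≤ 0`, both degrees are `< 0` or `k = 0, q = 0` (both degrees 0); if
`q ≥ 1`: `2 ^ C > k`. -/
def P_KAM : Prop :=
  ∀ (k C C' : ℕ) (q : ℤ), 4 ^ (k + 1) * (sz k + 3) ≤ C → 4 ^ (k + 1) * (sz k + 3) ≤ C' →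
    ∃ κ : Qz (Fin k) (2 ^ C * q - k) ≃ₗ[ZMod 2] Qz (Fin k) (2 ^ C' * q - k),
      ∀ (A : WS (Fin k) ≃ₗ[ZMod 2] WS (Fin k)) (x y : Qz (Fin k) (2 ^ C * q - k)),
        (y : QS (Fin k)) = qs A.toLinearMap (x : QS (Fin k)) →
          (κ y : QS (Fin k)) = qs A.toLinearMap (κ x : QS (Fin k))

/-- KAM -/
def Stmt_KAM : Prop := P_MAE → P_KAM

/-- **TRI**. Transport of the induced modules.

Proof. `TensorProduct.map` of the two inclusions is injective (vector spaces), so `Bd k m a b` is isomorphic to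
`Qz a ⊗ Qz b`; transport `κ ⊗ id` to `K : Bd k m a b ≃ Bd k m a' b`. It commutes with `(qs A ⊗ qs D)` (which
preserves `Bd`; check on pure tensors). `(E φ) g = K (φ g)`. -/
def P_TRI : Prop :=
  ∀ (d k m : ℕ) (a a' b : ℤ) (κ : Qz (Fin k) a ≃ₗ[ZMod 2] Qz (Fin k) a'),
    (∀ (A : WS (Fin k) ≃ₗ[ZMod 2] WS (Fin k)) (x y : Qz (Fin k) a),
      (y : QS (Fin k)) = qs A.toLinearMap (x : QS (Fin k)) →
        (κ y : QS (Fin k)) = qs A.toLinearMap (κ x : QS (Fin k))) →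
    ∃ E : Ind d k m a b ≃ₗ[ZMod 2] Ind d k m a' b, ∀ (φ ψ : Ind d k m a b)
      (g h : WS (Fin d) ≃ₗ[ZMod 2] WS (Fin k ⊕ Fin m)), φ.1 g = ψ.1 h → (E φ).1 g = (E ψ).1 h

/-- TRI -/
def Stmt_TRI : Prop := P_TRI

/-- **GLF**. The isomorphism.

Proof. `t₀ = sz c + d`, `C₁ = t - t₀` as in GSE: LVL at `(t₀, C₁)` (MAE; `|c| < 2 ^ t`), then TRI with KAM in every
component: `k = d - m ≤ d`, `4 ^ (k+1) (sz k + 3) ≤ 4 ^ (d+1) (d + 3) ≤ TT d c` and `≤ TT d c - t₀ ≤ C₁`. -/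
def P_GLF : Prop :=
  ∀ (d : ℕ) (c : ℤ) (t C : ℕ), TT d c ≤ t → TT d c ≤ C → ∀ q : ℤ,
    Iso d (2 ^ t * q - c) (fun m => 2 ^ C * q - ((d - m : ℕ) : ℤ)) fun m => ((d - m : ℕ) : ℤ) - c

/-- GLF -/
def Stmt_GLF : Prop := P_MAE → P_LVL → P_KAM → P_TRI → P_GLF

end HGX
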