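import Mathlib
import Pool.Agent.HGX.Stmts

/-!
# HGX, module BGN: bounded generation of `NN`
-/

set_option autoImplicit false

namespace HGX

open HGP MvPolynomial

namespace BGN

/-- closure under multiplication by the powers of homogeneous elements -/
lemma mul_mem {d T n' a : ℕ} {r x : PS (Fin d)} (hr : r ∈ Hg (Fin d) a)
    (hx : x ∈ Submodule.span (ZMod 2) (BG d T n')) (n : ℕ) (hn : a * 2 ^ T + n' = n) :
    r ^ 2 ^ T * x ∈ Submodule.span (ZMod 2) (BG d T n) := by
  induction hx using Submodule.span_induction with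
  | mem x hx =>
    obtain ⟨a', b, r', ν, hr', hν, hν', hb, hab, rfl⟩ := hx
    apply Submodule.subset_span
    refine ⟨a + a', b, r * r', ν, IsHomogeneous.mul hr hr', hν, hν', hb, ?_, ?_⟩
    · rw [← hn, ← hab]
      ring
    · rw [mul_pow]
      ring
  | zero => rw [mul_zero]; exact Submodule.zero_mem _
  | add x y _ _ hx hy => rw [mul_add]; exact Submodule.add_mem _ hx hy
  | smul c x _ hx => rw [mul_smul_comm]; exact Submodule.smul_mem _ c hx

/-- the homogeneous component of a multiple -/
lemma comp_mem {d T n' : ℕ} {y : PS (Fin d)} (hy : y ∈ Hg (Fin d) n')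
    (hx : y ∈ Submodule.span (ZMod 2) (BG d T n')) (n : ℕ) (r : PS (Fin d)) :
    homogeneousComponent n (r ^ 2 ^ T * y) ∈ Submodule.span (ZMod 2) (BG d T n) := by
  induction r using MvPolynomial.induction_on' with
  | monomial s c =>
    have h1 : (monomial s c : PS (Fin d)) ∈ Hg (Fin d) s.degree := isHomogeneous_monomial c rfl
    have h2 : (monomial s c : PS (Fin d)) ^ 2 ^ T * y ∈
        homogeneousSubmodule (Fin d) (ZMod 2) (s.degree * 2 ^ T + n') :=
      IsHomogeneous.mul (IsHomogeneous.pow h1 _) hy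
    rw [homogeneousComponent_of_mem h2]
    split_ifs with h
    · exact mul_mem h1 hx n h.symm
    · exact Submodule.zero_mem _
  | add p q hp hq =>
    rw [add_pow_char_pow, add_mul, map_add]
    exact Submodule.add_mem _ hp hq

/-- the exponents are small if all are less than `N` -/
lemma degree_le {d N : ℕ} (s : Fin d →₀ ℕ) (h : ∀ i, s i < N) : s.degree ≤ d * N := by
  rw [Finsupp.degree_eq_sum]
  calc ∑ i, s i ≤ ∑ _i : Fin d, N := Finset.sum_le_sum fun i _ => (h i).le
    _ = d * N := by simp

/-- division with remainder of the exponents -/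
lemma divmod {d N : ℕ} (hN : 0 < N) (s : Fin d →₀ ℕ) :
    ∃ a s' : Fin d →₀ ℕ, s = N • a + s' ∧ ∀ i, s' i < N := by
  refine ⟨s.mapRange (fun x => x / N) (Nat.zero_div _),
    s.mapRange (fun x => x % N) (Nat.zero_mod _), ?_, ?_⟩
  · ext i
    simp only [Finsupp.coe_add, Finsupp.coe_smul, Pi.add_apply, Pi.smul_apply,
      Finsupp.mapRange_apply, smul_eq_mul]
    exact (Nat.div_add_mod _ _).symm
  · intro i
    rw [Finsupp.mapRange_apply]
    exact Nat.mod_lt _ hN

lemma os_mul {d T j κ : ℕ} (hκ : κ < 2 ^ T) (r f : PS (Fin d)) :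
    Os j κ (r ^ 2 ^ T * f) = r ^ 2 ^ T * Os j κ f := by
  have h6 := OPB.2.2.2.2.2.1
  have h7 := OPB.2.2.2.2.2.2.1
  rw [← h7 (Fin d) (j + 1) j κ _ (Nat.lt_succ_self j), ← h7 (Fin d) (j + 1) j κ _ (Nat.lt_succ_self j)]
  apply h6
  intro i
  rw [Finsupp.single_apply]
  split_ifs
  · exact hκ
  · exact Nat.two_pow_pos T

/-- the case of a monomial -/
lemma mono {d T n : ℕ} (hESD : P_ESD)
    (ih : ∀ m < n, ∀ f : PS (Fin d), f ∈ Hg (Fin d) m → f ∈ NN (Fin d) T →
      f ∈ Submodule.span (ZMod 2) (BG d T m)) (j κ n' : ℕ) (h1 : 1 ≤ κ) (h2 : κ < 2 ^ T)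
    (hn : n' + κ * (2 ^ (j + 1) - 1) = n) (s : Fin d →₀ ℕ) (hs : s.degree = n') :
    Os j κ (monomial s 1 : PS (Fin d)) ∈ Submodule.span (ZMod 2) (BG d T n) := by
  have hpos : 0 < 2 ^ T := Nat.two_pow_pos T
  have n8 := NNB.2.2.2.2.2.2.2.1
  have n9 := NNB.2.2.2.2.2.2.2.2.1
  have hj : 1 ≤ 2 ^ (j + 1) - 1 := by
    have : 2 ^ 1 ≤ 2 ^ (j + 1) := Nat.pow_le_pow_right (by norm_num) (by omega)
    omega
  obtain ⟨a, s', hss, hs'⟩ := divmod hpos s
  have hdeg : s.degree = 2 ^ T * a.degree + s'.degree := by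
    rw [hss, map_add, map_nsmul, smul_eq_mul]
  have hmon : (monomial s 1 : PS (Fin d)) = (monomial a 1) ^ 2 ^ T * monomial s' 1 := by
    rw [monomial_pow, monomial_mul, one_pow, one_mul, ← hss]
  rcases Nat.eq_zero_or_pos a.degree with ha | ha
  · -- all exponents are small
    have ha0 : a = 0 := (Finsupp.degree_eq_zero_iff a).1 ha
    have hs0 : s = s' := by rw [hss, ha0, smul_zero, zero_add]
    have hsn : n' ≤ d * 2 ^ T := by
      rw [← hs, hs0]
      exact degree_le s' hs'
    have hmh : (monomial s 1 : PS (Fin d)) ∈ Hg (Fin d) n' := isHomogeneous_monomial 1 hs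
    have hO1 : Os j κ (monomial s 1 : PS (Fin d)) ∈ Hg (Fin d) n := by
      rw [← hn]
      exact n9 (Fin d) j κ n' _ hmh
    have hO2 : Os j κ (monomial s 1 : PS (Fin d)) ∈ NN (Fin d) T := n8 (Fin d) T j κ _ h1 h2
    rcases le_or_gt (κ * (2 ^ (j + 1) - 1)) (2 ^ (2 * T + d)) with hc | hc
    · apply Submodule.subset_span
      refine ⟨0, n, 1, _, isHomogeneous_one _ _, hO1, hO2, ?_, by omega, ?_⟩
      · omega
      · rw [one_pow, one_mul]
    · have hj2 : d + T ≤ j + 1 := by
        by_contra hcon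
        have c1 : 2 ^ (j + 1) ≤ 2 ^ (d + T) := Nat.pow_le_pow_right (by norm_num) (by omega)
        have c2 : κ * (2 ^ (j + 1) - 1) ≤ 2 ^ T * 2 ^ (d + T) :=
          Nat.mul_le_mul h2.le (by omega)
        have c3 : 2 ^ T * 2 ^ (d + T) = 2 ^ (2 * T + d) := by
          rw [← pow_add]
          congr 1
          ring
        omega
      have hE := hESD d T j κ (monomial s 1) h1 h2 hj2
      have hcomp : ∀ x : PS (Fin d), x ∈ Submodule.span (ZMod 2)
          {x : PS (Fin d) | ∃ (r : PS (Fin d)) (m : ℕ) (α : ℕ →₀ ℕ), α ≠ 0 ∧ (∀ i, α i < 2 ^ T) ∧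
            wt α < κ * (2 ^ (j + 1) - 1) ∧ x = r ^ 2 ^ T * Mp m α (monomial s 1)} →
          homogeneousComponent n x ∈ Submodule.span (ZMod 2) (BG d T n) := by
        intro x hx
        induction hx using Submodule.span_induction with
        | mem x hx =>
          obtain ⟨r, m, α, hα0, hα, hw, rfl⟩ := hx
          have e1 : Mp m α (monomial s 1 : PS (Fin d)) ∈ Hg (Fin d) (n' + wt α) :=
            OPB.2.2.1 (Fin d) m α n' _ hmh
          have e2 : Mp m α (monomial s 1 : PS (Fin d)) ∈ NN (Fin d) T :=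
            Submodule.subset_span ⟨m, α, _, hα0, hα, rfl⟩
          exact comp_mem e1 (ih _ (by omega) _ e1 e2) n r
        | zero => rw [map_zero]; exact Submodule.zero_mem _
        | add x y _ _ hx hy => rw [map_add]; exact Submodule.add_mem _ hx hy
        | smul c x _ hx => rw [map_smul]; exact Submodule.smul_mem _ c hx
      have h3 := hcomp _ hE
      rw [homogeneousComponent_of_mem (n := n) hO1, if_pos rfl] at h3
      exact h3
  · -- a large exponent
    rw [hmon, os_mul h2]
    have hmh : (monomial s' 1 : PS (Fin d)) ∈ Hg (Fin d) s'.degree := isHomogeneous_monomial 1 rfl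
    have e1 : Os j κ (monomial s' 1 : PS (Fin d)) ∈
        Hg (Fin d) (s'.degree + κ * (2 ^ (j + 1) - 1)) := n9 (Fin d) j κ _ _ hmh
    have e2 : Os j κ (monomial s' 1 : PS (Fin d)) ∈ NN (Fin d) T := n8 (Fin d) T j κ _ h1 h2
    have hpa : 0 < 2 ^ T * a.degree := Nat.mul_pos hpos ha
    refine mul_mem (isHomogeneous_monomial 1 rfl) (ih _ (by omega) _ e1 e2) n ?_
    rw [← hn, ← hs, hdeg]
    ring

end BGN

open BGN in
theorem t_BGN : Stmt_BGN := by
  intro hESD d T n f hf hfN
  rcases Nat.eq_zero_or_pos T with hT | hT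
  · subst hT
    have h0 : f = 0 := by
      have hset : {g : PS (Fin d) | ∃ (m : ℕ) (α : ℕ →₀ ℕ) (f : PS (Fin d)), α ≠ 0 ∧
          (∀ j, α j < 2 ^ 0) ∧ g = Mp m α f} = ∅ := by
        rw [Set.eq_empty_iff_forall_notMem]
        rintro g ⟨m, α, f, hα, hα', -⟩
        apply hα
        ext j
        have := hα' j
        rw [pow_zero] at this
        rw [Finsupp.zero_apply]
        omega
      rw [NN, hset, Submodule.span_empty, Submodule.mem_bot] at hfN
      exact hfN
    rw [h0]
    exact Submodule.zero_mem _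
  · induction n using Nat.strong_induction_on generalizing f with
    | _ n ih =>
      have key : ∀ x : PS (Fin d), x ∈ OG (Fin d) (JG T) n →
          x ∈ Submodule.span (ZMod 2) (BG d T n) := by
        intro x hx
        rw [OG] at hx
        induction hx using Submodule.span_induction with
        | mem x hx =>
          obtain ⟨j, κ, n', h, hh, hJ, hn, rfl⟩ := hx
          have hκ : 1 ≤ κ ∧ κ < 2 ^ T := by
            rcases hJ with ⟨-, i, hi, rfl⟩ | rfl
            · exact ⟨Nat.one_le_two_pow, Nat.pow_lt_pow_right (by norm_num) hi⟩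
            · exact ⟨Nat.one_le_two_pow, Nat.pow_lt_pow_right (by norm_num) (by omega)⟩
          rw [h.as_sum, map_sum]
          apply Submodule.sum_mem
          intro s hs
          have hs' : s.degree = n' := by
            have h1 := (mem_homogeneousSubmodule n' h).1 hh (mem_support_iff.1 hs)
            rw [← h1, Finsupp.degree_eq_weight_one]
            rfl
          have e : (monomial s (coeff s h) : PS (Fin d)) = coeff s h • monomial s 1 := by
            rw [smul_monomial, smul_eq_mul, mul_one]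
          rw [e, map_smul]
          exact Submodule.smul_mem _ _ (mono hESD (fun m hm f hf hfN => ih m hm f hf hfN) j κ n'
            hκ.1 hκ.2 hn s hs')
        | zero => exact Submodule.zero_mem _
        | add x y _ _ hx hy => exact Submodule.add_mem _ hx hy
        | smul c x _ hx => exact Submodule.smul_mem _ c hx
      exact key f (GEN (Fin d) T n f hT hf hfN)

end HGX
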