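import Pool.Agent.HGX.Stmts

/-! # CHK: `KK` may be tested on one equivalence for every subspace -/

namespace HGX

open HGP MvPolynomial

theorem t_CHK : Stmt_CHK := by
  intro d c t C f hdc h k m g μ hμ
  obtain ⟨k', m', g', hg', hK⟩ := h (An g)
  have hd := LIN.2.2.1 d k m g
  have hd' := LIN.2.2.1 d k' m' g'
  rw [hg'] at hd'
  obtain rfl : m = m' := hd.2.symm.trans hd'.2
  obtain rfl : k = k' := by
    have h1 := hd.1
    have h2 := hd'.1
    omega
  obtain ⟨A, D, hAD⟩ := UNI d t k m g g' hg'.symm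
  rw [hAD μ fun s hs b hb => hμ.2 s (by
    have h1 : ((2 ^ t : ℕ) : ℤ) ≤ s := by exact_mod_cast hs
    push_cast at h1
    have h2 : (k : ℤ) ≤ d := by
      have h3 := hd.1
      omega
    omega) b hb]
  exact NNB.2.2.1 _ _ _ C _ (hK _ (SBB.2.2.2.2.2.1 c k m μ D hμ))

end HGX
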