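import Pool.Agent.HGX.Stmts
import Pool.Agent.HGP.CK3

/-!
# CKE: surjectivity in large degrees, with an explicit bound
-/

namespace HGX

open HGP MvPolynomial

theorem t_CKE : Stmt_CKE := by
  intro hNUE d c t C hCok q hq n k m n' r g hn hn' hr u hu ν hν
  obtain ⟨hkm, -⟩ := LIN.2.2.1 (d + 1) k m g
  have hpos : (0 : ℤ) < 2 ^ (d + C) := by positivity
  have h2C : (1 : ℤ) ≤ 2 ^ C := one_le_pow₀ (by norm_num)
  set x : ℤ := q - 2 ^ (d + C) with hx
  have hd0 : (0 : ℤ) ≤ d := by positivity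
  have hx0 : (d : ℤ) + 1 < x := by
    have h3 : (2 : ℤ) ^ (d + 1 + C) = 2 * 2 ^ (d + C) := by
      rw [show d + 1 + C = (d + C) + 1 by ring, pow_succ]
      ring
    rw [h3] at hq
    have h4 : (0 : ℤ) ≤ d * 2 ^ (d + C) := mul_nonneg hd0 hpos.le
    have h5 : ((d : ℤ) + 1) * (2 * 2 ^ (d + C) + 1) = 2 * (d * 2 ^ (d + C)) + 2 * 2 ^ (d + C) +
      d + 1 := by ring
    linarith
  have hxC : x ≤ 2 ^ C * x := by nlinarith
  have hqC : 2 ^ C * q = 2 ^ C * x + 2 ^ (d + 2 * C) := by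
    have h3 : (2 : ℤ) ^ (d + 2 * C) = 2 ^ C * 2 ^ (d + C) := by
      rw [← pow_add]
      congr 1
      ring
    rw [h3, hx]
    ring
  have hp2 : (0 : ℤ) < 2 ^ (d + 2 * C) := by positivity
  have hkm' : (k : ℤ) + m = d + 1 := by exact_mod_cast hkm
  have hnat : ((d : ℤ) + 1) - k = m := by linarith
  -- the smaller degree
  obtain ⟨n₂, hn₂⟩ : ∃ n₂ : ℕ, (n₂ : ℤ) = 2 ^ C * x - k := by
    refine ⟨(2 ^ C * x - k).toNat, ?_⟩
    rw [Int.toNat_of_nonneg]
    have : (0 : ℤ) ≤ m := by positivity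
    linarith
  have hn₂' : n₂ + 2 ^ (d + 2 * C) = n' := by
    have : ((n₂ + 2 ^ (d + 2 * C) : ℕ) : ℤ) = (n' : ℤ) := by
      push_cast
      rw [hn₂, hn', hqC]
      ring
    exact_mod_cast this
  have hBn : k * 2 ^ (k + (m + 2 * C)) < n' := by
    have h4 : ((k * 2 ^ (k + (m + 2 * C)) : ℕ) : ℤ) < (n' : ℤ) := by
      have h5 : k + (m + 2 * C) = d + 1 + 2 * C := by omega
      rw [h5]
      push_cast
      have hm0 : (0 : ℤ) ≤ m := by positivity
      have h6 : (2 : ℤ) ^ (d + 1 + 2 * C) = 2 ^ C * 2 ^ (d + 1 + C) := by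
        rw [← pow_add]
        congr 1
        ring
      have h7 : (k : ℤ) * 2 ^ (d + 1 + 2 * C) ≤ (d + 1) * 2 ^ (d + 1 + 2 * C) :=
        mul_le_mul_of_nonneg_right (by linarith) (by positivity)
      have h8 : 2 ^ C * (((d : ℤ) + 1) * (2 ^ (d + 1 + C) + 1) + 1) ≤ 2 ^ C * q :=
        mul_le_mul_of_nonneg_left (by linarith) (by positivity)
      have h9 : (2 : ℤ) ^ C * (((d : ℤ) + 1) * (2 ^ (d + 1 + C) + 1) + 1) =
          (d + 1) * 2 ^ (d + 1 + 2 * C) + (d + 2) * 2 ^ C := by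
        rw [h6]
        ring
      have h10 : (d : ℤ) + 2 ≤ (d + 2) * 2 ^ C := by nlinarith
      rw [hn']
      linarith
    exact_mod_cast h4
  have hspan := hNUE k (m + 2 * C) n' u hBn hu
  have key : ∀ a : PS (Fin k), ∃ f, Lft c t C n g (homogeneousComponent n' (a * u)) ν f := by
    clear hu
    induction hspan using Submodule.span_induction with
    | mem y hy =>
      obtain ⟨v, hv, rfl⟩ := hy
      intro a
      rcases k with _ | k
      · exfalso
        apply hv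
        ext i
        exact Fin.elim0 i
      · have h5 : Sv v ^ 2 ^ (m + 2 * C) ∈ Hg (Fin (k + 1)) (2 ^ (d + 2 * C)) := by
          have h6 : Sv v ∈ Hg (Fin (k + 1)) (2 ^ k) := RES.2.2.2 k v hv
          have h7 : (Sv v ^ 2 ^ (m + 2 * C)).IsHomogeneous (2 ^ k * 2 ^ (m + 2 * C)) :=
            IsHomogeneous.pow h6 _
          have h8 : 2 ^ k * 2 ^ (m + 2 * C) = 2 ^ (d + 2 * C) := by
            rw [← pow_add]
            congr 1
            omega
          rw [h8] at h7
          exact h7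
        rw [CK3.comp_mul hn₂' h5]
        refine hCok x n (k + 1) m n₂ r g v hv ?_ hn₂ hr _ (homogeneousComponent_isHomogeneous _ _)
          ν hν
        rw [hn, hx]
        ring
    | zero =>
      intro a
      rw [mul_zero, map_zero]
      exact ⟨0, TRN.2.2.2 (d + 1) c t C n k m g ν⟩
    | add y z _ _ hy hz =>
      intro a
      obtain ⟨f, hf⟩ := hy a
      obtain ⟨f', hf'⟩ := hz a
      refine ⟨f + f', ?_⟩
      rw [mul_add, map_add]
      have := TRN.2.2.1 (d + 1) c t C n k m g _ _ 0 ν f f' (Submodule.zero_mem _) hf hf'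
      rwa [add_zero] at this
    | smul b y _ hy =>
      intro a
      rw [smul_eq_mul, ← mul_assoc]
      exact hy (a * b)
  obtain ⟨f, hf⟩ := key 1
  rw [one_mul, homogeneousComponent_of_mem hu, if_pos rfl] at hf
  exact ⟨f, hf⟩

end HGX
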