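import Pool.Agent.HGX.Stmts

/-!
# DCK: the Dickson relation in a commutative ring of characteristic 2
-/

namespace HGX

namespace DCK

/-- the additive polynomial -/
def L {A : Type} [CommRing A] (k : ℕ) (Q : ℕ → A) (z : A) : A :=
  z ^ 2 ^ k + ∑ n ∈ Finset.range k, Q n * z ^ 2 ^ n

/-- the new coefficients -/
def Q' {A : Type} [CommRing A] (k : ℕ) (Q : ℕ → A) (b : A) (n : ℕ) : A :=
  (if n = 0 then 0 else Q (n - 1) ^ 2) + (if n = k then b else b * Q n)

lemma step {A : Type} [CommRing A] [CharP A 2] (k : ℕ) (Q : ℕ → A) (b z : A) :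
    L (k + 1) (Q' k Q b) z = L k Q z ^ 2 + b * L k Q z := by
  have h1 : ∑ n ∈ Finset.range (k + 1), (if n = 0 then 0 else Q (n - 1) ^ 2) * z ^ 2 ^ n =
      ∑ n ∈ Finset.range k, (Q n * z ^ 2 ^ n) ^ 2 := by
    rw [Finset.sum_range_succ']
    simp only [if_true, zero_mul, add_zero]
    refine Finset.sum_congr rfl fun n _ => ?_
    rw [if_neg (Nat.succ_ne_zero n), Nat.add_sub_cancel, mul_pow, ← pow_mul, ← pow_succ]
  have h2 : ∑ n ∈ Finset.range (k + 1), (if n = k then b else b * Q n) * z ^ 2 ^ n =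
      b * L k Q z := by
    rw [Finset.sum_range_succ, if_pos rfl, L, mul_add, Finset.mul_sum, add_comm]
    congr 1
    refine Finset.sum_congr rfl fun n hn => ?_
    rw [if_neg (Finset.mem_range.1 hn).ne, mul_assoc]
  have h3 : L k Q z ^ 2 = z ^ 2 ^ (k + 1) + ∑ n ∈ Finset.range k, (Q n * z ^ 2 ^ n) ^ 2 := by
    rw [L, CharTwo.add_sq, CharTwo.sum_sq, ← pow_mul, ← pow_succ]
  rw [h3, L]
  simp only [Q', add_mul, Finset.sum_add_distrib]
  rw [h1, h2, add_assoc]

end DCK

open DCK in
theorem t_DCK : Stmt_DCK := by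
  intro A _ _ k
  induction k with
  | zero => exact fun y => ⟨fun _ => 0, fun i => i.elim0⟩
  | succ k ih =>
    intro y
    obtain ⟨Q, hQ⟩ := ih (fun i => y i.castSucc)
    refine ⟨Q' k Q (L k Q (y (Fin.last k))), fun i => ?_⟩
    have h0 : L (k + 1) (Q' k Q (L k Q (y (Fin.last k)))) (y i) = 0 := by
      rw [step]
      induction i using Fin.lastCases with
      | last => rw [sq, CharTwo.add_self_eq_zero]
      | cast i =>
        have h1 : L k Q (y i.castSucc) = 0 := by
          rw [L, hQ i, CharTwo.add_self_eq_zero]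
        rw [h1]
        ring
    exact CharTwo.add_eq_zero.mp h0

end HGX
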