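import Pool.Agent.HGX.Facts

/-!
# The hit problem, explicit and equivariant gap splitting: definitions
-/

namespace HGX

open HGP MvPolynomial
open Pool.Agent.Lib_helper74.Hit (hits qd)
open scoped TensorProduct

/-- The number of binary digits of `|c|`. -/
def sz (c : ℤ) : ℕ := Nat.size c.natAbs

/-- The explicit threshold. -/
def TT (d : ℕ) (c : ℤ) : ℕ := 4 ^ (d + 2) * (sz c + d + 1)

/-- The `ZMod 2`-module `Q P_σ`: the polynomials modulo the hits. -/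
abbrev QS (σ : Type) : Type := PS σ ⧸ hits σ

/-- The degree `z` part of `Q P_σ` for an integer `z`; it is zero for `z < 0`. -/
noncomputable def Qz (σ : Type) (z : ℤ) : Submodule (ZMod 2) (QS σ) :=
  if 0 ≤ z then (Hg σ z.toNat).map (hits σ).mkQ else ⊥

/-- A linear substitution maps hits to hits. -/
theorem sb_hits {σ τ : Type} [DecidableEq σ] [Fintype τ] (A : WS σ →ₗ[ZMod 2] WS τ) :
    hits σ ≤ (hits τ).comap (sb A).toLinearMap := fun f hf => SBB.2.2.2.2.1 σ τ A f hf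

/-- The map on `Q P` given by a linear substitution. -/
noncomputable def qs {σ τ : Type} [DecidableEq σ] [Fintype τ]
    (A : WS σ →ₗ[ZMod 2] WS τ) : QS σ →ₗ[ZMod 2] QS τ :=
  (hits σ).mapQ (hits τ) (sb A).toLinearMap (sb_hits A)

/-- Apply a functional to the second factor. -/
noncomputable def ev (k : ℕ) {m : ℕ} (ν : QS (Fin m) →ₗ[ZMod 2] ZMod 2) :
    QS (Fin k) ⊗[ZMod 2] QS (Fin m) →ₗ[ZMod 2] QS (Fin k) :=
  (TensorProduct.rid (ZMod 2) (QS (Fin k))).toLinearMap ∘ₗ TensorProduct.map LinearMap.id ν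

/-- The part of bidegree `(a, b)` of `Q P_k ⊗ Q P_m`. -/
noncomputable def Bd (k m : ℕ) (a b : ℤ) : Submodule (ZMod 2) (QS (Fin k) ⊗[ZMod 2] QS (Fin m)) :=
  LinearMap.range (TensorProduct.map (Qz (Fin k) a).subtype (Qz (Fin m) b).subtype)

/-- The part of `Q P_k ⊗ Q P_m` whose second degree is `b`. -/
noncomputable def Bs (k m : ℕ) (b : ℤ) : Submodule (ZMod 2) (QS (Fin k) ⊗[ZMod 2] QS (Fin m)) :=
  LinearMap.range (TensorProduct.map (LinearMap.id : QS (Fin k) →ₗ[ZMod 2] QS (Fin k))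
    (Qz (Fin m) b).subtype)

/-- The parabolic subgroup: `h` preserves the vectors `(0, z)`; it induces `D` on them and `A` on the
quotient. -/
def Blk {k m : ℕ} (h : WS (Fin k ⊕ Fin m) ≃ₗ[ZMod 2] WS (Fin k ⊕ Fin m))
    (A : WS (Fin k) ≃ₗ[ZMod 2] WS (Fin k)) (D : WS (Fin m) ≃ₗ[ZMod 2] WS (Fin m)) : Prop :=
  (∀ u : WS (Fin k ⊕ Fin m), (h u) ∘ Sum.inl = A (u ∘ Sum.inl)) ∧
    ∀ z : WS (Fin m), h (Sum.elim (0 : WS (Fin k)) z) = Sum.elim (0 : WS (Fin k)) (D z)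

/-- The induced module: the functions `φ` from the linear isomorphisms `F^d ≃ F^k ⊕ F^m` to
`(Q P_k)_a ⊗ (Q P_m)_b` with `φ (h g) = (A ⊗ D) (φ g)` for the elements `h` of the parabolic subgroup.
The group `GL_d` acts by `(φ ^ x) g = φ (g x)`. -/
noncomputable def Ind (d k m : ℕ) (a b : ℤ) :
    Submodule (ZMod 2) ((WS (Fin d) ≃ₗ[ZMod 2] WS (Fin k ⊕ Fin m)) →
      QS (Fin k) ⊗[ZMod 2] QS (Fin m)) where
  carrier := {φ | (∀ g, φ g ∈ Bd k m a b) ∧ ∀ (g : WS (Fin d) ≃ₗ[ZMod 2] WS (Fin k ⊕ Fin m))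
    (h : WS (Fin k ⊕ Fin m) ≃ₗ[ZMod 2] WS (Fin k ⊕ Fin m)) (A : WS (Fin k) ≃ₗ[ZMod 2] WS (Fin k))
    (D : WS (Fin m) ≃ₗ[ZMod 2] WS (Fin m)), Blk h A D →
      φ (g.trans h) = TensorProduct.map (qs A.toLinearMap) (qs D.toLinearMap) (φ g)}
  add_mem' := by
    rintro φ ψ ⟨h1, h2⟩ ⟨h3, h4⟩
    refine ⟨fun g => Submodule.add_mem _ (h1 g) (h3 g), fun g h A D hb => ?_⟩
    rw [Pi.add_apply, Pi.add_apply, h2 g h A D hb, h4 g h A D hb, map_add]
  zero_mem' := by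
    refine ⟨fun g => Submodule.zero_mem _, fun g h A D hb => ?_⟩
    rw [Pi.zero_apply, Pi.zero_apply, map_zero]
  smul_mem' := by
    rintro c φ ⟨h1, h2⟩
    refine ⟨fun g => Submodule.smul_mem _ c (h1 g), fun g h A D hb => ?_⟩
    rw [Pi.smul_apply, Pi.smul_apply, h2 g h A D hb, map_smul]

/-- The characterization of the maps `θ g : Q P_d → Q P_k ⊗ Q P_m` which lift the projections. -/
def IsTh (d : ℕ) (c : ℤ) (t k m : ℕ) (θ : (WS (Fin d) ≃ₗ[ZMod 2] WS (Fin k ⊕ Fin m)) →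
    (QS (Fin d) →ₗ[ZMod 2] QS (Fin k) ⊗[ZMod 2] QS (Fin m))) : Prop :=
  ∀ (g : WS (Fin d) ≃ₗ[ZMod 2] WS (Fin k ⊕ Fin m)) (f : PS (Fin d)),
    θ g ((hits (Fin d)).mkQ f) ∈ Bs k m ((k : ℤ) - c) ∧
      ∀ ν : QS (Fin m) →ₗ[ZMod 2] ZMod 2, Ad c k m (ν.comp (hits (Fin m)).mkQ) →
        ev k ν (θ g ((hits (Fin d)).mkQ f)) =
          (hits (Fin k)).mkQ (pj t g (ν.comp (hits (Fin m)).mkQ) f)

end HGX
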