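import Pool.Agent.HGX.DefsS

/-!
# The hit problem, the explicit isomorphism: auxiliary definitions
-/

namespace HGX

open HGP MvPolynomial
open Pool.Agent.Lib_helper74.Hit (hits qd)
open scoped TensorProduct

open Classical in
/-- The linear map which maps the monomial `x ^ a * y ^ b` (`x` the variables of the first kind, `y`
those of the second kind) to `[ex s (x ^ a)] ⊗ [y ^ b]` if `y ^ b` has degree `r`, and to `0` if not. -/
noncomputable def Sp (s k m : ℕ) (r : ℤ) :
    PS (Fin k ⊕ Fin m) →ₗ[ZMod 2] QS (Fin k) ⊗[ZMod 2] QS (Fin m) :=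
  (basisMonomials (Fin k ⊕ Fin m) (ZMod 2)).constr (ZMod 2) fun a =>
    if ((a.comapDomain Sum.inr Sum.inr_injective.injOn).degree : ℤ) = r then
      (hits (Fin k)).mkQ (ex (Fin k) s
        (monomial (a.comapDomain Sum.inl Sum.inl_injective.injOn) 1)) ⊗ₜ[ZMod 2]
        (hits (Fin m)).mkQ (monomial (a.comapDomain Sum.inr Sum.inr_injective.injOn) 1)
    else 0

/-- The same after the substitution of `g`. -/
noncomputable def Th (s : ℕ) (r : ℤ) {d k m : ℕ}
    (g : WS (Fin d) ≃ₗ[ZMod 2] WS (Fin k ⊕ Fin m)) :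
    PS (Fin d) →ₗ[ZMod 2] QS (Fin k) ⊗[ZMod 2] QS (Fin m) :=
  (Sp s k m r).comp (sb g.toLinearMap).toLinearMap

end HGX
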