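import Pool.Agent.HGX.Defs

/-!
# The hit problem, the explicit isomorphism: the definitions used in the statement
-/

namespace HGX

open HGP MvPolynomial
open Pool.Agent.Lib_helper74.Hit (hits qd)
open scoped TensorProduct

/-- `Q P_σ`: the polynomials modulo the hits. -/
def Q (σ : Type) : Type := PS σ ⧸ hits σ

noncomputable instance Q.grp (σ : Type) : AddCommGroup (Q σ) :=
  inferInstanceAs (AddCommGroup (PS σ ⧸ hits σ))

noncomputable instance Q.mod (σ : Type) : Module (ZMod 2) (Q σ) :=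
  inferInstanceAs (Module (ZMod 2) (PS σ ⧸ hits σ))

/-- The class of a polynomial. -/
noncomputable def cl (σ : Type) : PS σ →ₗ[ZMod 2] Q σ := (hits σ).mkQ

/-- The degree `z` part of `Q P_σ` for an integer `z`; it is zero for `z < 0`. -/
noncomputable def Qd (σ : Type) (z : ℤ) : Submodule (ZMod 2) (Q σ) :=
  if 0 ≤ z then (Hg σ z.toNat).map (cl σ) else ⊥

/-- The map on `Q P` given by a linear substitution. -/
noncomputable def qa {σ τ : Type} [DecidableEq σ] [Fintype τ]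
    (A : WS σ →ₗ[ZMod 2] WS τ) : Q σ →ₗ[ZMod 2] Q τ :=
  (hits σ).mapQ (hits τ) (sb A).toLinearMap (sb_hits A)

/-- `Q P_k ⊗ Q P_m`. -/
def QQ (k m : ℕ) : Type := Q (Fin k) ⊗[ZMod 2] Q (Fin m)

noncomputable instance QQ.grp (k m : ℕ) : AddCommGroup (QQ k m) :=
  inferInstanceAs (AddCommGroup (Q (Fin k) ⊗[ZMod 2] Q (Fin m)))

noncomputable instance QQ.mod (k m : ℕ) : Module (ZMod 2) (QQ k m) :=
  inferInstanceAs (Module (ZMod 2) (Q (Fin k) ⊗[ZMod 2] Q (Fin m)))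

/-- Pure tensors. -/
noncomputable def tm {k m : ℕ} (x : Q (Fin k)) (y : Q (Fin m)) : QQ k m := x ⊗ₜ[ZMod 2] y

/-- The part of bidegree `(a, b)` of `Q P_k ⊗ Q P_m`. -/
noncomputable def QQd (k m : ℕ) (a b : ℤ) : Submodule (ZMod 2) (QQ k m) :=
  Submodule.span (ZMod 2) {w | ∃ x ∈ Qd (Fin k) a, ∃ y ∈ Qd (Fin m) b, w = tm x y}

/-- The linear group. -/
abbrev GLn (k : ℕ) : Type := WS (Fin k) ≃ₗ[ZMod 2] WS (Fin k)

/-- The linear isomorphisms `F^d ≃ F^k ⊕ F^m`. -/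
abbrev Fr (d k m : ℕ) : Type := WS (Fin d) ≃ₗ[ZMod 2] WS (Fin k ⊕ Fin m)

/-- The map `A ⊗ D` on `Q P_k ⊗ Q P_m`. -/
noncomputable def act {k m : ℕ} (A : GLn k) (D : GLn m) : QQ k m →ₗ[ZMod 2] QQ k m :=
  TensorProduct.map (qa A.toLinearMap) (qa D.toLinearMap)

/-- The elements of the parabolic subgroup: `h` preserves the space of the vectors `(0, z)`, acts on
it by `D` and on the quotient by `A`. -/
def Par {k m : ℕ} (h : WS (Fin k ⊕ Fin m) ≃ₗ[ZMod 2] WS (Fin k ⊕ Fin m)) (A : GLn k) (D : GLn m) :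
    Prop :=
  (∀ (u : WS (Fin k ⊕ Fin m)) (i : Fin k), h u (Sum.inl i) = A (fun j => u (Sum.inl j)) i) ∧
    ∀ z : WS (Fin m), h (Sum.elim (0 : WS (Fin k)) z) = Sum.elim (0 : WS (Fin k)) (D z)

/-- `φ` belongs to the module induced from the part of bidegree `(a, b)`. -/
def IsInd (d k m : ℕ) (a b : ℤ) (φ : Fr d k m → QQ k m) : Prop :=
  (∀ g, φ g ∈ QQd k m a b) ∧
    ∀ (g : Fr d k m) (h : WS (Fin k ⊕ Fin m) ≃ₗ[ZMod 2] WS (Fin k ⊕ Fin m)) (A : GLn k)
      (D : GLn m), Par h A D → φ (g.trans h) = act A D (φ g)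

/-- The value of the explicit map on the monomial `x ^ a * y ^ b` (`x` the variables of the first
kind, `y` those of the second kind): `[ex s (x ^ a)] ⊗ [y ^ b]` if `y ^ b` has degree `r`, `0` if not. -/
noncomputable def Sm (s k m : ℕ) (r : ℤ) (a : (Fin k ⊕ Fin m) →₀ ℕ) : QQ k m :=
  open Classical in
  if ((a.comapDomain Sum.inr Sum.inr_injective.injOn).degree : ℤ) = r then
    tm (cl (Fin k) (ex (Fin k) s (monomial (a.comapDomain Sum.inl Sum.inl_injective.injOn) 1)))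
      (cl (Fin m) (monomial (a.comapDomain Sum.inr Sum.inr_injective.injOn) 1))
  else 0

/-- The explicit map: substitute `g`, then replace the monomials by their values. -/
noncomputable def Te (s : ℕ) (r : ℤ) {d k m : ℕ} (g : Fr d k m) (f : PS (Fin d)) : QQ k m :=
  ∑ a ∈ (sb g.toLinearMap f).support, Sm s k m r a

/-- The threshold for `C` in the explicit isomorphism. -/
def SS (d : ℕ) (c : ℤ) : ℕ := 4 ^ (d + 1) * (2 * sz c + d + 3)

/-- The part of degree `2 ^ (C + s) * q - c` of `Q P_d`. -/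
noncomputable def Src (d : ℕ) (c : ℤ) (s C : ℕ) (q : ℤ) : Submodule (ZMod 2) (Q (Fin d)) :=
  Qd (Fin d) (2 ^ (C + s) * q - c)

/-- The sum over `m ≤ d` of the modules induced from
`(Q P_{d-m})_{2 ^ C * q - (d - m)} ⊗ (Q P_m)_{(d - m) - c}`, with the pointwise addition. -/
def Tgt (d : ℕ) (c : ℤ) (C : ℕ) (q : ℤ) : Type :=
  {φ : (m : Fin (d + 1)) → Fr d (d - (m : ℕ)) m → QQ (d - (m : ℕ)) m //
    ∀ m : Fin (d + 1), IsInd d (d - (m : ℕ)) m (2 ^ C * q - ((d - (m : ℕ) : ℕ) : ℤ))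
      (((d - (m : ℕ) : ℕ) : ℤ) - c) (φ m)}

/-- `e` is additive. -/
def Adds {d : ℕ} {c : ℤ} {s C : ℕ} {q : ℤ} (e : Src d c s C q ≃ Tgt d c C q) : Prop :=
  ∀ (x y : Src d c s C q) (m : Fin (d + 1)) (g : Fr d (d - (m : ℕ)) m),
    (e (x + y)).1 m g = (e x).1 m g + (e y).1 m g

/-- `e` commutes with the action of the linear group: `A` acts on `φ` by `g ↦ φ (g ∘ A)`. -/
def Commutes {d : ℕ} {c : ℤ} {s C : ℕ} {q : ℤ} (e : Src d c s C q ≃ Tgt d c C q) : Prop :=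
  ∀ (A : GLn d) (x y : Src d c s C q), y.1 = qa A.toLinearMap x.1 →
    ∀ (m : Fin (d + 1)) (g : Fr d (d - (m : ℕ)) m), (e y).1 m g = (e x).1 m (A.trans g)

/-- `e` maps the class of `f` to the family of the functions `g ↦ Te s r g f`. -/
def ByTe {d : ℕ} {c : ℤ} {s C : ℕ} {q : ℤ} (e : Src d c s C q ≃ Tgt d c C q) : Prop :=
  ∀ (x : Src d c s C q) (f : PS (Fin d)), x.1 = cl (Fin d) f →
    ∀ (m : Fin (d + 1)) (g : Fr d (d - (m : ℕ)) m),
      (e x).1 m g = Te s (((d - (m : ℕ) : ℕ) : ℤ) - c) g f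

end HGX
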