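import Pool.Agent.HGX.Stmts

/-!
# EIN: injectivity
-/

namespace HGX

open HGP MvPolynomial
open Pool.Agent.Lib_helper74.Hit (hits qd)
open scoped TensorProduct

namespace EIN

/-- If all `θ g` vanish at the class of `f`, all the projections of `f` are hits. -/
theorem pj_mem {d : ℕ} {c : ℤ} {t : ℕ} (Θ : ThFam d)
    (hΘ : ∀ m : Fin (d + 1), IsTh d c t (d - (m : ℕ)) m (Θ m)) (f : PS (Fin d))
    (h0 : ∀ m g, Θ m g ((hits (Fin d)).mkQ f) = 0) {k m : ℕ}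
    (g : WS (Fin d) ≃ₗ[ZMod 2] WS (Fin k ⊕ Fin m)) (μ : PS (Fin m) →ₗ[ZMod 2] ZMod 2)
    (hμ : Ad c k m μ) : pj t g μ f ∈ hits (Fin k) := by
  have hk := (LIN.2.2.1 d k m g).1
  obtain rfl : k = d - m := by omega
  have h1 : ((hits (Fin m)).liftQ μ hμ.1).comp (hits (Fin m)).mkQ = μ :=
    Submodule.liftQ_mkQ _ _ _
  have h2 := (hΘ ⟨m, by omega⟩ g f).2 ((hits (Fin m)).liftQ μ hμ.1) (by rw [h1]; exact hμ)
  rw [h0, map_zero, h1] at h2
  exact (Submodule.Quotient.mk_eq_zero _).1 h2.symm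

end EIN

theorem t_EIN : Stmt_EIN := by
  intro d c t C Θ hdc hΘ hIS q x hx h0
  by_cases hz : 0 ≤ 2 ^ (C + t) * q - c
  · rw [Qz, if_pos hz] at hx
    obtain ⟨f, hf, rfl⟩ := hx
    have D : ∀ L : Submodule (ZMod 2) (WS (Fin d)), CNT.Dat d c L := fun L =>
      Classical.choice (CNT.exists_dat LIN DUB d c L)
    have hn : (((2 ^ (C + t) * q - c).toNat : ℕ) : ℤ) = 2 ^ (C + t) * q - c :=
      Int.toNat_of_nonneg hz
    have h1 := CNT.mem_hits_of_Ps D OPB SBB HTS LIN PJB UNI DET hdc hn (hIS q).1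
      (fun q => (hIS q).2) f hf fun x => EIN.pj_mem Θ hΘ f h0 (D x.1).g _ ((D x.1).hμ x.2)
    exact (Submodule.Quotient.mk_eq_zero _).2 h1
  · rw [Qz, if_neg hz] at hx
    exact (Submodule.mem_bot _).1 hx

end HGX
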