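import Pool.Agent.HGX.Stmts

/-!
# EQV: the properties of the maps `θ` (helper62)
-/

namespace HGX

open HGP MvPolynomial
open Pool.Agent.Lib_helper74.Hit (hits qd)
open scoped TensorProduct

namespace EQV

/-- The class of a homogeneous polynomial. -/
theorem mk_mem_Qz {σ : Type} {z : ℤ} {n : ℕ} (hz : (n : ℤ) = z) {f : PS σ} (hf : f ∈ Hg σ n) :
    (hits σ).mkQ f ∈ Qz σ z := by
  subst hz
  unfold Qz
  rw [if_pos (Int.natCast_nonneg n), Int.toNat_natCast]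
  exact Submodule.mem_map_of_mem hf

/-- The elements of the graded parts. -/
theorem exists_of_mem_Qz {σ : Type} {z : ℤ} {x : QS σ} (hx : x ∈ Qz σ z) :
    x = 0 ∨ ∃ (n : ℕ) (f : PS σ), (n : ℤ) = z ∧ f ∈ Hg σ n ∧ x = (hits σ).mkQ f := by
  unfold Qz at hx
  by_cases h : 0 ≤ z
  · rw [if_pos h] at hx
    obtain ⟨f, hf, rfl⟩ := hx
    exact Or.inr ⟨z.toNat, f, Int.toNat_of_nonneg h, hf, rfl⟩
  · rw [if_neg h, Submodule.mem_bot] at hx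
    exact Or.inl hx

theorem qs_mk {σ τ : Type} [DecidableEq σ] [Fintype τ] (A : WS σ →ₗ[ZMod 2] WS τ) (f : PS σ) :
    qs A ((hits σ).mkQ f) = (hits τ).mkQ (sb A f) := rfl

theorem qs_mem_Qz {σ τ : Type} [DecidableEq σ] [Fintype τ] (A : WS σ →ₗ[ZMod 2] WS τ) {z : ℤ}
    {x : QS σ} (hx : x ∈ Qz σ z) : qs A x ∈ Qz τ z := by
  rcases exists_of_mem_Qz hx with rfl | ⟨n, f, hn, hf, rfl⟩
  · rw [map_zero]
    exact Submodule.zero_mem _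
  · rw [qs_mk]
    exact mk_mem_Qz hn (SBB.2.2.2.1 σ τ A n f hf)

theorem tmul_mem_Bs {k m : ℕ} {b : ℤ} (u : QS (Fin k)) {v : QS (Fin m)} (hv : v ∈ Qz (Fin m) b) :
    u ⊗ₜ[ZMod 2] v ∈ Bs k m b :=
  ⟨u ⊗ₜ[ZMod 2] (⟨v, hv⟩ : Qz (Fin m) b), rfl⟩

theorem tmul_mem_Bd {k m : ℕ} {a b : ℤ} {u : QS (Fin k)} (hu : u ∈ Qz (Fin k) a)
    {v : QS (Fin m)} (hv : v ∈ Qz (Fin m) b) : u ⊗ₜ[ZMod 2] v ∈ Bd k m a b :=
  ⟨(⟨u, hu⟩ : Qz (Fin k) a) ⊗ₜ[ZMod 2] (⟨v, hv⟩ : Qz (Fin m) b), rfl⟩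

theorem map_mem_Bs {k m : ℕ} {b : ℤ} (A : WS (Fin k) →ₗ[ZMod 2] WS (Fin k))
    (D : WS (Fin m) →ₗ[ZMod 2] WS (Fin m)) {x : QS (Fin k) ⊗[ZMod 2] QS (Fin m)}
    (hx : x ∈ Bs k m b) : TensorProduct.map (qs A) (qs D) x ∈ Bs k m b := by
  obtain ⟨y, rfl⟩ := hx
  induction y with
  | zero =>
    rw [map_zero, map_zero]
    exact Submodule.zero_mem _
  | tmul u v => exact tmul_mem_Bs _ (qs_mem_Qz D v.2)
  | add y z hy hz =>
    rw [map_add, map_add]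
    exact Submodule.add_mem _ hy hz

theorem ev_tmul (k : ℕ) {m : ℕ} (ν : QS (Fin m) →ₗ[ZMod 2] ZMod 2) (u : QS (Fin k))
    (v : QS (Fin m)) : ev k ν (u ⊗ₜ[ZMod 2] v) = ν v • u := rfl

theorem ev_map {k m : ℕ} (A : WS (Fin k) →ₗ[ZMod 2] WS (Fin k))
    (D : WS (Fin m) →ₗ[ZMod 2] WS (Fin m)) (ν : QS (Fin m) →ₗ[ZMod 2] ZMod 2)
    (x : QS (Fin k) ⊗[ZMod 2] QS (Fin m)) :
    ev k ν (TensorProduct.map (qs A) (qs D) x) = qs A (ev k (ν.comp (qs D)) x) := by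
  induction x with
  | zero => rw [map_zero, map_zero, map_zero, map_zero]
  | tmul u v =>
    rw [TensorProduct.map_tmul, ev_tmul, ev_tmul, map_smul]
    rfl
  | add y z hy hz => rw [map_add, map_add, map_add, map_add, hy, hz]

/-- The functionals of the dual basis are admissible. -/
theorem ad_eps {c : ℤ} {k m : ℕ} (ε : QS (Fin m) →ₗ[ZMod 2] ZMod 2)
    (hε : ∀ z, z ≠ (k : ℤ) - c → ∀ v ∈ Qz (Fin m) z, ε v = 0) :
    Ad c k m (ε.comp (hits (Fin m)).mkQ) := by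
  refine ⟨fun f hf => ?_, fun r hr f hf => ?_⟩
  · rw [LinearMap.comp_apply, Submodule.mkQ_apply, (Submodule.Quotient.mk_eq_zero _).2 hf, map_zero]
  · exact hε r hr _ (mk_mem_Qz rfl hf)

/-- Two elements with the same values are equal. -/
theorem ext_Bs (hT : P_TDL) {c : ℤ} {k m : ℕ} {x y : QS (Fin k) ⊗[ZMod 2] QS (Fin m)}
    (hx : x ∈ Bs k m ((k : ℤ) - c)) (hy : y ∈ Bs k m ((k : ℤ) - c))
    (h : ∀ ν : QS (Fin m) →ₗ[ZMod 2] ZMod 2, Ad c k m (ν.comp (hits (Fin m)).mkQ) →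
      ev k ν x = ev k ν y) : x = y := by
  obtain ⟨N, e, ε, -, h2, -, -, h5⟩ := hT k m ((k : ℤ) - c)
  rw [h5 x hx, h5 y hy]
  exact Finset.sum_congr rfl fun i _ => by rw [h (ε i) (ad_eps _ (h2 i))]

theorem k_le {d k m : ℕ} (g : WS (Fin d) ≃ₗ[ZMod 2] WS (Fin k ⊕ Fin m)) : k ≤ d := by
  have := (LIN.2.2.1 d k m g).1
  omega

/-- The projection of a homogeneous polynomial. -/
theorem pj_mem {d : ℕ} {c : ℤ} {t C k m : ℕ} (q : ℤ)
    (g : WS (Fin d) ≃ₗ[ZMod 2] WS (Fin k ⊕ Fin m)) (μ : PS (Fin m) →ₗ[ZMod 2] ZMod 2)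
    (hμ : Ad c k m μ) {n : ℕ} (hn : (n : ℤ) = 2 ^ (C + t) * q - c) {f : PS (Fin d)}
    (hf : f ∈ Hg (Fin d) n) :
    (hits (Fin k)).mkQ (pj t g μ f) ∈ Qz (Fin k) (2 ^ C * q - k) := by
  by_cases h : ∃ n' r : ℕ, (r : ℤ) = k - c ∧ n + k = 2 ^ t * (n' + k) + r
  · obtain ⟨n', r, hr, h1⟩ := h
    have h2 := PJB.2.2.2.1 d c t k m n n' r g μ hμ f hf hr h1
    refine mk_mem_Qz ?_ h2
    have h3 : ((n : ℤ) + k) = 2 ^ t * ((n' : ℤ) + k) + r := by exact_mod_cast h1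
    rw [hn, hr, pow_add] at h3
    have h4 : (2 : ℤ) ^ t * ((n' : ℤ) + k) = 2 ^ t * (2 ^ C * q) := by linear_combination -h3
    have h5 := mul_left_cancel₀ (pow_ne_zero t (two_ne_zero)) h4
    linarith
  · have h2 := PJB.2.2.2.2 d c t k m n g μ hμ f hf fun n' r h1 h3 => h ⟨n', r, h1, h3⟩
    rw [h2, map_zero]
    exact Submodule.zero_mem _

end EQV

open EQV in
theorem t_EQV : Stmt_EQV := by
  intro hU hT d c t k m θ hd hθ
  refine ⟨fun g h A D x hb => ?_, fun g A x => ?_, fun C q g x hx => ?_⟩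
  · obtain ⟨f, rfl⟩ := (hits (Fin d)).mkQ_surjective x
    refine ext_Bs hT (hθ _ f).1 (map_mem_Bs _ _ (hθ g f).1) fun ν hν => ?_
    have hD : Ad c k m ((ν.comp (qs D.toLinearMap)).comp (hits (Fin m)).mkQ) :=
      SBB.2.2.2.2.2.1 c k m (ν.comp (hits (Fin m)).mkQ) D hν
    rw [(hθ _ f).2 ν hν, ev_map, (hθ g f).2 _ hD, qs_mk]
    have h1 := hU.1 d t k m g h A D (ν.comp (hits (Fin m)).mkQ) f hb fun s hs b hbs =>
      hν.2 s (by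
        have h2 := k_le g
        have h3 : ((2 : ℤ) ^ t) ≤ s := by exact_mod_cast hs
        have h4 : (k : ℤ) ≤ d := by exact_mod_cast h2
        intro h5
        linarith) b hbs
    rw [h1]
    rfl
  · obtain ⟨f, rfl⟩ := (hits (Fin d)).mkQ_surjective x
    rw [qs_mk]
    refine ext_Bs hT (hθ g _).1 (hθ _ f).1 fun ν hν => ?_
    rw [(hθ g _).2 ν hν, (hθ _ f).2 ν hν, SBB.2.2.2.2.2.2 d k m t A g]
  · rcases exists_of_mem_Qz hx with rfl | ⟨n, f, hn, hf, rfl⟩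
    · rw [map_zero]
      exact Submodule.zero_mem _
    · obtain ⟨N, e, ε, h1, h2, -, -, h5⟩ := hT k m ((k : ℤ) - c)
      rw [h5 _ (hθ g f).1]
      refine Submodule.sum_mem _ fun i _ => tmul_mem_Bd ?_ (h1 i)
      rw [(hθ g f).2 _ (ad_eps _ (h2 i))]
      exact pj_mem q g _ (ad_eps _ (h2 i)) hn hf

end HGX
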