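import Pool.Agent.HGX.Stmts
import Pool.Agent.HGP.LO1

/-!
# ESD: the operations with large index are combinations of operations of smaller degree
-/

namespace HGX

open HGP MvPolynomial

namespace ESD

variable {d : ℕ}

/-- the parameters -/
noncomputable def ps (s : ℕ) (Q : ℕ → PS (Fin d)) (i : ℕ) : PS (Fin d) :=
  if s ≤ i ∧ i < s + d then Q (i - s) else 0

theorem spec (s : ℕ) (Q : ℕ → PS (Fin d))
    (hQ : ∀ l, (X l : PS (Fin d)) ^ 2 ^ d = ∑ n ∈ Finset.range d, Q n * X l ^ 2 ^ n)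
    (f : PS (Fin d)) :
    LO1.Th (fun i => ps s Q i ^ 2 ^ (s + 1)) (ph (Fin d) (s + d) f) = es (Fin d) (s + d) f := by
  have h2 : ∀ a : PS (Fin d), LO1.Th (fun i => ps s Q i ^ 2 ^ (s + 1)) (C a) =
      Polynomial.C a := fun a => by
    rw [LO1.Th, aeval_C]
    rfl
  have hX : ∀ l, LO1.Th (fun i => ps s Q i ^ 2 ^ (s + 1)) (ph (Fin d) (s + d) (X l)) =
      es (Fin d) (s + d) (X l) := by
    intro l
    have h1 : ph (Fin d) (s + d) (X l) =
        C (X l) + ∑ j ∈ Finset.range (s + d), C (X l ^ 2 ^ (j + 1)) * X j := by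
      rw [ph, aeval_X]
    have h1' : es (Fin d) (s + d) (X l) = Polynomial.C (X l) +
        Polynomial.C (X l ^ 2 ^ (s + d + 1)) * Polynomial.X := by
      rw [es, aeval_X]
    rw [h1, h1', map_add, map_sum, h2]
    congr 1
    have h3 : ∀ j, LO1.Th (fun i => ps s Q i ^ 2 ^ (s + 1))
        (C (X l ^ 2 ^ (j + 1)) * X j) =
        Polynomial.C (X l ^ 2 ^ (j + 1) * ps s Q j ^ 2 ^ (s + 1)) * Polynomial.X := by
      intro j
      rw [map_mul, h2, LO1.Th, aeval_X, map_mul, mul_assoc]
    simp only [h3]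
    rw [← Finset.sum_mul, ← map_sum]
    congr 2
    have h5 : (X l : PS (Fin d)) ^ 2 ^ (s + d + 1) =
        (∑ n ∈ Finset.range d, Q n * X l ^ 2 ^ n) ^ 2 ^ (s + 1) := by
      rw [← hQ l, ← pow_mul, ← pow_add]
      congr 2
      ring
    rw [h5, Finset.sum_range_add, sum_pow_char_pow]
    have h4 : ∀ j ∈ Finset.range s, (X l : PS (Fin d)) ^ 2 ^ (j + 1) *
        ps s Q j ^ 2 ^ (s + 1) = 0 := by
      intro j hj
      have : ps s Q j = 0 := if_neg (by rw [Finset.mem_range] at hj; omega)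
      rw [this, zero_pow (by positivity), mul_zero]
    rw [Finset.sum_eq_zero h4, zero_add]
    refine Finset.sum_congr rfl fun n hn => ?_
    have : ps s Q (s + n) = Q n := by
      change (if s ≤ s + n ∧ s + n < s + d then Q (s + n - s) else 0) = Q n
      rw [if_pos (by rw [Finset.mem_range] at hn; omega), Nat.add_sub_cancel_left]
    rw [this, mul_pow, ← pow_mul, ← pow_add, mul_comm]
    congr 3
    ring
  induction f using MvPolynomial.induction_on with
  | C a =>
    have h1 : ph (Fin d) (s + d) (C a) = C (C a) := by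
      rw [ph, aeval_C]
      rfl
    have h1' : es (Fin d) (s + d) (C a) = Polynomial.C (C a) := by
      rw [es, aeval_C]
      rfl
    rw [h1, h1', h2]
  | add p q hp hq => rw [map_add, map_add, map_add, hp, hq]
  | mul_X p i hp => rw [map_mul, map_mul, map_mul, hp, hX]

end ESD

open ESD in
theorem t_ESD : Stmt_ESD := by
  intro hDCK d T j κ f hκ1 hκ hj
  have hT : 1 ≤ T := by
    rcases Nat.eq_zero_or_pos T with rfl | h
    · rw [pow_zero] at hκ
      omega
    · exact h
  obtain ⟨s, rfl⟩ : ∃ s, j = s + d := ⟨j - d, by omega⟩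
  obtain ⟨Q, hQ⟩ := hDCK (PS (Fin d)) d fun l => X l
  have h0 : Os (s + d) κ f = (es (Fin d) (s + d) f).coeff κ := rfl
  rw [h0, ← spec s Q hQ f, LO1.Th_coeff]
  refine Submodule.sum_mem _ fun α _ => ?_
  split_ifs with hk
  swap
  · exact Submodule.zero_mem _
  by_cases hz : ∀ i ∈ α.support, i < s + d
  swap
  · push Not at hz
    obtain ⟨i, hi, hi'⟩ := hz
    have h1 : (α.prod fun j a => (ps s Q j ^ 2 ^ (s + 1)) ^ a) = 0 := by
      refine Finset.prod_eq_zero hi ?_
      have : ps s Q i = 0 := if_neg (by omega)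
      change (ps s Q i ^ 2 ^ (s + 1)) ^ α i = 0
      rw [this, zero_pow (by positivity), zero_pow (Finsupp.mem_support_iff.1 hi)]
    rw [h1, mul_zero]
    exact Submodule.zero_mem _
  have hα : ∀ i, α i < 2 ^ T := by
    intro i
    have h1 : α i ≤ α.sum fun _ a => a := by
      by_cases h : i ∈ α.support
      · exact Finset.single_le_sum (f := fun j => α j) (fun _ _ => Nat.zero_le _) h
      · rw [Finsupp.notMem_support_iff.1 h]
        exact Nat.zero_le _
    omega
  have hα0 : α ≠ 0 := by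
    rintro rfl
    rw [Finsupp.sum_zero_index] at hk
    omega
  have hwt : wt α < κ * (2 ^ (s + d + 1) - 1) := by
    have h1 : wt α ≤ κ * (2 ^ (s + d) - 1) := by
      rw [hk, wt, Finsupp.sum, Finsupp.sum, Finset.sum_mul]
      refine Finset.sum_le_sum fun i hi => Nat.mul_le_mul_left _ ?_
      have : 2 ^ (i + 1) ≤ 2 ^ (s + d) := Nat.pow_le_pow_right (by norm_num) (hz i hi)
      omega
    have h2 : κ * (2 ^ (s + d) - 1) < κ * (2 ^ (s + d + 1) - 1) := by
      refine Nat.mul_lt_mul_of_pos_left ?_ (by omega)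
      have h3 : 0 < 2 ^ (s + d) := by positivity
      have h4 : 2 ^ (s + d + 1) = 2 * 2 ^ (s + d) := by ring
      omega
    omega
  have hp : (α.prod fun j a => (ps s Q j ^ 2 ^ (s + 1)) ^ a) =
      ((α.prod fun j a => ps s Q j ^ a) ^ 2 ^ (s + 1 - T)) ^ 2 ^ T := by
    have h1 : 2 ^ (s + 1) = 2 ^ (s + 1 - T) * 2 ^ T := by
      rw [← pow_add]
      congr 1
      omega
    rw [← pow_mul, ← h1, Finsupp.prod, Finsupp.prod, ← Finset.prod_pow]
    refine Finset.prod_congr rfl fun j _ => ?_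
    rw [← pow_mul, ← pow_mul, mul_comm]
  refine Submodule.subset_span ⟨(α.prod fun j a => ps s Q j ^ a) ^ 2 ^ (s + 1 - T), s + d, α,
    hα0, hα, hwt, ?_⟩
  rw [hp, mul_comm]
  rfl

end HGX
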