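import Pool.Agent.HGX.EQV

/-!
# ESU: surjectivity onto the induced modules (helper62)
-/

namespace HGX

open HGP MvPolynomial
open Pool.Agent.Lib_helper74.Hit (hits qd)
open scoped TensorProduct

namespace ESU

theorem mk_NN {σ : Type} {t : ℕ} {f : PS σ} (hf : f ∈ NN σ t) : (hits σ).mkQ f = 0 := by
  rw [Submodule.mkQ_apply, Submodule.Quotient.mk_eq_zero]
  exact CNT.NN_le_hits HTS _ _ hf

/-- Lifts of the elements of the bigraded parts. -/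
theorem key (hT : P_TDL) {d : ℕ} {c : ℤ} {t C : ℕ} (Θ : ThFam d)
    (hΘ : ∀ m : Fin (d + 1), IsTh d c t (d - (m : ℕ)) m (Θ m)) {q : ℤ} (hS : Sur d c t C q)
    {n : ℕ} (hn : (n : ℤ) = 2 ^ (C + t) * q - c) (m : Fin (d + 1))
    (g : WS (Fin d) ≃ₗ[ZMod 2] WS (Fin (d - (m : ℕ)) ⊕ Fin (m : ℕ)))
    (y : QS (Fin (d - (m : ℕ))) ⊗[ZMod 2] QS (Fin (m : ℕ)))
    (hy : y ∈ Bd (d - (m : ℕ)) m (2 ^ C * q - ((d - (m : ℕ) : ℕ) : ℤ))
      (((d - (m : ℕ) : ℕ) : ℤ) - c)) :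
    ∃ F ∈ Hg (Fin d) n, Θ m g ((hits (Fin d)).mkQ F) = y ∧
      ∀ (m' : Fin (d + 1)) (g' : WS (Fin d) ≃ₗ[ZMod 2] WS (Fin (d - (m' : ℕ)) ⊕ Fin (m' : ℕ))),
        An g' ≠ An g → Θ m' g' ((hits (Fin d)).mkQ F) = 0 := by
  have hz : ∀ y₀ : QS (Fin (d - (m : ℕ))) ⊗[ZMod 2] QS (Fin (m : ℕ)), y₀ = 0 →
      ∃ F ∈ Hg (Fin d) n, Θ m g ((hits (Fin d)).mkQ F) = y₀ ∧
      ∀ (m' : Fin (d + 1)) (g' : WS (Fin d) ≃ₗ[ZMod 2] WS (Fin (d - (m' : ℕ)) ⊕ Fin (m' : ℕ))),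
        An g' ≠ An g → Θ m' g' ((hits (Fin d)).mkQ F) = 0 := by
    intro y₀ h0
    refine ⟨0, Submodule.zero_mem _, ?_, fun m' g' _ => ?_⟩
    · rw [h0, map_zero, map_zero]
    · rw [map_zero, map_zero]
  obtain ⟨Y, rfl⟩ := hy
  induction Y with
  | zero => exact hz _ (map_zero _)
  | tmul u v =>
    change ∃ F ∈ Hg (Fin d) n, Θ m g ((hits (Fin d)).mkQ F) = (u : QS (Fin (d - (m : ℕ))))
      ⊗ₜ[ZMod 2] (v : QS (Fin (m : ℕ))) ∧ _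
    rcases EQV.exists_of_mem_Qz u.2 with hu | ⟨n', U, hn', hU, hu⟩
    · exact hz _ (by rw [hu, TensorProduct.zero_tmul])
    rcases EQV.exists_of_mem_Qz v.2 with hv | ⟨r, V, hr, hV, hv⟩
    · exact hz _ (by rw [hv, TensorProduct.tmul_zero])
    obtain ⟨f, hf, h1, h2⟩ := hS n _ _ n' r g hn hn' hr U hU V hV
    refine ⟨f, hf, ?_, fun m' g' hg' => ?_⟩
    · refine EQV.ext_Bs hT (hΘ m g f).1 (EQV.tmul_mem_Bs _ v.2) fun ν hν => ?_
      rw [(hΘ m g f).2 ν hν, EQV.ev_tmul, hu, hv]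
      have h3 := mk_NN (h1 _ hν)
      rw [map_sub, map_smul, sub_eq_zero] at h3
      rw [h3]
      rfl
    · refine EQV.ext_Bs hT (hΘ m' g' f).1 (Submodule.zero_mem _) fun ν hν => ?_
      rw [(hΘ m' g' f).2 ν hν, map_zero]
      exact mk_NN (h2 _ _ g' _ hν hg')
  | add y z hy hz' =>
    obtain ⟨F, hF, h1, h2⟩ := hy
    obtain ⟨G, hG, h3, h4⟩ := hz'
    refine ⟨F + G, Submodule.add_mem _ hF hG, ?_, fun m' g' hg' => ?_⟩
    · rw [map_add, map_add, h1, h3, map_add]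
    · rw [map_add, map_add, h2 m' g' hg', h4 m' g' hg', add_zero]

theorem Bd_bot {k m : ℕ} {a b : ℤ} (h : a < 0 ∨ b < 0)
    {y : QS (Fin k) ⊗[ZMod 2] QS (Fin m)} (hy : y ∈ Bd k m a b) : y = 0 := by
  obtain ⟨Y, rfl⟩ := hy
  induction Y with
  | zero => exact map_zero _
  | tmul u v =>
    change (u : QS (Fin k)) ⊗ₜ[ZMod 2] (v : QS (Fin m)) = 0
    rcases h with h | h
    · rcases EQV.exists_of_mem_Qz u.2 with hu | ⟨n', U, hn', hU, hu⟩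
      · rw [hu, TensorProduct.zero_tmul]
      · omega
    · rcases EQV.exists_of_mem_Qz v.2 with hv | ⟨n', U, hn', hU, hu⟩
      · rw [hv, TensorProduct.tmul_zero]
      · omega
  | add y z hy hz' => rw [map_add, hy, hz', add_zero]

/-- The lift at one subspace. -/
theorem lift (hU : P_UN2) (hT : P_TDL) (hE : P_EQV) {d : ℕ} {c : ℤ} {t C : ℕ}
    (hd : (d : ℤ) - c < 2 ^ t) (Θ : ThFam d)
    (hΘ : ∀ m : Fin (d + 1), IsTh d c t (d - (m : ℕ)) m (Θ m)) {q : ℤ} (hS : Sur d c t C q)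
    {n : ℕ} (hn : (n : ℤ) = 2 ^ (C + t) * q - c)
    (φ : (m : Fin (d + 1)) → Ind d (d - (m : ℕ)) m (2 ^ C * q - ((d - (m : ℕ) : ℕ) : ℤ))
        (((d - (m : ℕ) : ℕ) : ℤ) - c)) (Λ : Submodule (ZMod 2) (WS (Fin d))) :
    ∃ F ∈ Hg (Fin d) n, ∀ (m : Fin (d + 1))
      (g : WS (Fin d) ≃ₗ[ZMod 2] WS (Fin (d - (m : ℕ)) ⊕ Fin (m : ℕ))),
        (An g = Λ → Θ m g ((hits (Fin d)).mkQ F) = (φ m).1 g) ∧
        (An g ≠ Λ → Θ m g ((hits (Fin d)).mkQ F) = 0) := by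
  obtain ⟨m₀, g₀, hg₀⟩ : ∃ (m₀ : Fin (d + 1))
      (g₀ : WS (Fin d) ≃ₗ[ZMod 2] WS (Fin (d - (m₀ : ℕ)) ⊕ Fin (m₀ : ℕ))), An g₀ = Λ := by
    obtain ⟨k, g, hg⟩ := LIN.1 d Λ
    have h1 := (LIN.2.2.1 d k _ g).1
    obtain rfl : k = d - Module.finrank (ZMod 2) Λ := by omega
    exact ⟨⟨Module.finrank (ZMod 2) Λ, by omega⟩, g, hg⟩
  obtain ⟨F, hF, h1, h2⟩ := key hT Θ hΘ hS hn m₀ g₀ ((φ m₀).1 g₀) ((φ m₀).2.1 g₀)
  refine ⟨F, hF, fun m g => ⟨fun hg => ?_, fun hg => h2 m g (by rwa [hg₀])⟩⟩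
  have h3 : m = m₀ := by
    apply Fin.ext
    have h4 := (LIN.2.2.1 d _ _ g).2
    have h5 := (LIN.2.2.1 d _ _ g₀).2
    rw [hg] at h4
    rw [hg₀] at h5
    exact h4.symm.trans h5
  subst h3
  obtain ⟨A, D, hb⟩ := hU.2 d _ _ g g₀ (by rw [hg, hg₀])
  have h6 : g = g₀.trans (g₀.symm.trans g) := by
    ext x
    simp
  have h7 := (hE d c t _ _ (Θ m) hd (hΘ m)).1 g₀ _ A D ((hits (Fin d)).mkQ F) hb
  have h8 := (φ m).2.2 g₀ _ A D hb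
  rw [← h6] at h7 h8
  rw [h7, h8, h1]

end ESU

open ESU in
theorem t_ESU : Stmt_ESU := by
  intro hU hT hE d c t C Θ hd hΘ hIS hc q φ
  by_cases hz : 0 ≤ (2 : ℤ) ^ (C + t) * q - c
  · have hn : (((2 : ℤ) ^ (C + t) * q - c).toNat : ℤ) = 2 ^ (C + t) * q - c :=
      Int.toNat_of_nonneg hz
    choose F hF h1 using lift hU hT hE hd Θ hΘ (hIS q).2 hn φ
    have := Fintype.ofFinite (Submodule (ZMod 2) (WS (Fin d)))
    refine ⟨(hits (Fin d)).mkQ (∑ Λ, F Λ), EQV.mk_mem_Qz hn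
      (Submodule.sum_mem _ fun Λ _ => hF Λ), fun m g => ?_⟩
    rw [map_sum, map_sum, Finset.sum_eq_single (An g) (fun Λ _ hΛ => (h1 Λ m g).2 (Ne.symm hΛ))
      (fun h => absurd (Finset.mem_univ _) h)]
    exact (h1 (An g) m g).1 rfl
  · refine ⟨0, Submodule.zero_mem _, fun m g => ?_⟩
    rw [map_zero]
    refine (Bd_bot ?_ ((φ m).2.1 g)).symm
    have hp : (0 : ℤ) < 2 ^ (C + t) := by positivity
    have hpC : (0 : ℤ) < 2 ^ C := by positivity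
    have hk : (0 : ℤ) ≤ ((d - (m : ℕ) : ℕ) : ℤ) := Int.natCast_nonneg _
    have hq : q ≤ 0 := by
      by_contra h
      push Not at h
      have h1 : (2 : ℤ) ^ (C + t) * 1 ≤ 2 ^ (C + t) * q :=
        mul_le_mul_of_nonneg_left (by omega) hp.le
      have h2 := (abs_lt.1 hc).2
      linarith
    rcases lt_or_eq_of_le hq with h | h
    · left
      have := mul_neg_of_pos_of_neg hpC h
      linarith
    · subst h
      rcases lt_or_eq_of_le hk with h | h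
      · left
        linarith
      · right
        rw [← h]
        linarith

end HGX
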