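import Pool.Agent.HGX.Stmts

/-!
# GSE: the formula, with the explicit threshold
-/

namespace HGX

open HGP MvPolynomial

namespace GSE

theorem abs_lt (c : ℤ) : |c| < 2 ^ sz c := by
  rw [Int.abs_eq_natAbs]
  exact_mod_cast Nat.lt_size_self c.natAbs

theorem sz_nat_le (k : ℕ) : sz (k : ℤ) ≤ k := by
  unfold sz
  rw [Int.natAbs_natCast, Nat.size_le]
  exact Nat.lt_two_pow_self

/-- Stability, one step. -/
theorem stab1 (hM : P_MAE) (k C : ℕ) (hC : 4 ^ (k + 1) * (sz k + 3) ≤ C) (q : ℤ) :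
    qz k (2 ^ (C + 1) * q - k) = qz k (2 ^ C * q - k) := by
  have hk : (k : ℤ) - k < 2 ^ 1 := by norm_num
  have h0 := hM k k 1 C hk (by
    have e : 1 + sz (k : ℤ) + 2 = sz (k : ℤ) + 3 := by ring
    rw [e]
    exact hC)
  by_cases hn : 0 ≤ 2 ^ (C + 1) * q - (k : ℤ)
  · obtain ⟨n, hn'⟩ := Int.eq_ofNat_of_zero_le hn
    have h1 := CNT k k 1 C hk h0 q n hn'.symm
    rw [GSP.qz_nat k n hn'.symm, h1, GSP.RH_self]
  · push Not at hn
    rw [GSP.qz_neg k hn, GSP.qz_neg k]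
    have h2 : (0 : ℤ) < 2 ^ C := by positivity
    rw [pow_succ] at hn
    rcases le_or_gt q 0 with hq | hq
    · have h3 : (2 : ℤ) ^ C * q ≤ 0 := mul_nonpos_of_nonneg_of_nonpos h2.le hq
      rcases Nat.eq_zero_or_pos k with hk0 | hk0
      · subst hk0
        have h4 : (2 : ℤ) ^ C * 2 * q = 2 * (2 ^ C * q) := by ring
        rw [h4] at hn
        omega
      · omega
    · have h3 : (0 : ℤ) < 2 ^ C * q := mul_pos h2 hq
      have h4 : (2 : ℤ) ^ C * 2 * q = 2 * (2 ^ C * q) := by ring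
      rw [h4] at hn
      omega

/-- Stability. -/
theorem stab (hM : P_MAE) (k C C' : ℕ) (hC : 4 ^ (k + 1) * (sz k + 3) ≤ C) (hCC : C ≤ C') (q : ℤ) :
    qz k (2 ^ C' * q - k) = qz k (2 ^ C * q - k) := by
  induction C', hCC using Nat.le_induction with
  | base => rfl
  | succ C' hCC ih => rw [stab1 hM k C' (hC.trans hCC), ih]

theorem stab_all (hM : P_MAE) (d S : ℕ) (hS : 4 ^ (d + 1) * (d + 3) ≤ S) : ∀ k, k ≤ d → ∀ C C',
    S ≤ C → S ≤ C' → ∀ q : ℤ, qz k (2 ^ C * q - k) = qz k (2 ^ C' * q - k) := by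
  intro k hk C C' h1 h2 q
  have h3 : 4 ^ (k + 1) * (sz k + 3) ≤ S := by
    refine le_trans (Nat.mul_le_mul (Nat.pow_le_pow_right (by norm_num) (by omega)) ?_) hS
    have := sz_nat_le k
    omega
  rw [stab hM k S C h3 h1, stab hM k S C' h3 h2]

theorem lt_t0 (d : ℕ) (c : ℤ) : (d : ℤ) - c < 2 ^ (sz c + d) := by
  have h1 := abs_lt c
  have h2 := neg_abs_le c
  have h3 : (d : ℤ) + 1 ≤ 2 ^ d := by
    have : d + 1 ≤ 2 ^ d := Nat.lt_two_pow_self
    exact_mod_cast this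
  have h4 : (1 : ℤ) ≤ 2 ^ sz c := one_le_pow₀ (by norm_num)
  rw [pow_add]
  nlinarith

theorem size_bound (d s : ℕ) : 4 ^ (d + 1) * (2 * s + d + 2) + (s + d) ≤ 4 ^ (d + 2) * (s + d + 1) := by
  have h2 : 1 ≤ 4 ^ (d + 1) := Nat.one_le_pow _ _ (by norm_num)
  have e : 4 ^ (d + 2) * (s + d + 1) = 4 ^ (d + 1) * (2 * s + d + 2) +
      4 ^ (d + 1) * (2 * s + 3 * d + 2) := by
    rw [pow_succ 4 (d + 1)]
    ring
  rw [e]
  have h3 : 1 * (2 * s + 3 * d + 2) ≤ 4 ^ (d + 1) * (2 * s + 3 * d + 2) := Nat.mul_le_mul_right _ h2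
  omega

theorem TT_ge (d : ℕ) (c : ℤ) : 4 ^ (d + 1) * (d + 3) ≤ TT d c := by
  unfold TT
  have e : 4 ^ (d + 2) * (sz c + d + 1) = 4 ^ (d + 1) * (4 * (sz c + d + 1)) := by
    rw [pow_succ 4 (d + 1)]
    ring
  rw [e]
  exact Nat.mul_le_mul_left _ (by omega)

end GSE

open GSE in
theorem t_GSE : Stmt_GSE := by
  intro hM d c t C ht hCT q
  have hTT := TT_ge d c
  have hsb := size_bound d (sz c)
  have ht₀ := lt_t0 d c
  have hTdef : TT d c = 4 ^ (d + 2) * (sz c + d + 1) := rfl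
  have hcl : |c| < 2 ^ t := by
    refine (abs_lt c).trans_le (pow_le_pow_right₀ (by norm_num) ?_)
    omega
  have hS := stab_all hM d (4 ^ (d + 1) * (d + 3)) le_rfl
  by_cases hn : 0 ≤ 2 ^ t * q - c
  · obtain ⟨n, hn'⟩ := Int.eq_ofNat_of_zero_le hn
    obtain ⟨C₁, hC₁⟩ : ∃ C₁, t = C₁ + (sz c + d) := ⟨t - (sz c + d), by omega⟩
    have hC₁' : 4 ^ (d + 1) * (2 * sz c + d + 2) ≤ C₁ := by omega
    have h0 := hM d c (sz c + d) C₁ ht₀ (by
      have e : sz c + d + sz c + 2 = 2 * sz c + d + 2 := by ring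
      rw [e]
      exact hC₁')
    have h1 := CNT d c (sz c + d) C₁ ht₀ h0 q n (by rw [← hC₁]; exact hn'.symm)
    rw [GSP.qz_nat d n hn'.symm, h1]
    unfold RH
    refine Finset.sum_congr rfl fun m _ => ?_
    congr 2
    have hk : d - m ≤ d := Nat.sub_le _ _
    have h3 : 4 ^ (d - m + 1) * (sz ((d - m : ℕ) : ℤ) + 3) ≤ 4 ^ (d + 1) * (d + 3) := by
      refine Nat.mul_le_mul (Nat.pow_le_pow_right (by norm_num) (by omega)) ?_
      have := sz_nat_le (d - m)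
      omega
    have h4 : 4 ^ (d - m + 1) * (sz ((d - m : ℕ) : ℤ) + 3) ≤ C₁ := by
      by_cases hsc : d + 3 ≤ 2 * sz c + d + 2
      · exact h3.trans ((Nat.mul_le_mul_left _ hsc).trans hC₁')
      · have h5 : sz c = 0 := by omega
        have h6 : TT d c = 4 ^ (d + 1) * (4 * (d + 1)) := by
          rw [hTdef, h5, pow_succ 4 (d + 1)]
          ring
        have h7 : 4 ^ (d + 1) * (d + 3) + (sz c + d) ≤ TT d c := by
          rw [h6, h5]
          have h8 : 1 ≤ 4 ^ (d + 1) := Nat.one_le_pow _ _ (by norm_num)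
          have h9 : 4 ^ (d + 1) * (4 * (d + 1)) = 4 ^ (d + 1) * (d + 3) + 4 ^ (d + 1) * (3 * d + 1) := by
            ring
          rw [h9]
          have h10 : 1 * (3 * d + 1) ≤ 4 ^ (d + 1) * (3 * d + 1) := Nat.mul_le_mul_right _ h8
          omega
        omega
    rcases le_total C₁ C with h5 | h5
    · exact (stab hM (d - m) C₁ C h4 h5 q).symm
    · exact stab hM (d - m) C C₁ (h3.trans (hTT.trans hCT)) h5 q
  · push Not at hn
    rw [GSP.qz_neg d hn]
    have h2 : (0 : ℤ) < 2 ^ t := by positivity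
    have hq : q ≤ 0 := by
      by_contra hq
      push Not at hq
      have h3 : (2 : ℤ) ^ t * 1 ≤ 2 ^ t * q := mul_le_mul_of_nonneg_left (by omega) h2.le
      have h4 := le_abs_self c
      rw [mul_one] at h3
      omega
    refine (GSP.RH_neg d c C hq fun h => ?_).symm
    subst h
    rw [mul_zero] at hn
    omega

end HGX
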