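import Pool.Agent.HGX.Stmts

/-!
# HGX, module KAM: Kameko's isomorphism in the stable range (helper63)
-/

namespace HGX

open HGP MvPolynomial
open Pool.Agent.Lib_helper74.Hit (hits qd Sq)

namespace KAM

theorem Qz_pos {σ : Type} {z : ℤ} (h : 0 ≤ z) : Qz σ z = (Hg σ z.toNat).map (hits σ).mkQ :=
  if_pos h

theorem Qz_neg {σ : Type} {z : ℤ} (h : ¬ 0 ≤ z) : Qz σ z = ⊥ := if_neg h

theorem finrank_Qz (k : ℕ) (z : ℤ) : Module.finrank (ZMod 2) (Qz (Fin k) z) = qz k z :=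
  CNT.finrank_TT k z

theorem finite_Qz (k : ℕ) (z : ℤ) : Module.Finite (ZMod 2) (Qz (Fin k) z) := CNT.finite_TT k z

/-- The extraction maps hits to hits. -/
theorem ex_hits (k : ℕ) : hits (Fin k) ≤ (hits (Fin k)).comap (ex (Fin k) 1) := by
  rw [hits, Submodule.span_le]
  rintro x ⟨κ, f, hκ, rfl⟩
  change ex (Fin k) 1 (Sq κ f) ∈ hits (Fin k)
  rw [← OPB.2.2.2.2.2.2.2.1 (Fin k) κ f, ← OPB.2.2.2.2.2.2.1 (Fin k) 1 0 κ f one_pos]
  rcases Nat.even_or_odd' κ with ⟨κ', rfl | rfl⟩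
  · have h1 : (Finsupp.single 0 (2 * κ') : ℕ →₀ ℕ) = 2 ^ 1 • Finsupp.single 0 κ' := by
      rw [pow_one, Finsupp.smul_single, smul_eq_mul]
    rw [h1, EXO.2 (Fin k) 1 1 (Finsupp.single 0 κ') f]
    refine HTS.1 (Fin k) 1 _ _ ?_
    intro h
    have := Finsupp.single_eq_zero.1 h
    omega
  · rw [EXO.1 (Fin k) 1 1 _ f ⟨0, ?_⟩]
    · exact Submodule.zero_mem _
    · rw [Finsupp.single_eq_same, pow_one]
      omega

/-- The extraction on `Q P`. -/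
noncomputable def eX (k : ℕ) : QS (Fin k) →ₗ[ZMod 2] QS (Fin k) :=
  (hits (Fin k)).mapQ (hits (Fin k)) (ex (Fin k) 1) (ex_hits k)

theorem eX_mk (k : ℕ) (f : PS (Fin k)) :
    eX k ((hits (Fin k)).mkQ f) = (hits (Fin k)).mkQ (ex (Fin k) 1 f) := rfl

theorem qs_mk {σ τ : Type} [DecidableEq σ] [Fintype τ] (A : WS σ →ₗ[ZMod 2] WS τ) (f : PS σ) :
    qs A ((hits σ).mkQ f) = (hits τ).mkQ (sb A f) := rfl

theorem eX_qs (k : ℕ) (A : WS (Fin k) ≃ₗ[ZMod 2] WS (Fin k)) (x : QS (Fin k)) :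
    eX k (qs A.toLinearMap x) = qs A.toLinearMap (eX k x) := by
  obtain ⟨f, rfl⟩ := (hits (Fin k)).mkQ_surjective x
  rw [qs_mk, eX_mk, eX_mk, qs_mk, EXE]

theorem qs_Qz (k : ℕ) (z : ℤ) (A : WS (Fin k) →ₗ[ZMod 2] WS (Fin k)) {x : QS (Fin k)}
    (hx : x ∈ Qz (Fin k) z) : qs A x ∈ Qz (Fin k) z := by
  by_cases h : 0 ≤ z
  · rw [Qz_pos h] at hx ⊢
    obtain ⟨f, hf, rfl⟩ := hx
    rw [qs_mk]
    exact ⟨_, SBB.2.2.2.1 (Fin k) (Fin k) A _ f hf, rfl⟩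
  · rw [Qz_neg h, Submodule.mem_bot] at hx ⊢
    rw [hx, map_zero]

theorem eX_Qz (k C : ℕ) (q : ℤ) {x : QS (Fin k)} (hx : x ∈ Qz (Fin k) (2 ^ (C + 1) * q - k)) :
    eX k x ∈ Qz (Fin k) (2 ^ C * q - k) := by
  by_cases h : 0 ≤ 2 ^ (C + 1) * q - (k : ℤ)
  · rw [Qz_pos h] at hx
    obtain ⟨f, hf, rfl⟩ := hx
    obtain ⟨n, hn⟩ := Int.eq_ofNat_of_zero_le h
    rw [hn, Int.toNat_natCast] at hf
    rw [eX_mk]
    by_cases h' : 0 ≤ 2 ^ C * q - (k : ℤ)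
    · obtain ⟨n', hn'⟩ := Int.eq_ofNat_of_zero_le h'
      rw [Qz_pos h', hn', Int.toNat_natCast]
      refine ⟨_, EXB.2.2.2.1 (Fin k) 1 n n' f hf ?_, rfl⟩
      rw [Fintype.card_fin]
      zify
      rw [pow_one]
      have h3 : (2 : ℤ) ^ (C + 1) * q = 2 * (2 ^ C * q) := by ring
      rw [h3] at hn
      linarith
    · rw [EXB.2.2.2.2.1 (Fin k) 1 n f hf, map_zero]
      · exact Submodule.zero_mem _
      · intro n' he
        rw [Fintype.card_fin] at he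
        zify at he
        rw [pow_one] at he
        have h3 : (2 : ℤ) ^ (C + 1) * q = 2 * (2 ^ C * q) := by ring
        rw [h3] at hn
        omega
  · rw [Qz_neg h, Submodule.mem_bot] at hx
    rw [hx, map_zero]
    exact Submodule.zero_mem _

theorem eX_surj (k C : ℕ) (q : ℤ) {y : QS (Fin k)} (hy : y ∈ Qz (Fin k) (2 ^ C * q - k)) :
    ∃ x ∈ Qz (Fin k) (2 ^ (C + 1) * q - k), eX k x = y := by
  by_cases h : 0 ≤ 2 ^ C * q - (k : ℤ)
  · rw [Qz_pos h] at hy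
    obtain ⟨g, hg, rfl⟩ := hy
    obtain ⟨n, hn⟩ := Int.eq_ofNat_of_zero_le h
    rw [hn, Int.toNat_natCast] at hg
    have h3 : (2 : ℤ) ^ (C + 1) * q - k = ((k + 2 * n : ℕ) : ℤ) := by
      have h4 : (2 : ℤ) ^ (C + 1) * q = 2 * (2 ^ C * q) := by ring
      rw [h4]
      push_cast
      linarith
    refine ⟨(hits (Fin k)).mkQ ((∏ i, X i) * g ^ 2), ?_, ?_⟩
    · rw [h3, Qz_pos (Int.natCast_nonneg _), Int.toNat_natCast]
      refine ⟨_, ?_, rfl⟩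
      have h5 : (∏ i : Fin k, (X i : PS (Fin k))).IsHomogeneous k := by
        have := IsHomogeneous.prod Finset.univ (fun i : Fin k => (X i : PS (Fin k)))
          (fun _ => 1) fun i _ => isHomogeneous_X _ _
        simpa using this
      have h6 : (g ^ 2).IsHomogeneous (n * 2) := IsHomogeneous.pow hg 2
      have h7 := h5.mul h6
      rw [mul_comm n 2] at h7
      exact h7
    · rw [eX_mk, EXB.2.2.2.2.2.2.1]
  · rw [Qz_neg h, Submodule.mem_bot] at hy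
    exact ⟨0, Submodule.zero_mem _, by rw [hy, map_zero]⟩

theorem dims (hM : P_MAE) (k C : ℕ) (hC : 4 ^ (k + 1) * (sz k + 3) ≤ C) (q : ℤ) :
    qz k (2 ^ (C + 1) * q - k) = qz k (2 ^ C * q - k) := by
  have hk : (k : ℤ) - k < 2 ^ 1 := by norm_num
  have h0 := hM k k 1 C hk (le_trans (Nat.mul_le_mul_left _ (by omega)) hC)
  by_cases hn : 0 ≤ 2 ^ (C + 1) * q - (k : ℤ)
  · obtain ⟨n, hn'⟩ := Int.eq_ofNat_of_zero_le hn
    have h1 := CNT k k 1 C hk h0 q n hn'.symm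
    rw [GSP.qz_nat k n hn'.symm, h1, GSP.RH_self]
  · push Not at hn
    rw [GSP.qz_neg k hn, GSP.qz_neg k]
    have h2 : (0 : ℤ) < 2 ^ C := by positivity
    rw [pow_succ] at hn
    rcases le_or_gt q 0 with hq | hq
    · have h3 : (2 : ℤ) ^ C * q ≤ 0 := mul_nonpos_of_nonneg_of_nonpos h2.le hq
      rcases Nat.eq_zero_or_pos k with hk0 | hk0
      · subst hk0
        have h4 : (2 : ℤ) ^ C * 2 * q = 2 * (2 ^ C * q) := by ring
        rw [h4] at hn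
        omega
      · omega
    · have h3 : (0 : ℤ) < 2 ^ C * q := mul_pos h2 hq
      have h4 : (2 : ℤ) ^ C * 2 * q = 2 * (2 ^ C * q) := by ring
      rw [h4] at hn
      omega

/-- The property. -/
def Good (k C C' : ℕ) (q : ℤ) : Prop :=
  ∃ κ : Qz (Fin k) (2 ^ C * q - k) ≃ₗ[ZMod 2] Qz (Fin k) (2 ^ C' * q - k),
    ∀ (A : WS (Fin k) ≃ₗ[ZMod 2] WS (Fin k)) (x y : Qz (Fin k) (2 ^ C * q - k)),
      (y : QS (Fin k)) = qs A.toLinearMap (x : QS (Fin k)) →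
        (κ y : QS (Fin k)) = qs A.toLinearMap (κ x : QS (Fin k))

theorem Good.refl (k C : ℕ) (q : ℤ) : Good k C C q :=
  ⟨LinearEquiv.refl _ _, fun _ _ _ h => h⟩

theorem Good.trans {k C C' C'' : ℕ} {q : ℤ} (h1 : Good k C C' q) (h2 : Good k C' C'' q) :
    Good k C C'' q := by
  obtain ⟨κ, hκ⟩ := h1
  obtain ⟨κ', hκ'⟩ := h2
  exact ⟨κ.trans κ', fun A x y h => hκ' A _ _ (hκ A x y h)⟩

theorem Good.symm {k C C' : ℕ} {q : ℤ} (h1 : Good k C C' q) : Good k C' C q := by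
  obtain ⟨κ, hκ⟩ := h1
  refine ⟨κ.symm, fun A x y h => ?_⟩
  obtain ⟨x, rfl⟩ := κ.surjective x
  have h2 : qs A.toLinearMap (x : QS (Fin k)) ∈ Qz (Fin k) (2 ^ C * q - k) :=
    qs_Qz k _ A.toLinearMap x.2
  have h3 := hκ A x ⟨_, h2⟩ rfl
  have h4 : κ ⟨_, h2⟩ = y := Subtype.ext (h3.trans h.symm)
  rw [← h4, LinearEquiv.symm_apply_apply, LinearEquiv.symm_apply_apply]

/-- The extraction between the two parts. -/
noncomputable def eR (k C : ℕ) (q : ℤ) :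
    Qz (Fin k) (2 ^ (C + 1) * q - k) →ₗ[ZMod 2] Qz (Fin k) (2 ^ C * q - k) :=
  (eX k).restrict fun _ hx => eX_Qz k C q hx

theorem eR_surj (k C : ℕ) (q : ℤ) : Function.Surjective (eR k C q) := by
  rintro ⟨y, hy⟩
  obtain ⟨x, hx, hxy⟩ := eX_surj k C q hy
  exact ⟨⟨x, hx⟩, Subtype.ext hxy⟩

theorem Good.step (hM : P_MAE) (k C : ℕ) (hC : 4 ^ (k + 1) * (sz k + 3) ≤ C) (q : ℤ) :
    Good k (C + 1) C q := by
  haveI := finite_Qz k (2 ^ (C + 1) * q - k)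
  haveI := finite_Qz k (2 ^ C * q - k)
  have h1 : Module.finrank (ZMod 2) (Qz (Fin k) (2 ^ (C + 1) * q - k)) =
      Module.finrank (ZMod 2) (Qz (Fin k) (2 ^ C * q - k)) := by
    rw [finrank_Qz, finrank_Qz, dims hM k C hC q]
  have h2 : Function.Injective (eR k C q) :=
    (LinearMap.injective_iff_surjective_of_finrank_eq_finrank h1).2 (eR_surj k C q)
  refine ⟨LinearEquiv.ofBijective (eR k C q) ⟨h2, eR_surj k C q⟩, fun A x y h => ?_⟩
  change eX k y = qs A.toLinearMap (eX k x)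
  rw [h, eX_qs]

theorem Good.base (hM : P_MAE) (k C₀ : ℕ) (hC : 4 ^ (k + 1) * (sz k + 3) ≤ C₀) (q : ℤ) (C : ℕ)
    (h : C₀ ≤ C) : Good k C C₀ q := by
  induction C, h using Nat.le_induction with
  | base => exact Good.refl _ _ _
  | succ C hCC ih => exact (Good.step hM k C (hC.trans hCC) q).trans ih

end KAM

theorem t_KAM : Stmt_KAM := by
  intro hM k C C' q h1 h2
  exact (KAM.Good.base hM k _ le_rfl q C h1).trans (KAM.Good.base hM k _ le_rfl q C' h2).symm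

end HGX
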