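import Pool.Agent.HGX.TDL
import Mathlib.RingTheory.Flat.Basic

/-!
# TRI: transport of the induced modules
-/

namespace HGX

open HGP MvPolynomial
open Pool.Agent.Lib_helper74.Hit (hits qd)
open scoped TensorProduct

namespace TRI

theorem qs_mem {k : ℕ} (A : WS (Fin k) ≃ₗ[ZMod 2] WS (Fin k)) (z : ℤ) :
    ∀ v ∈ Qz (Fin k) z, qs A.toLinearMap v ∈ Qz (Fin k) z := by
  intro v hv
  rcases TDL.mem_Qz hv with rfl | ⟨n, rfl, f, hf, rfl⟩
  · rw [map_zero]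
    exact Submodule.zero_mem _
  · rw [TDL.Qz_nat]
    exact ⟨sb A.toLinearMap f, SBB.2.2.2.1 _ _ _ n f hf, rfl⟩

/-- The action on one degree. -/
noncomputable def qr {k : ℕ} (A : WS (Fin k) ≃ₗ[ZMod 2] WS (Fin k)) (z : ℤ) :
    Qz (Fin k) z →ₗ[ZMod 2] Qz (Fin k) z :=
  (qs A.toLinearMap).restrict (qs_mem A z)

/-- The inclusion. -/
noncomputable def I (k m : ℕ) (a b : ℤ) :
    Qz (Fin k) a ⊗[ZMod 2] Qz (Fin m) b →ₗ[ZMod 2] QS (Fin k) ⊗[ZMod 2] QS (Fin m) :=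
  TensorProduct.map (Qz (Fin k) a).subtype (Qz (Fin m) b).subtype

theorem I_inj (k m : ℕ) (a b : ℤ) : Function.Injective (I k m a b) :=
  TensorProduct.map_injective_of_flat_flat _ _ (Submodule.subtype_injective _)
    (Submodule.subtype_injective _)

/-- The part of a bidegree is the tensor product of the parts. -/
noncomputable def IE (k m : ℕ) (a b : ℤ) :
    (Qz (Fin k) a ⊗[ZMod 2] Qz (Fin m) b) ≃ₗ[ZMod 2] Bd k m a b :=
  LinearEquiv.ofInjective (I k m a b) (I_inj k m a b)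

theorem IE_coe (k m : ℕ) (a b : ℤ) (x : Qz (Fin k) a ⊗[ZMod 2] Qz (Fin m) b) :
    ((IE k m a b x : Bd k m a b) : QS (Fin k) ⊗[ZMod 2] QS (Fin m)) = I k m a b x := rfl

theorem I_nat {k m : ℕ} (a b : ℤ) (A : WS (Fin k) ≃ₗ[ZMod 2] WS (Fin k))
    (D : WS (Fin m) ≃ₗ[ZMod 2] WS (Fin m)) (x : Qz (Fin k) a ⊗[ZMod 2] Qz (Fin m) b) :
    TensorProduct.map (qs A.toLinearMap) (qs D.toLinearMap) (I k m a b x) =
      I k m a b (TensorProduct.map (qr A a) (qr D b) x) := by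
  induction x using TensorProduct.induction_on with
  | zero => simp only [map_zero]
  | tmul u v =>
    unfold I
    rw [TensorProduct.map_tmul, TensorProduct.map_tmul, TensorProduct.map_tmul,
      TensorProduct.map_tmul]
    rfl
  | add x y hx hy => simp only [map_add, hx, hy]

/-- The transport of the bidegree part. -/
noncomputable def K {k m : ℕ} {a a' : ℤ} (b : ℤ) (κ : Qz (Fin k) a ≃ₗ[ZMod 2] Qz (Fin k) a') :
    Bd k m a b ≃ₗ[ZMod 2] Bd k m a' b :=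
  (IE k m a b).symm.trans ((TensorProduct.congr κ (LinearEquiv.refl (ZMod 2) _)).trans
    (IE k m a' b))

/-- The equivariance. -/
def Eq {k : ℕ} {a a' : ℤ} (κ : Qz (Fin k) a ≃ₗ[ZMod 2] Qz (Fin k) a') : Prop :=
  ∀ (A : WS (Fin k) ≃ₗ[ZMod 2] WS (Fin k)) (x y : Qz (Fin k) a),
      (y : QS (Fin k)) = qs A.toLinearMap (x : QS (Fin k)) →
        (κ y : QS (Fin k)) = qs A.toLinearMap (κ x : QS (Fin k))

theorem Eq.symm {k : ℕ} {a a' : ℤ} {κ : Qz (Fin k) a ≃ₗ[ZMod 2] Qz (Fin k) a'} (h : Eq κ) :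
    Eq κ.symm := by
  intro A x y hxy
  have h1 := h A (κ.symm x) (qr A a (κ.symm x)) rfl
  rw [κ.apply_symm_apply, ← hxy] at h1
  have h2 : κ (qr A a (κ.symm x)) = y := Subtype.ext h1
  rw [← h2, κ.symm_apply_apply]
  rfl

theorem Eq.qr {k : ℕ} {a a' : ℤ} {κ : Qz (Fin k) a ≃ₗ[ZMod 2] Qz (Fin k) a'} (h : Eq κ)
    (A : WS (Fin k) ≃ₗ[ZMod 2] WS (Fin k)) (x : Qz (Fin k) a) :
    κ (qr A a x) = qr A a' (κ x) :=
  Subtype.ext (h A x (TRI.qr A a x) rfl)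

theorem K_eq {k m : ℕ} {a a' b : ℤ} {κ : Qz (Fin k) a ≃ₗ[ZMod 2] Qz (Fin k) a'} (h : Eq κ)
    (A : WS (Fin k) ≃ₗ[ZMod 2] WS (Fin k)) (D : WS (Fin m) ≃ₗ[ZMod 2] WS (Fin m))
    (x y : Bd k m a b) (hxy : (y : QS (Fin k) ⊗[ZMod 2] QS (Fin m)) =
      TensorProduct.map (qs A.toLinearMap) (qs D.toLinearMap) x) :
    ((K b κ y : Bd k m a' b) : QS (Fin k) ⊗[ZMod 2] QS (Fin m)) =
      TensorProduct.map (qs A.toLinearMap) (qs D.toLinearMap) (K b κ x : Bd k m a' b) := by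
  obtain ⟨x0, rfl⟩ := (IE k m a b).surjective x
  obtain ⟨y0, rfl⟩ := (IE k m a b).surjective y
  rw [IE_coe, IE_coe, I_nat] at hxy
  have hy := I_inj k m a b hxy
  subst hy
  unfold K
  simp only [LinearEquiv.trans_apply, LinearEquiv.symm_apply_apply, IE_coe]
  rw [I_nat]
  congr 1
  induction x0 using TensorProduct.induction_on with
  | zero => simp only [map_zero]
  | tmul u v =>
    rw [TensorProduct.map_tmul, TensorProduct.congr_tmul, TensorProduct.congr_tmul,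
      TensorProduct.map_tmul, h.qr]
    rfl
  | add x y hx hy =>
    simp only [map_add]
    rw [hx rfl, hy rfl]

/-- The transport of the induced modules. -/
noncomputable def Ef (d : ℕ) {k : ℕ} (m : ℕ) {a a' : ℤ} (b : ℤ)
    (κ : Qz (Fin k) a ≃ₗ[ZMod 2] Qz (Fin k) a') (h : Eq κ) :
    Ind d k m a b →ₗ[ZMod 2] Ind d k m a' b where
  toFun φ := ⟨fun g => (K b κ ⟨φ.1 g, φ.2.1 g⟩ : Bd k m a' b), fun g => (K b κ ⟨φ.1 g, φ.2.1 g⟩).2,
    fun g f A D hb => K_eq h A D _ _ (φ.2.2 g f A D hb)⟩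
  map_add' φ ψ := by
    apply Subtype.ext
    funext g
    exact congrArg Subtype.val ((K b κ).map_add ⟨φ.1 g, φ.2.1 g⟩ ⟨ψ.1 g, ψ.2.1 g⟩)
  map_smul' r φ := by
    apply Subtype.ext
    funext g
    exact congrArg Subtype.val ((K b κ).map_smul r ⟨φ.1 g, φ.2.1 g⟩)

theorem K_symm {k m : ℕ} {a a' : ℤ} (b : ℤ) (κ : Qz (Fin k) a ≃ₗ[ZMod 2] Qz (Fin k) a')
    (x : Bd k m a b) : K b κ.symm (K b κ x) = x := by
  unfold K
  simp only [LinearEquiv.trans_apply, LinearEquiv.symm_apply_apply]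
  have h : TensorProduct.congr κ.symm (LinearEquiv.refl (ZMod 2) (Qz (Fin m) b)) =
      (TensorProduct.congr κ (LinearEquiv.refl (ZMod 2) (Qz (Fin m) b))).symm :=
    (TensorProduct.congr_symm κ (LinearEquiv.refl (ZMod 2) (Qz (Fin m) b))).symm
  rw [h, LinearEquiv.symm_apply_apply, LinearEquiv.apply_symm_apply]

theorem Ef_symm {d k m : ℕ} {a a' b : ℤ} (κ : Qz (Fin k) a ≃ₗ[ZMod 2] Qz (Fin k) a') (h : Eq κ)
    (h' : Eq κ.symm) (φ : Ind d k m a b) : Ef d m b κ.symm h' (Ef d m b κ h φ) = φ := by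
  apply Subtype.ext
  funext g
  exact congrArg Subtype.val (K_symm b κ ⟨φ.1 g, φ.2.1 g⟩)

end TRI

/-- TRI -/
theorem t_TRI : Stmt_TRI := by
  intro d k m a a' b κ h
  refine ⟨{ TRI.Ef d m b κ h with
    invFun := TRI.Ef d m b κ.symm (TRI.Eq.symm h)
    left_inv := TRI.Ef_symm κ h (TRI.Eq.symm h)
    right_inv := fun φ => TRI.Ef_symm κ.symm (TRI.Eq.symm h) h φ }, fun φ ψ g g' hg => ?_⟩
  have e : (⟨φ.1 g, φ.2.1 g⟩ : Bd k m a b) = ⟨ψ.1 g', ψ.2.1 g'⟩ := Subtype.ext hg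
  exact congrArg (fun x => ((TRI.K b κ x : Bd k m a' b) : QS (Fin k) ⊗[ZMod 2] QS (Fin m))) e

end HGX
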