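import Pool.Agent.HGX.DefsE
import Pool.Agent.HGX.EQV
import Pool.Agent.HGX.TRI
import Pool.Agent.HGX.KAM
import Pool.Agent.HGX.GSE

/-!
# The explicit isomorphism
-/

namespace HGX

open HGP MvPolynomial
open Pool.Agent.Lib_helper74.Hit (hits qd)
open scoped TensorProduct

namespace EXP

theorem Sp_mono (s k m : ℕ) (r : ℤ) (a : (Fin k ⊕ Fin m) →₀ ℕ) :
    Sp s k m r (monomial a 1) =
      if ((a.comapDomain Sum.inr Sum.inr_injective.injOn).degree : ℤ) = r then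
        (hits (Fin k)).mkQ (ex (Fin k) s
          (monomial (a.comapDomain Sum.inl Sum.inl_injective.injOn) 1)) ⊗ₜ[ZMod 2]
          (hits (Fin m)).mkQ (monomial (a.comapDomain Sum.inr Sum.inr_injective.injOn) 1)
      else 0 := by
  classical
  have h := (basisMonomials (Fin k ⊕ Fin m) (ZMod 2)).constr_basis (ZMod 2) (fun a =>
    if ((a.comapDomain Sum.inr Sum.inr_injective.injOn).degree : ℤ) = r then
      (hits (Fin k)).mkQ (ex (Fin k) s
        (monomial (a.comapDomain Sum.inl Sum.inl_injective.injOn) 1)) ⊗ₜ[ZMod 2]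
        (hits (Fin m)).mkQ (monomial (a.comapDomain Sum.inr Sum.inr_injective.injOn) 1)
    else 0) a
  rw [coe_basisMonomials] at h
  unfold Sp
  convert h

theorem ct_mono {k m : ℕ} (μ : PS (Fin m) →ₗ[ZMod 2] ZMod 2) (a : (Fin k ⊕ Fin m) →₀ ℕ) :
    ct μ (monomial a 1 : PS (Fin k ⊕ Fin m)) =
      monomial (a.comapDomain Sum.inl Sum.inl_injective.injOn)
        (μ (monomial (a.comapDomain Sum.inr Sum.inr_injective.injOn) 1)) := by
  have h := (basisMonomials (Fin k ⊕ Fin m) (ZMod 2)).constr_basis (ZMod 2)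
    (fun s => (monomial (s.comapDomain Sum.inl Sum.inl_injective.injOn)
      (μ (monomial (s.comapDomain Sum.inr Sum.inr_injective.injOn) 1)) : PS (Fin k))) a
  rw [coe_basisMonomials] at h
  exact h

theorem ev_Sp {c : ℤ} {k m : ℕ} (s : ℕ) (ν : QS (Fin m) →ₗ[ZMod 2] ZMod 2)
    (hν : Ad c k m (ν.comp (hits (Fin m)).mkQ)) (F : PS (Fin k ⊕ Fin m)) :
    ev k ν (Sp s k m ((k : ℤ) - c) F) =
      (hits (Fin k)).mkQ (ex (Fin k) s (ct (ν.comp (hits (Fin m)).mkQ) F)) := by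
  have h : (ev k ν).comp (Sp s k m ((k : ℤ) - c)) =
      ((hits (Fin k)).mkQ.comp (ex (Fin k) s)).comp (ct (ν.comp (hits (Fin m)).mkQ)) := by
    refine (basisMonomials (Fin k ⊕ Fin m) (ZMod 2)).ext fun a => ?_
    rw [coe_basisMonomials, LinearMap.comp_apply, LinearMap.comp_apply, LinearMap.comp_apply,
      Sp_mono, ct_mono]
    have e : ∀ x : ZMod 2, (monomial (a.comapDomain Sum.inl Sum.inl_injective.injOn) x : PS (Fin k)) =
        x • monomial (a.comapDomain Sum.inl Sum.inl_injective.injOn) 1 := by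
      intro x
      rw [smul_monomial, smul_eq_mul, mul_one]
    split_ifs with h1
    · rw [EQV.ev_tmul, e ((ν.comp (hits (Fin m)).mkQ)
        (monomial (a.comapDomain Sum.inr Sum.inr_injective.injOn) 1)), map_smul, map_smul]
      rfl
    · have h2 : (ν.comp (hits (Fin m)).mkQ)
          (monomial (a.comapDomain Sum.inr Sum.inr_injective.injOn) 1) = 0 :=
        hν.2 _ h1 _ (isHomogeneous_monomial 1 rfl)
      rw [h2, map_zero, map_zero, map_zero, map_zero]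
  exact LinearMap.congr_fun h F

theorem Sp_Bs (s k m : ℕ) (r : ℤ) (F : PS (Fin k ⊕ Fin m)) : Sp s k m r F ∈ Bs k m r := by
  have h : (⊤ : Submodule (ZMod 2) (PS (Fin k ⊕ Fin m))) ≤ (Bs k m r).comap (Sp s k m r) := by
    rw [← (basisMonomials (Fin k ⊕ Fin m) (ZMod 2)).span_eq, Submodule.span_le]
    rintro _ ⟨a, rfl⟩
    change Sp s k m r (basisMonomials (Fin k ⊕ Fin m) (ZMod 2) a) ∈ Bs k m r
    rw [coe_basisMonomials, Sp_mono]
    split_ifs with h1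
    · exact EQV.tmul_mem_Bs _ (EQV.mk_mem_Qz h1 (isHomogeneous_monomial 1 rfl))
    · exact Submodule.zero_mem _
  exact h (Submodule.mem_top : F ∈ ⊤)

theorem th_eq (hT : P_TDL) {d : ℕ} {c : ℤ} {t k m : ℕ} {θ : (WS (Fin d) ≃ₗ[ZMod 2] WS (Fin k ⊕ Fin m)) →
    (QS (Fin d) →ₗ[ZMod 2] QS (Fin k) ⊗[ZMod 2] QS (Fin m))} (hθ : IsTh d c t k m θ)
    (g : WS (Fin d) ≃ₗ[ZMod 2] WS (Fin k ⊕ Fin m)) (f : PS (Fin d)) :
    θ g ((hits (Fin d)).mkQ f) = Th t ((k : ℤ) - c) g f := by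
  refine EQV.ext_Bs hT (hθ g f).1 (Sp_Bs _ _ _ _ _) fun ν hν => ?_
  rw [(hθ g f).2 ν hν]
  exact (ev_Sp t ν hν _).symm

/-! ### the extraction -/

theorem ex_add (k j t : ℕ) (f : PS (Fin k)) :
    ex (Fin k) (t + j) f = ex (Fin k) j (ex (Fin k) t f) := by
  induction j with
  | zero => rw [add_zero, EXB.2.1]
  | succ j ih => rw [← add_assoc, EXB.2.2.1 (Fin k) (t + j) f, ih,
      EXB.2.2.1 (Fin k) j (ex (Fin k) t f)]

theorem eXp_mk (k j : ℕ) (f : PS (Fin k)) :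
    (KAM.eX k ^ j) ((hits (Fin k)).mkQ f) = (hits (Fin k)).mkQ (ex (Fin k) j f) := by
  induction j with
  | zero => rw [pow_zero, Module.End.one_apply, EXB.2.1]
  | succ j ih => rw [pow_succ', Module.End.mul_apply, ih, KAM.eX_mk, EXB.2.2.1 (Fin k) j f]

/-- Iterated Kameko isomorphism. -/
theorem kam (hM : P_MAE) (k C : ℕ) (hC : 4 ^ (k + 1) * (sz k + 3) ≤ C) (q : ℤ) (j : ℕ) :
    ∃ κ : Qz (Fin k) (2 ^ (C + j) * q - k) ≃ₗ[ZMod 2] Qz (Fin k) (2 ^ C * q - k),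
      (∀ x, (κ x : QS (Fin k)) = (KAM.eX k ^ j) (x : QS (Fin k))) ∧ TRI.Eq κ := by
  induction j with
  | zero =>
    exact ⟨LinearEquiv.refl _ _, fun x => by rw [pow_zero]; rfl, fun _ _ _ h => h⟩
  | succ j ih =>
    obtain ⟨κ, h1, h2⟩ := ih
    have := KAM.finite_Qz k (2 ^ (C + j + 1) * q - k)
    have := KAM.finite_Qz k (2 ^ (C + j) * q - k)
    have h3 : Module.finrank (ZMod 2) (Qz (Fin k) (2 ^ (C + j + 1) * q - k)) =
        Module.finrank (ZMod 2) (Qz (Fin k) (2 ^ (C + j) * q - k)) := by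
      rw [KAM.finrank_Qz, KAM.finrank_Qz, KAM.dims hM k (C + j) (by omega) q]
    have h4 : Function.Injective (KAM.eR k (C + j) q) :=
      (LinearMap.injective_iff_surjective_of_finrank_eq_finrank h3).2 (KAM.eR_surj k (C + j) q)
    refine ⟨(LinearEquiv.ofBijective (KAM.eR k (C + j) q) ⟨h4, KAM.eR_surj k (C + j) q⟩).trans κ,
      fun x => ?_, fun A x y h => ?_⟩
    · rw [LinearEquiv.trans_apply, h1, pow_succ (KAM.eX k) j, Module.End.mul_apply]
      rfl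
    · refine h2 A _ _ ?_
      change KAM.eX k y = qs A.toLinearMap (KAM.eX k x)
      rw [h, KAM.eX_qs]

/-! ### the transport -/

theorem K_map {k m : ℕ} {a a' : ℤ} (b : ℤ) (κ : Qz (Fin k) a ≃ₗ[ZMod 2] Qz (Fin k) a')
    (F : QS (Fin k) →ₗ[ZMod 2] QS (Fin k)) (hF : ∀ x, (κ x : QS (Fin k)) = F (x : QS (Fin k)))
    (y : Bd k m a b) : ((TRI.K b κ y : Bd k m a' b) : QS (Fin k) ⊗[ZMod 2] QS (Fin m)) =
      TensorProduct.map F LinearMap.id (y : QS (Fin k) ⊗[ZMod 2] QS (Fin m)) := by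
  obtain ⟨x, rfl⟩ := (TRI.IE k m a b).surjective y
  unfold TRI.K
  rw [LinearEquiv.trans_apply, LinearEquiv.trans_apply, LinearEquiv.symm_apply_apply, TRI.IE_coe,
    TRI.IE_coe]
  induction x using TensorProduct.induction_on with
  | zero => simp only [map_zero]
  | tmul u v =>
    unfold TRI.I
    rw [TensorProduct.congr_tmul, TensorProduct.map_tmul, TensorProduct.map_tmul,
      TensorProduct.map_tmul, Submodule.subtype_apply, hF]
    rfl
  | add x y hx hy => simp only [map_add, hx, hy]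

theorem map_Sp (t j k m : ℕ) (r : ℤ) (F : PS (Fin k ⊕ Fin m)) :
    TensorProduct.map (KAM.eX k ^ j) LinearMap.id (Sp t k m r F) = Sp (t + j) k m r F := by
  have h : (TensorProduct.map (KAM.eX k ^ j) LinearMap.id).comp (Sp t k m r) = Sp (t + j) k m r := by
    refine (basisMonomials (Fin k ⊕ Fin m) (ZMod 2)).ext fun a => ?_
    rw [coe_basisMonomials, LinearMap.comp_apply, Sp_mono, Sp_mono]
    split_ifs with h1
    · rw [TensorProduct.map_tmul, eXp_mk, ex_add]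
      rfl
    · rw [map_zero]
  exact LinearMap.congr_fun h F

/-- The isomorphism at one level, explicit. -/
theorem level (hTHT : P_THT) (hEQV : P_EQV) (hEIN : P_EIN) (hESU : P_ESU) (hT : P_TDL) (d : ℕ) (c : ℤ)
    (t C : ℕ) (hdc : (d : ℤ) - c < 2 ^ t) (hIS : ∀ q, Inj d c t C q ∧ Sur d c t C q)
    (hc : |c| < 2 ^ (C + t)) (q : ℤ) :
    ∃ e : Qz (Fin d) (2 ^ (C + t) * q - c) ≃ₗ[ZMod 2] ((m : Fin (d + 1)) →
      Ind d (d - (m : ℕ)) m (2 ^ C * q - ((d - (m : ℕ) : ℕ) : ℤ)) (((d - (m : ℕ) : ℕ) : ℤ) - c)),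
      ∀ (x : Qz (Fin d) (2 ^ (C + t) * q - c)) (f : PS (Fin d)),
        (x : QS (Fin d)) = (hits (Fin d)).mkQ f → ∀ m g,
          (e x m).1 g = Th t (((d - (m : ℕ) : ℕ) : ℤ) - c) g f := by
  have h1 : ∀ m : Fin (d + 1), ∃ θ, IsTh d c t (d - (m : ℕ)) m θ := fun m => hTHT _ _ _ _ _ hdc
  choose Θ hΘ using h1
  have hE := fun m : Fin (d + 1) => hEQV d c t (d - (m : ℕ)) m (Θ m) hdc (hΘ m)
  let Φ : Qz (Fin d) (2 ^ (C + t) * q - c) →ₗ[ZMod 2] ((m : Fin (d + 1)) →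
      Ind d (d - (m : ℕ)) m (2 ^ C * q - ((d - (m : ℕ) : ℕ) : ℤ))
        (((d - (m : ℕ) : ℕ) : ℤ) - c)) :=
    LinearMap.pi fun m => LinearMap.codRestrict _
      ((LinearMap.pi fun g => Θ m g).comp (Submodule.subtype _)) fun x =>
      ⟨fun g => (hE m).2.2 C q g x.1 x.2, fun g h A D hb => (hE m).1 g h A D x.1 hb⟩
  have hΦ : ∀ x m g, (Φ x m).1 g = Θ m g x.1 := fun _ _ _ => rfl
  have hinj : Function.Injective Φ := by
    rw [injective_iff_map_eq_zero]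
    intro x hx
    apply Subtype.ext
    refine hEIN d c t C Θ hdc hΘ hIS q x.1 x.2 fun m g => ?_
    rw [← hΦ, hx]
    rfl
  have hsurj : Function.Surjective Φ := by
    intro φ
    obtain ⟨x, hx, h2⟩ := hESU d c t C Θ hdc hΘ hIS hc q φ
    refine ⟨⟨x, hx⟩, ?_⟩
    funext m
    apply Subtype.ext
    funext g
    rw [hΦ]
    exact h2 m g
  refine ⟨LinearEquiv.ofBijective Φ ⟨hinj, hsurj⟩, fun x f hf m g => ?_⟩
  change (Φ x m).1 g = _
  rw [hΦ, hf, th_eq hT (hΘ m)]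

/-- The substitution and the explicit map. -/
theorem Th_sb {d k m : ℕ} (s : ℕ) (r : ℤ) (A : WS (Fin d) ≃ₗ[ZMod 2] WS (Fin d))
    (g : WS (Fin d) ≃ₗ[ZMod 2] WS (Fin k ⊕ Fin m)) (f : PS (Fin d)) :
    Th s r g (sb A.toLinearMap f) = Th s r (A.trans g) f := by
  unfold Th
  rw [LinearMap.comp_apply, LinearMap.comp_apply]
  congr 1
  exact SBB.2.1 _ _ _ A.toLinearMap g.toLinearMap f

/-- The explicit isomorphism. -/
theorem expl (hM : P_MAE) (hTHT : P_THT) (hEQV : P_EQV) (hEIN : P_EIN) (hESU : P_ESU) (hT : P_TDL)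
    (d : ℕ) (c : ℤ) (s C : ℕ) (hs : sz c + d ≤ s) (hC : SS d c ≤ C) (q : ℤ) :
    ∃ e : Qz (Fin d) (2 ^ (C + s) * q - c) ≃ₗ[ZMod 2] ((m : Fin (d + 1)) →
      Ind d (d - (m : ℕ)) m (2 ^ C * q - ((d - (m : ℕ) : ℕ) : ℤ)) (((d - (m : ℕ) : ℕ) : ℤ) - c)),
      ∀ (x : Qz (Fin d) (2 ^ (C + s) * q - c)) (f : PS (Fin d)),
        (x : QS (Fin d)) = (hits (Fin d)).mkQ f → ∀ m g,
          (e x m).1 g = Th s (((d - (m : ℕ) : ℕ) : ℤ) - c) g f := by
  obtain ⟨j, rfl⟩ := Nat.exists_eq_add_of_le' hs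
  have hdef : SS d c = 4 ^ (d + 1) * (2 * sz c + d + 3) := rfl
  have h0 := hM d c (sz c + d) (C + j) (GSE.lt_t0 d c) (by
    have h1 : 4 ^ (d + 1) * (sz c + d + sz c + 2) ≤ SS d c := Nat.mul_le_mul_left _ (by omega)
    omega)
  have hcl : |c| < 2 ^ (C + j + (sz c + d)) :=
    (GSE.abs_lt c).trans_le (pow_le_pow_right₀ (by norm_num) (by omega))
  rw [← add_assoc C j (sz c + d)]
  obtain ⟨e, he⟩ := level hTHT hEQV hEIN hESU hT d c (sz c + d) (C + j) (GSE.lt_t0 d c) h0 hcl q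
  have hE : ∀ m : Fin (d + 1), ∃ E : Ind d (d - (m : ℕ)) m
      (2 ^ (C + j) * q - ((d - (m : ℕ) : ℕ) : ℤ)) (((d - (m : ℕ) : ℕ) : ℤ) - c) ≃ₗ[ZMod 2]
      Ind d (d - (m : ℕ)) m (2 ^ C * q - ((d - (m : ℕ) : ℕ) : ℤ)) (((d - (m : ℕ) : ℕ) : ℤ) - c),
      ∀ φ g, (E φ).1 g = TensorProduct.map (KAM.eX (d - (m : ℕ)) ^ j) LinearMap.id (φ.1 g) := by
    intro m
    have h3 : 4 ^ (d - (m : ℕ) + 1) * (sz ((d - (m : ℕ) : ℕ) : ℤ) + 3) ≤ C := by
      refine le_trans (le_trans (Nat.mul_le_mul (Nat.pow_le_pow_right (by norm_num)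
        (by omega : d - (m : ℕ) + 1 ≤ d + 1)) ?_) hdef.ge) hC
      have := GSE.sz_nat_le (d - (m : ℕ))
      omega
    obtain ⟨κ, h1, h2⟩ := kam hM (d - (m : ℕ)) C h3 q j
    refine ⟨{ TRI.Ef d m _ κ h2 with
      invFun := TRI.Ef d m _ κ.symm (TRI.Eq.symm h2)
      left_inv := TRI.Ef_symm κ h2 (TRI.Eq.symm h2)
      right_inv := fun φ => TRI.Ef_symm κ.symm (TRI.Eq.symm h2) h2 φ }, fun φ g => ?_⟩
    exact K_map _ κ _ h1 _
  choose E hE using hE
  refine ⟨e.trans (LinearEquiv.piCongrRight E), fun x f hf m g => ?_⟩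
  have h4 : ((e.trans (LinearEquiv.piCongrRight E)) x m).1 g = (E m (e x m)).1 g := rfl
  rw [h4, hE, he x f hf]
  unfold Th
  rw [LinearMap.comp_apply, LinearMap.comp_apply, map_Sp, add_comm j (sz c + d)]

end EXP

end HGX
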