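import Pool.Agent.HGX.Stmts

/-!
# FSE: from one level to all larger ones, explicit bound
-/

namespace HGX

open HGP MvPolynomial

theorem t_FSE : Stmt_FSE := by
  intro d c t C β hb hIS C' hC' q
  have ha : (2 : ℤ) ^ β < 2 ^ (β + 1) := pow_lt_pow_right₀ (by norm_num) (Nat.lt_succ_self β)
  obtain ⟨e, rfl⟩ := Nat.exists_eq_add_of_le (show C ≤ C' by omega)
  have he : β + 1 + 1 ≤ e := by omega
  rcases le_or_gt q 0 with hq | hq
  · exact QZR.1 d c t (C + e) q hb hq
  have hq1 : 1 ≤ q := hq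
  have hqB : (2 : ℤ) ^ β < 2 ^ e * q := by
    have h1 : (2 : ℤ) ^ (β + 1) ≤ 2 ^ e := pow_le_pow_right₀ (by norm_num) (by omega)
    have h4 : (2 : ℤ) ^ e * 1 ≤ 2 ^ e * q := mul_le_mul_of_nonneg_left hq1 (by positivity)
    rw [mul_one] at h4
    linarith
  have hE1 : ∀ x : ℤ, (2 : ℤ) ^ (C + e + t) * q - x = 2 ^ (C + t) * (2 ^ e * q) - x := by
    intro x
    rw [pow_add, pow_add, pow_add]
    ring
  have hE2 : ∀ x : ℤ, (2 : ℤ) ^ (C + e) * q - x = 2 ^ C * (2 ^ e * q) - x := by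
    intro x
    rw [pow_add]
    ring
  constructor
  · intro n hn f hf hKK
    rw [hE1] at hn
    have hShf := FST.shf QZR hb (fun q' hq' => (hIS q' hq').2) ha he hq1
    have h1 := DET d c t C (2 ^ e * q) (JA C (C + e)) hb (hIS _ hqB).1 hShf n f hn hf ?_
    · exact FST.up_le NNB (by omega) h1
    · intro k m n' g μ hμ hn'
      have h2 : pj t g μ f ∈ NN (Fin k) (C + e) := hKK k m g μ hμ
      by_cases hk : (k : ℤ) - c < 0
      · rw [FST.pj_zero PJB g μ hμ hf hk]
        exact Submodule.zero_mem _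
      · rw [not_lt] at hk
        obtain ⟨r, hr⟩ := Int.eq_ofNat_of_zero_le hk
        have h3 : n + k = 2 ^ t * (n' + k) + r := by
          have h4 : ((n + k : ℕ) : ℤ) = ((2 ^ t * (n' + k) + r : ℕ) : ℤ) := by
            push_cast
            rw [hn, hn', pow_add]
            have h5 : (r : ℤ) = k - c := hr.symm
            rw [h5]
            ring
          exact_mod_cast h4
        have h4 : pj t g μ f ∈ Hg (Fin k) n' :=
          PJB.2.2.2.1 d c t k m n n' r g μ hμ f hf hr.symm h3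
        exact FST.split NNB k n' (GEN (Fin k) (C + e) n' _ (by omega) h4 h2)
  · intro n k m n' r g hn hn' hr u hu ν hν
    rw [hE1] at hn
    rw [hE2] at hn'
    obtain ⟨f, h1, h2, h3⟩ := (hIS _ hqB).2 n k m n' r g hn hn' hr u hu ν hν
    refine ⟨f, h1, ?_, ?_⟩
    · intro μ hμ
      exact NNB.2.1 _ _ _ (by omega) (h2 μ hμ)
    · intro k' m' g' μ' hμ' hne
      exact NNB.2.1 _ _ _ (by omega) (h3 k' m' g' μ' hμ' hne)

end HGX
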