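import Pool.Agent.HGP.Main

/-!
# The hit problem: the proved statements of the first part (HGP), as theorems
-/

namespace HGX

open HGP

theorem OPB : P_OPB := t_OPB
theorem SBB : P_SBB := t_SBB
theorem NNB : P_NNB := t_NNB OPB
theorem CMC : P_CMC := t_CMC OPB
theorem CCA : P_CCA := t_CCA
theorem CCB : P_CCB := t_CCB
theorem CO1 : P_CO1 := t_CO1 OPB CMC CCA CCB
theorem CO2 : P_CO2 := t_CO2 OPB CMC CCA CCB
theorem GEN : P_GEN := t_GEN OPB NNB CO1 CO2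
theorem HTS : P_HTS := t_HTS OPB NNB GEN
theorem NRM : P_NRM := t_NRM OPB NNB GEN
theorem EXB : P_EXB := t_EXB
theorem EXE : P_EXE := t_EXE SBB EXB
theorem EXO : P_EXO := t_EXO OPB EXB
theorem CTB : P_CTB := t_CTB OPB HTS
theorem LIN : P_LIN := t_LIN
theorem PJB : P_PJB := t_PJB OPB NNB SBB LIN EXB EXO CTB
theorem PJE : P_PJE := t_PJE EXB CTB
theorem UNI : P_UNI := t_UNI SBB EXB EXE CTB
theorem FKS : P_FKS := t_FKS
theorem LO1 : P_LO1 := t_LO1 OPB NNB FKS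
theorem CFX : P_CFX := t_CFX OPB EXO
theorem LO2 : P_LO2 := t_LO2 OPB NNB LO1 CFX
theorem RES : P_RES := t_RES SBB LIN
theorem KR1 : P_KR1 := t_KR1 NNB SBB LIN PJE CFX LO2 RES
theorem TRN : P_TRN := t_TRN NNB SBB EXE CTB
theorem CK1 : P_CK1 := t_CK1 OPB NNB SBB LIN PJB PJE UNI LO1 LO2 RES TRN
theorem CK2 : P_CK2 := t_CK2 SBB LIN RES TRN CK1
theorem QZR : P_QZR := t_QZR NNB SBB HTS EXB CTB LIN PJB
theorem DUB : P_DUB := t_DUB
theorem LFG : P_LFG := t_LFG NNB NRM PJB TRN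
theorem DET : P_DET := t_DET NNB SBB LIN PJB UNI DUB LFG
theorem CNT : P_CNT := t_CNT OPB NNB SBB HTS LIN PJB UNI DUB DET
theorem VNI : P_VNI := t_VNI

end HGX
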