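import Pool.Agent.HGX.Main

/-!
# The hit problem: the explicit, equivariant gap splitting, in the form of the statement
-/

namespace HGX

open HGP MvPolynomial
open Pool.Agent.Lib_helper74.Hit (hits qd)
open scoped TensorProduct

namespace FIN

theorem Qd_eq (σ : Type) (z : ℤ) : (Qd σ z : Submodule (ZMod 2) (PS σ ⧸ hits σ)) = Qz σ z := rfl

theorem QQd_eq (k m : ℕ) (a b : ℤ) :
    (QQd k m a b : Submodule (ZMod 2) (QS (Fin k) ⊗[ZMod 2] QS (Fin m))) = Bd k m a b := by
  apply le_antisymm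
  · refine Submodule.span_le.2 ?_
    rintro _ ⟨x, hx, y, hy, rfl⟩
    exact EQV.tmul_mem_Bd hx hy
  · rintro _ ⟨y, rfl⟩
    induction y using TensorProduct.induction_on with
    | zero =>
      rw [map_zero]
      exact Submodule.zero_mem _
    | tmul u v => exact Submodule.subset_span ⟨u.1, u.2, v.1, v.2, rfl⟩
    | add x y hx hy =>
      rw [map_add]
      exact Submodule.add_mem _ hx hy

theorem Par_iff {k m : ℕ} (h : WS (Fin k ⊕ Fin m) ≃ₗ[ZMod 2] WS (Fin k ⊕ Fin m)) (A : GLn k)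
    (D : GLn m) : Par h A D ↔ Blk h A D := by
  unfold Par Blk
  exact and_congr_left' (forall_congr' fun u => funext_iff.symm)

theorem Ind_iff (d k m : ℕ) (a b : ℤ) (φ : Fr d k m → QQ k m) :
    IsInd d k m a b φ ↔ (φ : (WS (Fin d) ≃ₗ[ZMod 2] WS (Fin k ⊕ Fin m)) →
      QS (Fin k) ⊗[ZMod 2] QS (Fin m)) ∈ Ind d k m a b := by
  refine and_congr ?_ ?_
  · rw [QQd_eq]
    rfl
  · refine forall_congr' fun g => forall_congr' fun h => forall_congr' fun A => forall_congr' fun D => ?_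
    rw [Par_iff]
    rfl

theorem Te_eq (s : ℕ) (r : ℤ) {d k m : ℕ} (g : Fr d k m) (f : PS (Fin d)) :
    Te s r g f = Th s r g f := by
  unfold Te Th
  rw [LinearMap.comp_apply]
  change _ = Sp s k m r (sb g.toLinearMap f)
  generalize sb g.toLinearMap f = F
  conv_rhs => rw [F.as_sum, map_sum]
  refine Finset.sum_congr rfl fun a ha => ?_
  have h1 : coeff a F = 1 := by
    have h2 : coeff a F ≠ 0 := mem_support_iff.1 ha
    generalize coeff a F = x at h2
    revert x
    decide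
  rw [h1, EXP.Sp_mono]
  rfl

end FIN

/-- The explicit isomorphism, in the form of the statement. -/
theorem isoF (d : ℕ) (c : ℤ) (s C : ℕ) (hs : sz c + d ≤ s) (hC : SS d c ≤ C) (q : ℤ) :
    ∃ e : Src d c s C q ≃ Tgt d c C q, Adds e ∧ Commutes e ∧ ByTe e := by
  obtain ⟨e, h1, h2⟩ := iso d c s C hs hC q
  let E : ((m : Fin (d + 1)) → Ind d (d - (m : ℕ)) m (2 ^ C * q - ((d - (m : ℕ) : ℕ) : ℤ))
      (((d - (m : ℕ) : ℕ) : ℤ) - c)) ≃ Tgt d c C q :=
    { toFun := fun φ => ⟨fun m => (φ m).1, fun m => (FIN.Ind_iff _ _ _ _ _ _).2 (φ m).2⟩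
      invFun := fun ψ m => ⟨ψ.1 m, (FIN.Ind_iff _ _ _ _ _ _).1 (ψ.2 m)⟩
      left_inv := fun _ => rfl
      right_inv := fun _ => rfl }
  let e' : Src d c s C q ≃ Tgt d c C q := e.toEquiv.trans E
  have he : ∀ (x : Src d c s C q) m g, (e' x).1 m g = (e x m).1 g := fun _ _ _ => rfl
  refine ⟨e', fun x y m g => ?_, fun A x y hxy m g => ?_, fun x f hf m g => ?_⟩
  · refine (he (x + y) m g).trans ?_
    exact congrFun (congrArg Subtype.val (congrFun (map_add e x y) m)) g
  · exact (he y m g).trans ((h2 A x y hxy m g).trans (he x m (A.trans g)).symm)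
  · exact (he x m g).trans ((h1 x f hf m g).trans (FIN.Te_eq s _ g f).symm)

end HGX
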