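import Pool.Agent.HGX.Stmts

/-!
# GAE: the explicit covering of the degrees
-/

namespace HGX

open HGP MvPolynomial
open Pool.Agent.Lib_helper74.Hit (hits qd)

namespace GAE

theorem sz_le {r : ℤ} {l : ℕ} (h : |r| < 2 ^ l) : sz r ≤ l := by
  unfold sz
  rw [Nat.size_le]
  rw [Int.abs_eq_natAbs] at h
  exact_mod_cast h

theorem arith1 (d l : ℕ) : 4 ^ (d + 2) * (l + d + 1) + 1 + d + 1 ≤ 4 ^ (d + 3) * (l + d + 1) := by
  have h1 : 1 ≤ 4 ^ (d + 2) := Nat.one_le_pow _ _ (by norm_num)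
  have e : 4 ^ (d + 3) * (l + d + 1) = 4 ^ (d + 2) * (l + d + 1) + 4 ^ (d + 2) * (3 * (l + d + 1)) := by
    rw [pow_succ 4 (d + 2)]
    ring
  have h2 : 1 * (3 * (l + d + 1)) ≤ 4 ^ (d + 2) * (3 * (l + d + 1)) := Nat.mul_le_mul_right _ h1
  omega

theorem gap (d : ℕ) : ∀ (D l : ℕ) (x r : ℤ) (N : ℕ), |r| < 2 ^ l → x + r = N → HB.al N ≤ D →
    ∃ (c : ℤ) (t L : ℕ), |c| < 2 ^ L ∧ TT d c < t ∧ t ≤ 4 ^ (d + 2) * (L + d + 1) + 1 ∧
      (2 : ℤ) ^ t ∣ x + c ∧ L + d + 1 ≤ 4 ^ ((d + 3) * D) * (l + d + 1) := by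
  intro D
  induction D with
  | zero =>
    intro l x r N hr hx hN
    have hT : TT d r ≤ 4 ^ (d + 2) * (l + d + 1) := by
      unfold TT
      exact Nat.mul_le_mul_left _ (by have := sz_le hr; omega)
    by_cases hd : 2 ^ (4 ^ (d + 2) * (l + d + 1) + 1) ∣ N
    · refine ⟨r, 4 ^ (d + 2) * (l + d + 1) + 1, l, hr, by omega, le_rfl, ?_, ?_⟩
      · rw [hx]
        exact_mod_cast hd
      · rw [mul_zero, pow_zero, one_mul]
    · obtain ⟨f, N', -, -, h⟩ := GAP.split (4 ^ (d + 2) * (l + d + 1)) N hd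
      omega
  | succ D ih =>
    intro l x r N hr hx hN
    have hT : TT d r ≤ 4 ^ (d + 2) * (l + d + 1) := by
      unfold TT
      exact Nat.mul_le_mul_left _ (by have := sz_le hr; omega)
    by_cases hd : 2 ^ (4 ^ (d + 2) * (l + d + 1) + 1) ∣ N
    · refine ⟨r, 4 ^ (d + 2) * (l + d + 1) + 1, l, hr, by omega, le_rfl, ?_, ?_⟩
      · rw [hx]
        exact_mod_cast hd
      · exact Nat.le_mul_of_pos_left _ (by positivity)
    · obtain ⟨f, N', hf, hN', h⟩ := GAP.split (4 ^ (d + 2) * (l + d + 1)) N hd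
      have hl : l ≤ 4 ^ (d + 2) * (l + d + 1) := by
        have h1 : 1 ≤ 4 ^ (d + 2) := Nat.one_le_pow _ _ (by norm_num)
        have h2 : 1 * (l + d + 1) ≤ 4 ^ (d + 2) * (l + d + 1) := Nat.mul_le_mul_right _ h1
        omega
      obtain ⟨c, t, L, h1, h2, h3, h4, h5⟩ := ih (4 ^ (d + 2) * (l + d + 1) + 1) x (r - 2 ^ f) N' (by
        have h5 : (2 : ℤ) ^ f ≤ 2 ^ (4 ^ (d + 2) * (l + d + 1)) := pow_le_pow_right₀ (by norm_num) hf
        have h6 : (0 : ℤ) < 2 ^ f := by positivity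
        have h7 := abs_lt.1 hr
        have h8 : (2 : ℤ) ^ l ≤ 2 ^ (4 ^ (d + 2) * (l + d + 1)) := pow_le_pow_right₀ (by norm_num) hl
        rw [pow_succ, abs_lt]
        constructor <;> linarith [h7.1, h7.2]) (by
        rw [hN'] at hx
        push_cast at hx
        linarith) (by omega)
      refine ⟨c, t, L, h1, h2, h3, h4, h5.trans ?_⟩
      have e : 4 ^ ((d + 3) * (D + 1)) * (l + d + 1) =
          4 ^ ((d + 3) * D) * (4 ^ (d + 3) * (l + d + 1)) := by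
        rw [← mul_assoc, ← pow_add, mul_add (d + 3) D 1, mul_one]
      rw [e]
      exact Nat.mul_le_mul_left _ (arith1 d l)

theorem arith2 (d L : ℕ) (h : L + d + 1 ≤ 4 ^ ((d + 3) * d) * (d + 2 + d + 1)) :
    4 ^ (d + 2) * (L + d + 1) + 1 ≤ 4 ^ ((d + 3) ^ 2) := by
  have e : (d + 3) ^ 2 = (d + 3) * d + ((d + 2) + (2 * d + 7)) := by ring
  rw [e, pow_add 4 ((d + 3) * d) (d + 2 + (2 * d + 7)), pow_add 4 (d + 2) (2 * d + 7)]
  have h2 : 0 < 4 ^ ((d + 3) * d) := by positivity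
  have h3 : 0 < 4 ^ (d + 2) := by positivity
  have h4 : 2 * d + 7 < 4 ^ (2 * d + 7) := Nat.lt_pow_self (by norm_num)
  generalize 4 ^ ((d + 3) * d) = P at *
  generalize 4 ^ (d + 2) = R at *
  generalize 4 ^ (2 * d + 7) = S at *
  have h5 : P * (R * (d + 2 + d + 1 + 1)) ≤ P * (R * S) :=
    Nat.mul_le_mul_left _ (Nat.mul_le_mul_left _ (by omega))
  have h6 : R * (L + d + 1) ≤ R * (P * (d + 2 + d + 1)) := Nat.mul_le_mul_left _ h
  have h7 : 1 ≤ P * R := Nat.mul_pos h2 h3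
  calc R * (L + d + 1) + 1 ≤ R * (P * (d + 2 + d + 1)) + P * R := Nat.add_le_add h6 h7
    _ = P * (R * (d + 2 + d + 1 + 1)) := by ring
    _ ≤ P * (R * S) := h5

end GAE

/-- GAE -/
theorem t_GAE : Stmt_GAE := by
  intro d n hn
  obtain ⟨r, N, hr, hx, hN⟩ := VNI d n hn
  have hr' : |r| < 2 ^ (d + 2) := by
    refine lt_of_le_of_lt hr ?_
    have h1 : (d : ℤ) < 2 ^ d := by exact_mod_cast Nat.lt_two_pow_self
    have e : (2 : ℤ) ^ (d + 2) = 2 ^ (d + 1) + 2 * 2 ^ d := by ring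
    have h2 : (0 : ℤ) < 2 ^ d := by positivity
    rw [e]
    linarith
  obtain ⟨c, t, L, h1, h2, h3, ⟨q, hq⟩, h5⟩ := GAE.gap d d (d + 2) n r N hr' hx hN
  have h6 := GAE.arith2 d L h5
  refine ⟨c, q, t, h1.trans_le ?_, h2, h3.trans h6, by linarith⟩
  refine pow_le_pow_right₀ (by norm_num) ?_
  have h7 : 1 ≤ 4 ^ (d + 2) := Nat.one_le_pow _ _ (by norm_num)
  have h8 : 1 * (L + d + 1) ≤ 4 ^ (d + 2) * (L + d + 1) := Nat.mul_le_mul_right _ h7
  omega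

end HGX
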