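import Pool.Agent.HGX.Stmts

/-! # GK1: exactness of the Koszul complex modulo `NN`, first step -/

namespace HGX

open HGP MvPolynomial

namespace GK1

/-- A homogeneous polynomial of positive degree is a combination of the variables. -/
theorem lin {k n : ℕ} (r : PS (Fin k)) (hr : r ∈ Hg (Fin k) (n + 1)) :
    ∃ w : Fin k → PS (Fin k), (∀ j, w j ∈ Hg (Fin k) n) ∧ r = ∑ j, X j * w j := by
  have h1 : ∀ s ∈ r.support, ∃ w : Fin k → PS (Fin k), (∀ j, w j ∈ Hg (Fin k) n) ∧
      monomial s (coeff s r) = ∑ j, X j * w j := by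
    intro s hs
    have hd : s.degree = n + 1 := by
      have h2 : r.IsHomogeneous (n + 1) := hr
      have h3 := h2 (mem_support_iff.1 hs)
      rw [Finsupp.degree_eq_weight_one]
      exact h3
    have hj : ∃ j, s j ≠ 0 := by
      by_contra hcon
      push Not at hcon
      have h4 : s = 0 := Finsupp.ext hcon
      rw [h4, map_zero] at hd
      omega
    obtain ⟨j, hj⟩ := hj
    have h5 : Finsupp.single j 1 + (s - Finsupp.single j 1) = s := by
      rw [add_comm]
      apply tsub_add_cancel_of_le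
      rw [Finsupp.single_le_iff]
      omega
    refine ⟨Pi.single j (monomial (s - Finsupp.single j 1) (coeff s r)), ?_, ?_⟩
    · intro i
      by_cases hi : i = j
      · subst hi
        rw [Pi.single_eq_same]
        refine isHomogeneous_monomial _ ?_
        have h6 := congrArg Finsupp.degree h5
        rw [map_add, hd, Finsupp.degree_single] at h6
        omega
      · rw [Pi.single_eq_of_ne hi]
        exact Submodule.zero_mem _
    · rw [Finset.sum_eq_single j]
      · rw [Pi.single_eq_same, X, monomial_mul, one_mul, h5]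
      · intro i _ hi
        rw [Pi.single_eq_of_ne hi, mul_zero]
      · intro h
        exact absurd (Finset.mem_univ _) h
  choose! w hw1 hw2 using h1
  refine ⟨fun j => ∑ s ∈ r.support, w s j, fun j => Submodule.sum_mem _ fun s hs => hw1 s hs j, ?_⟩
  conv_lhs => rw [r.as_sum]
  rw [Finset.sum_congr rfl hw2, Finset.sum_comm]
  exact Finset.sum_congr rfl fun j _ => (Finset.mul_sum _ _ _).symm

/-- The span of the bounded generators. -/
theorem cov {k C a : ℕ} (ha : k * 2 ^ C + 2 ^ (2 * C + k) < a + 2 * 2 ^ C) (x : PS (Fin k))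
    (hx : x ∈ Submodule.span (ZMod 2) (BG k C (a + 2 * 2 ^ C))) :
    ∃ w : Fin k → PS (Fin k), (∀ j, w j ∈ NN (Fin k) C ∧ w j ∈ Hg (Fin k) (a + 2 ^ C)) ∧
      x = ∑ j, (X j : PS (Fin k)) ^ 2 ^ C * w j := by
  induction hx using Submodule.span_induction with
  | mem x hx =>
    obtain ⟨a', b, r, ν, hr, hν, hN, hb, hab, rfl⟩ := hx
    obtain ⟨n, rfl⟩ : ∃ n, a' = n + 1 := by
      refine ⟨a' - 1, ?_⟩
      rcases Nat.eq_zero_or_pos a' with h | h
      · subst h
        omega
      · omega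
    obtain ⟨w, hw, rfl⟩ := lin r hr
    refine ⟨fun j => w j ^ 2 ^ C * ν, fun j => ⟨NNB.1 _ _ _ _ hN, ?_⟩, ?_⟩
    · have h1 : (w j).IsHomogeneous n := hw j
      have h2 : ν.IsHomogeneous b := hν
      have h3 : (w j ^ 2 ^ C * ν).IsHomogeneous (n * 2 ^ C + b) := (h1.pow _).mul h2
      have h4 : n * 2 ^ C + b = a + 2 ^ C := by
        rw [add_mul, one_mul] at hab
        omega
      rw [h4] at h3
      exact h3
    · rw [sum_pow_char_pow, Finset.sum_mul]
      exact Finset.sum_congr rfl fun j _ => by rw [mul_pow, mul_assoc]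
  | zero => exact ⟨0, fun j => ⟨Submodule.zero_mem _, Submodule.zero_mem _⟩, by simp⟩
  | add x y _ _ hx hy =>
    obtain ⟨w, hw, rfl⟩ := hx
    obtain ⟨w', hw', rfl⟩ := hy
    refine ⟨w + w', fun j => ⟨Submodule.add_mem _ (hw j).1 (hw' j).1,
      Submodule.add_mem _ (hw j).2 (hw' j).2⟩, ?_⟩
    rw [← Finset.sum_add_distrib]
    exact Finset.sum_congr rfl fun j _ => by rw [Pi.add_apply, mul_add]
  | smul c x _ hx =>
    obtain ⟨w, hw, rfl⟩ := hx
    refine ⟨c • w, fun j => ⟨Submodule.smul_mem _ _ (hw j).1, Submodule.smul_mem _ _ (hw j).2⟩, ?_⟩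
    rw [Finset.smul_sum]
    exact Finset.sum_congr rfl fun j _ => by rw [Pi.smul_apply, mul_smul_comm]

end GK1

theorem t_GK1 : Stmt_GK1 := by
  intro hB hK k C a u ha hu hs
  have h1 : ∑ j, (X j : PS (Fin k)) ^ 2 ^ C * u j ∈ Hg (Fin k) (a + 2 * 2 ^ C) := by
    refine Submodule.sum_mem _ fun j _ => ?_
    have h2 : (u j).IsHomogeneous (a + 2 ^ C) := hu j
    have h3 : ((X j : PS (Fin k)) ^ 2 ^ C * u j).IsHomogeneous (1 * 2 ^ C + (a + 2 ^ C)) :=
      ((isHomogeneous_X _ j).pow _).mul h2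
    have h4 : 1 * 2 ^ C + (a + 2 ^ C) = a + 2 * 2 ^ C := by ring
    rw [h4] at h3
    exact h3
  obtain ⟨w, hw, hx⟩ := GK1.cov ha _ (hB k C _ _ h1 hs)
  obtain ⟨Z, hZ1, hZ2, hZ3, hZ4⟩ := hK k (2 ^ C) a (fun j => u j - w j)
    (fun j => Submodule.sub_mem _ (hu j) (hw j).2) (by
      rw [← sub_eq_zero.2 hx, ← Finset.sum_sub_distrib]
      exact Finset.sum_congr rfl fun j _ => by rw [mul_sub])
  refine ⟨Z, hZ1, hZ2, hZ3, fun j => ?_⟩
  rw [← hZ4 j, sub_sub_cancel]
  exact (hw j).1

end HGX
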