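import Pool.Agent.HGX.Stmts

/-!
# GKL: the first step of the Koszul complex for the linear forms `lj g j`
-/

namespace HGX

open HGP MvPolynomial

namespace GKL

/-- the Frobenius powers of an element of the prime field -/
theorem fpow (c : ZMod 2) (C : ℕ) : c ^ 2 ^ C = c := ZMod.pow_card_pow c

/-- a monomial of large degree -/
theorem mono (k N a : ℕ) (h : k * N < a + N) (s : Fin k →₀ ℕ) (hs : s.degree = a + N)
    (c : ZMod 2) : ∃ W : Fin k → PS (Fin k), (∀ i, W i ∈ Hg (Fin k) a) ∧
      (monomial s c : PS (Fin k)) = ∑ i, (X i : PS (Fin k)) ^ N * W i := by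
  classical
  obtain ⟨i, hi⟩ : ∃ i, N ≤ s i := by
    by_contra hcon
    push Not at hcon
    have h1 : s.degree = ∑ i, s i := Finsupp.degree_eq_sum s
    have h2 : ∑ i, s i ≤ ∑ _i : Fin k, N := Finset.sum_le_sum fun i _ => (hcon i).le
    rw [Finset.sum_const, Finset.card_univ, Fintype.card_fin, smul_eq_mul] at h2
    omega
  have hle : Finsupp.single i N ≤ s := Finsupp.single_le_iff.2 hi
  have hadd : s = Finsupp.single i N + (s - Finsupp.single i N) :=
    (add_tsub_cancel_of_le hle).symm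
  have hdeg : (s - Finsupp.single i N).degree = a := by
    have h1 := congrArg Finsupp.degree hadd
    rw [map_add, Finsupp.degree_single, hs] at h1
    omega
  refine ⟨fun j => if j = i then monomial (s - Finsupp.single i N) c else 0, fun j => ?_, ?_⟩
  · dsimp only
    split_ifs
    · exact (mem_homogeneousSubmodule a _).2 (isHomogeneous_monomial _ hdeg)
    · exact Submodule.zero_mem _
  · rw [Finset.sum_eq_single i]
    · beta_reduce
      rw [if_pos rfl, X_pow_eq_monomial, monomial_mul, one_mul, ← hadd]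
    · intro j _ hj
      beta_reduce
      rw [if_neg hj, mul_zero]
    · intro h
      exact absurd (Finset.mem_univ i) h

/-- a form of large degree -/
theorem poly (k N a : ℕ) (h : k * N < a + N) (f : PS (Fin k)) (hf : f ∈ Hg (Fin k) (a + N)) :
    ∃ W : Fin k → PS (Fin k), (∀ i, W i ∈ Hg (Fin k) a) ∧
      f = ∑ i, (X i : PS (Fin k)) ^ N * W i := by
  rw [f.as_sum]
  refine Finset.sum_induction (fun s => monomial s (coeff s f)) (fun g => ∃ W : Fin k → PS (Fin k),
    (∀ i, W i ∈ Hg (Fin k) a) ∧ g = ∑ i, (X i : PS (Fin k)) ^ N * W i) ?_ ?_ ?_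
  · rintro g g' ⟨W, hW, hg⟩ ⟨W', hW', hg'⟩
    refine ⟨fun i => W i + W' i, fun i => Submodule.add_mem _ (hW i) (hW' i), ?_⟩
    rw [hg, hg', ← Finset.sum_add_distrib]
    exact Finset.sum_congr rfl fun i _ => (mul_add _ _ _).symm
  · exact ⟨fun _ => 0, fun _ => Submodule.zero_mem _, by simp⟩
  · intro s hs
    have h1 : f.IsHomogeneous (a + N) := (mem_homogeneousSubmodule _ f).1 hf
    have h2 : s.degree = a + N := by
      have h3 := h1 (mem_support_iff.1 hs)
      rwa [Finsupp.degree_eq_weight_one (R := ℕ)]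
    exact mono k N a h s h2 _

/-- a symmetric sum with zero diagonal -/
theorem sym {ι A : Type} [Fintype ι] [CommRing A] [CharP A 2] (F : ι → ι → A)
    (hs : ∀ x y, F x y = F y x) (h0 : ∀ x, F x x = 0) : ∑ x, ∑ y, F x y = 0 := by
  classical
  rw [← Fintype.sum_prod_type' F]
  refine Finset.sum_involution (fun p _ => (p.2, p.1)) ?_ ?_ ?_ ?_
  · intro p _
    dsimp only
    rw [hs p.2 p.1]
    exact CharTwo.add_self_eq_zero _
  · intro p _ hp hcon
    apply hp
    have h1 : p.2 = p.1 := congrArg Prod.fst hcon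
    rw [h1, h0]
  · intro p _
    exact Finset.mem_univ _
  · intro p _
    rfl

variable {d k m : ℕ}

theorem lj_eq (g : WS (Fin d) ≃ₗ[ZMod 2] WS (Fin k ⊕ Fin m)) (j : Fin d) :
    lj g j = ∑ i : Fin k, C (g (Pi.single j 1) (Sum.inl i)) * X i := by
  have h1 : sb g.toLinearMap (X j : PS (Fin d)) = lf (g (Pi.single j 1)) := by
    rw [sb, aeval_X]
    rfl
  rw [lj, h1, lf, map_sum, Fintype.sum_sum_type]
  have h2 : ∀ i : Fin k, kl (Fin k) (Fin m) (C (g (Pi.single j 1) (Sum.inl i)) * X (Sum.inl i)) =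
      C (g (Pi.single j 1) (Sum.inl i)) * X i := by
    intro i
    rw [map_mul, kl, aeval_C, aeval_X]
    rfl
  have h3 : ∀ l : Fin m, kl (Fin k) (Fin m) (C (g (Pi.single j 1) (Sum.inr l)) * X (Sum.inr l)) =
      0 := by
    intro l
    rw [map_mul, kl, aeval_C, aeval_X]
    change _ * (0 : PS (Fin k)) = 0
    rw [mul_zero]
  simp only [h2, h3, Finset.sum_const_zero, add_zero]

theorem lj_pow (g : WS (Fin d) ≃ₗ[ZMod 2] WS (Fin k ⊕ Fin m)) (j : Fin d) (e : ℕ) :
    lj g j ^ 2 ^ e = ∑ i : Fin k, C (g (Pi.single j 1) (Sum.inl i)) * X i ^ 2 ^ e := by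
  rw [lj_eq, sum_pow_char_pow]
  refine Finset.sum_congr rfl fun i _ => ?_
  rw [mul_pow, ← map_pow, fpow]

/-- the matrices of `g` and of the inverse -/
theorem inv1 (g : WS (Fin d) ≃ₗ[ZMod 2] WS (Fin k ⊕ Fin m)) (x y : Fin k ⊕ Fin m) :
    ∑ j, g.symm (Pi.single x 1) j * g (Pi.single j 1) y = if y = x then 1 else 0 := by
  have h1 : g (∑ j, g.symm (Pi.single x 1) j • (Pi.single j 1 : WS (Fin d))) y =
      ∑ j, g.symm (Pi.single x 1) j * g (Pi.single j 1) y := by
    rw [map_sum, Finset.sum_apply]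
    refine Finset.sum_congr rfl fun j _ => ?_
    rw [map_smul, Pi.smul_apply, smul_eq_mul]
  rw [← h1]
  have h2 : ∑ j, g.symm (Pi.single x 1) j • (Pi.single j 1 : WS (Fin d)) =
      g.symm (Pi.single x 1) := by
    funext i
    simp [Finset.sum_apply, Pi.single_apply]
  rw [h2, LinearEquiv.apply_symm_apply, Pi.single_apply]

theorem inv2 (g : WS (Fin d) ≃ₗ[ZMod 2] WS (Fin k ⊕ Fin m)) (i j : Fin d) :
    ∑ x, g.symm (Pi.single x 1) i * g (Pi.single j 1) x = if i = j then 1 else 0 := by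
  have h1 : g.symm (∑ x, g (Pi.single j 1) x • (Pi.single x 1 : WS (Fin k ⊕ Fin m))) i =
      ∑ x, g.symm (Pi.single x 1) i * g (Pi.single j 1) x := by
    rw [map_sum, Finset.sum_apply]
    refine Finset.sum_congr rfl fun x _ => ?_
    rw [map_smul, Pi.smul_apply, smul_eq_mul, mul_comm]
  rw [← h1]
  have h2 : ∑ x, g (Pi.single j 1) x • (Pi.single x 1 : WS (Fin k ⊕ Fin m)) =
      g (Pi.single j 1) := by
    funext y
    simp [Finset.sum_apply, Pi.single_apply]
  rw [h2, LinearEquiv.symm_apply_apply, Pi.single_apply]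

/-- the symmetric array on both kinds -/
noncomputable def Zx (Z' : Fin k → Fin k → PS (Fin k)) (W : Fin m → Fin k → PS (Fin k)) :
    Fin k ⊕ Fin m → Fin k ⊕ Fin m → PS (Fin k)
  | Sum.inl i, Sum.inl j => Z' i j
  | Sum.inl i, Sum.inr l => W l i
  | Sum.inr l, Sum.inl i => W l i
  | Sum.inr _, Sum.inr _ => 0

end GKL

open GKL in
theorem t_GKL : Stmt_GKL := by
  intro hGK1 d k m e a g H hk hH hNN
  have hN : 0 < 2 ^ e := by positivity
  -- the coordinates
  let U : Fin k ⊕ Fin m → PS (Fin k) := fun x => ∑ j, C (g (Pi.single j 1) x) * H j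
  have hU : ∀ x, U x ∈ Hg (Fin k) (a + 2 ^ e) := by
    intro x
    refine Submodule.sum_mem _ fun j _ => ?_
    rw [← smul_eq_C_mul]
    exact Submodule.smul_mem _ _ (hH j)
  have h1 : ∑ j, lj g j ^ 2 ^ e * H j = ∑ i, (X i : PS (Fin k)) ^ 2 ^ e * U (Sum.inl i) := by
    simp only [lj_pow, Finset.sum_mul, U, Finset.mul_sum]
    rw [Finset.sum_comm]
    refine Finset.sum_congr rfl fun i _ => Finset.sum_congr rfl fun j _ => ?_
    ring
  rw [h1] at hNN
  obtain ⟨Z', hZ'1, hZ'2, hZ'3, hZ'4⟩ := hGK1 k e a (fun i => U (Sum.inl i)) hk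
    (fun i => hU (Sum.inl i)) hNN
  have hlarge : k * 2 ^ e < a + 2 ^ e := by
    have : 2 ^ e ≤ 2 ^ (2 * e + k) := Nat.pow_le_pow_right (by norm_num) (by omega)
    omega
  choose W hW1 hW2 using fun l : Fin m => poly k (2 ^ e) a hlarge (U (Sum.inr l)) (hU (Sum.inr l))
  have hZa : ∀ x y, Zx Z' W x y ∈ Hg (Fin k) a := by
    rintro (i | l) (j | l')
    · exact hZ'1 i j
    · exact hW1 l' i
    · exact hW1 l j
    · exact Submodule.zero_mem _
  have hZs : ∀ x y, Zx Z' W x y = Zx Z' W y x := by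
    rintro (i | l) (j | l')
    · exact hZ'3 i j
    · rfl
    · rfl
    · rfl
  have hZ0 : ∀ x, Zx Z' W x x = 0 := by
    rintro (i | l)
    · exact hZ'2 i
    · rfl
  have hZN : ∀ y, U y - ∑ i : Fin k, (X i : PS (Fin k)) ^ 2 ^ e * Zx Z' W (Sum.inl i) y ∈
      NN (Fin k) e := by
    rintro (j | l)
    · exact hZ'4 j
    · have h2 : U (Sum.inr l) = ∑ i : Fin k, (X i : PS (Fin k)) ^ 2 ^ e *
          Zx Z' W (Sum.inl i) (Sum.inr l) := hW2 l
      rw [← h2, sub_self]
      exact Submodule.zero_mem _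
  -- the matrix of the inverse
  let M : Fin d → Fin k ⊕ Fin m → ZMod 2 := fun j x => g.symm (Pi.single x 1) j
  refine ⟨fun i j => ∑ x, ∑ y, C (M i x * M j y) * Zx Z' W x y, ?_, ?_, ?_, ?_⟩
  · intro i j
    refine Submodule.sum_mem _ fun x _ => Submodule.sum_mem _ fun y _ => ?_
    rw [← smul_eq_C_mul]
    exact Submodule.smul_mem _ _ (hZa x y)
  · intro i
    refine sym _ (fun x y => ?_) (fun x => ?_)
    · rw [hZs x y, mul_comm (M i x)]
    · rw [hZ0, mul_zero]
  · intro i j
    beta_reduce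
    rw [Finset.sum_comm]
    refine Finset.sum_congr rfl fun x _ => Finset.sum_congr rfl fun y _ => ?_
    rw [hZs y x, mul_comm (M i y)]
  · intro j
    -- the powers
    have h2 : ∀ x, ∑ i, lj g i ^ 2 ^ e * C (M i x) =
        Sum.elim (fun i : Fin k => (X i : PS (Fin k)) ^ 2 ^ e) (fun _ => 0) x := by
      intro x
      have h3 : ∑ i, lj g i ^ 2 ^ e * C (M i x) =
          ∑ i' : Fin k, C (∑ i, M i x * g (Pi.single i 1) (Sum.inl i')) *
            (X i' : PS (Fin k)) ^ 2 ^ e := by
        simp only [lj_pow, Finset.sum_mul, map_sum, map_mul]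
        rw [Finset.sum_comm]
        refine Finset.sum_congr rfl fun i _ => Finset.sum_congr rfl fun j _ => ?_
        ring
      rw [h3]
      have h4 : ∀ i', ∑ i, M i x * g (Pi.single i 1) (Sum.inl i') =
          if (Sum.inl i' : Fin k ⊕ Fin m) = x then 1 else 0 := fun i' => inv1 g x _
      simp only [h4]
      rcases x with i | l
      · rw [Finset.sum_eq_single i]
        · simp
        · intro i' _ hi'
          rw [if_neg (fun h => hi' (Sum.inl_injective h)), map_zero, zero_mul]
        · intro h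
          exact absurd (Finset.mem_univ i) h
      · refine Finset.sum_eq_zero fun i' _ => ?_
        rw [if_neg (by simp), map_zero, zero_mul]
    have h5 : H j = ∑ y, C (M j y) * U y := by
      have h6 : ∑ y, C (M j y) * U y =
          ∑ i, C (∑ y, M j y * g (Pi.single i 1) y) * H i := by
        simp only [U, Finset.mul_sum, map_sum, map_mul, Finset.sum_mul]
        rw [Finset.sum_comm]
        refine Finset.sum_congr rfl fun i _ => Finset.sum_congr rfl fun j _ => ?_
        ring
      rw [h6]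
      have h7 : ∀ i, ∑ y, M j y * g (Pi.single i 1) y = if j = i then 1 else 0 :=
        fun i => inv2 g j i
      simp only [h7]
      rw [Finset.sum_eq_single j]
      · simp
      · intro i _ hi
        rw [if_neg (Ne.symm hi), map_zero, zero_mul]
      · intro h
        exact absurd (Finset.mem_univ j) h
    have h8 : ∑ i, lj g i ^ 2 ^ e * ∑ x, ∑ y, C (M i x * M j y) * Zx Z' W x y =
        ∑ y, C (M j y) * ∑ i : Fin k, (X i : PS (Fin k)) ^ 2 ^ e * Zx Z' W (Sum.inl i) y := by
      have h9 : ∀ y, ∑ i : Fin k, (X i : PS (Fin k)) ^ 2 ^ e * Zx Z' W (Sum.inl i) y =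
          ∑ x, (∑ i, lj g i ^ 2 ^ e * C (M i x)) * Zx Z' W x y := by
        intro y
        simp only [h2]
        rw [Fintype.sum_sum_type]
        simp
      simp only [h9, Finset.mul_sum, Finset.sum_mul]
      rw [Finset.sum_comm]
      have h10 : ∀ x : Fin k ⊕ Fin m, ∑ i : Fin d, ∑ y, lj g i ^ 2 ^ e *
          (C (M i x * M j y) * Zx Z' W x y) = ∑ y, ∑ i : Fin d, C (M j y) *
            (lj g i ^ 2 ^ e * C (M i x) * Zx Z' W x y) := by
        intro x
        rw [Finset.sum_comm]
        refine Finset.sum_congr rfl fun y _ => Finset.sum_congr rfl fun i _ => ?_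
        rw [map_mul]
        ring
      simp only [h10]
      exact Finset.sum_comm
    rw [h8]
    nth_rewrite 1 [h5]
    rw [← Finset.sum_sub_distrib]
    refine Submodule.sum_mem _ fun y _ => ?_
    rw [← mul_sub, ← smul_eq_C_mul]
    exact Submodule.smul_mem _ _ (hZN y)

end HGX
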