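import Pool.Agent.HGX.Stmts
import Pool.Agent.HGX.GSE

/-!
# GLF: the isomorphism, with the explicit threshold
-/

namespace HGX

open HGP MvPolynomial

namespace GLF

theorem sz_bound (d : ℕ) (c : ℤ) (t : ℕ) (ht : TT d c ≤ t) (k : ℕ) (hk : k ≤ d) :
    4 ^ (k + 1) * (sz (k : ℤ) + 3) ≤ t - (sz c + d) := by
  have hsb := GSE.size_bound d (sz c)
  have hTdef : TT d c = 4 ^ (d + 2) * (sz c + d + 1) := rfl
  have h3 : 4 ^ (k + 1) * (sz (k : ℤ) + 3) ≤ 4 ^ (d + 1) * (d + 3) := by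
    refine Nat.mul_le_mul (Nat.pow_le_pow_right (by norm_num) (by omega)) ?_
    have := GSE.sz_nat_le k
    omega
  by_cases hsc : d + 3 ≤ 2 * sz c + d + 2
  · have h4 := Nat.mul_le_mul_left (4 ^ (d + 1)) hsc
    omega
  · have h5 : sz c = 0 := by omega
    have h6 : TT d c = 4 ^ (d + 1) * (4 * (d + 1)) := by
      rw [hTdef, h5, pow_succ 4 (d + 1)]
      ring
    have h7 : 4 ^ (d + 1) * (d + 3) + (sz c + d) ≤ TT d c := by
      rw [h6, h5]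
      have h8 : 1 ≤ 4 ^ (d + 1) := Nat.one_le_pow _ _ (by norm_num)
      have h9 : 4 ^ (d + 1) * (4 * (d + 1)) = 4 ^ (d + 1) * (d + 3) + 4 ^ (d + 1) * (3 * d + 1) := by
        ring
      rw [h9]
      have h10 : 1 * (3 * d + 1) ≤ 4 ^ (d + 1) * (3 * d + 1) := Nat.mul_le_mul_right _ h8
      omega
    omega

end GLF

theorem t_GLF : Stmt_GLF := by
  intro hM hL hK hT d c t C ht hCT q
  have hTT := GSE.TT_ge d c
  have hsb := GSE.size_bound d (sz c)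
  have ht₀ := GSE.lt_t0 d c
  have hTdef : TT d c = 4 ^ (d + 2) * (sz c + d + 1) := rfl
  have hcl : |c| < 2 ^ t := by
    refine (GSE.abs_lt c).trans_le (pow_le_pow_right₀ (by norm_num) ?_)
    omega
  obtain ⟨C₁, hC₁⟩ : ∃ C₁, t = C₁ + (sz c + d) := ⟨t - (sz c + d), by omega⟩
  have hC₁' : 4 ^ (d + 1) * (2 * sz c + d + 2) ≤ C₁ := by omega
  have h0 := hM d c (sz c + d) C₁ ht₀ (by
    have e : sz c + d + sz c + 2 = 2 * sz c + d + 2 := by ring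
    rw [e]
    exact hC₁')
  have h1 : Iso d (2 ^ (C₁ + (sz c + d)) * q - c) (fun m => 2 ^ C₁ * q - ((d - m : ℕ) : ℤ))
      fun m => ((d - m : ℕ) : ℤ) - c := hL d c (sz c + d) C₁ ht₀ h0 (by rw [← hC₁]; exact hcl) q
  rw [← hC₁] at h1
  obtain ⟨e, he⟩ := h1
  have hE : ∀ m : Fin (d + 1), ∃ E : Ind d (d - (m : ℕ)) m (2 ^ C₁ * q - ((d - (m : ℕ) : ℕ) : ℤ))
      (((d - (m : ℕ) : ℕ) : ℤ) - c) ≃ₗ[ZMod 2]
      Ind d (d - (m : ℕ)) m (2 ^ C * q - ((d - (m : ℕ) : ℕ) : ℤ)) (((d - (m : ℕ) : ℕ) : ℤ) - c),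
      ∀ (φ ψ : Ind d (d - (m : ℕ)) m (2 ^ C₁ * q - ((d - (m : ℕ) : ℕ) : ℤ))
        (((d - (m : ℕ) : ℕ) : ℤ) - c))
      (g h : WS (Fin d) ≃ₗ[ZMod 2] WS (Fin (d - (m : ℕ)) ⊕ Fin m)), φ.1 g = ψ.1 h →
        (E φ).1 g = (E ψ).1 h := by
    intro m
    have hb := GLF.sz_bound d c t ht (d - (m : ℕ)) (Nat.sub_le _ _)
    have hb2 : 4 ^ (d - (m : ℕ) + 1) * (sz ((d - (m : ℕ) : ℕ) : ℤ) + 3) ≤ C := by
      have h3 : 4 ^ (d - (m : ℕ) + 1) * (sz ((d - (m : ℕ) : ℕ) : ℤ) + 3) ≤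
          4 ^ (d + 1) * (d + 3) := by
        refine Nat.mul_le_mul (Nat.pow_le_pow_right (by norm_num) (by omega)) ?_
        have := GSE.sz_nat_le (d - (m : ℕ))
        omega
      exact h3.trans (hTT.trans hCT)
    obtain ⟨κ, hκ⟩ := hK (d - (m : ℕ)) C₁ C q (by omega) hb2
    exact hT d (d - (m : ℕ)) m _ _ _ κ hκ
  choose E hE using hE
  refine ⟨e.trans (LinearEquiv.piCongrRight E), fun A x y hxy m g => ?_⟩
  exact hE m _ _ _ _ (he A x y hxy m g)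

end HGX
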