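import Pool.Agent.HGX.Stmts

/-!
# HPJ: the projections respect the hits
-/

namespace HGX

open HGP MvPolynomial
open Pool.Agent.Lib_helper74.Hit (hits qd)

theorem t_HPJ : Stmt_HPJ := by
  intro d c t k m g μ _ hμ f hf
  rw [← sum_homogeneousComponent f, map_sum]
  refine Submodule.sum_mem _ fun n _ => ?_
  exact CNT.pj_mem_hits (C := 0) (c := c) (n := n) OPB HTS PJB g μ hμ _
    (homogeneousComponent_mem n f) (DUB.comp_hits _ n f hf)

end HGX
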