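import Pool.Agent.HGX.Stmts

/-! # KOS: exactness of the Koszul complex of the powers of the variables, first step -/

namespace HGX

open HGP MvPolynomial

namespace KOS

/-- The ideal generated by the elements before `x j`. -/
def bf {R : Type} [CommRing R] {k : ℕ} (x : Fin k → R) (j : Fin k) : Ideal R :=
  Ideal.span {y | ∃ i, i < j ∧ y = x i}

theorem mem_span {R : Type} [CommRing R] {k : ℕ} (x : Fin (k + 1) → R) {f : R}
    (hf : f ∈ bf x (Fin.last k)) : ∃ w : Fin k → R, f = ∑ i, x i.castSucc * w i := by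
  have h : ({y | ∃ i, i < Fin.last k ∧ y = x i} : Set R) =
      Set.range (fun i : Fin k => x i.castSucc) := by
    ext y
    constructor
    · rintro ⟨i, hi, rfl⟩
      exact ⟨i.castPred (Fin.ne_last_of_lt hi), by simp⟩
    · rintro ⟨i, rfl⟩
      exact ⟨i.castSucc, Fin.castSucc_lt_last i, rfl⟩
  rw [bf, h, Ideal.span, Submodule.mem_span_range_iff_exists_fun] at hf
  obtain ⟨w, hw⟩ := hf
  refine ⟨w, ?_⟩
  rw [← hw]
  exact Finset.sum_congr rfl fun i _ => by rw [smul_eq_mul, mul_comm]

theorem bf_castSucc {R : Type} [CommRing R] {k : ℕ} (x : Fin (k + 1) → R) (j : Fin k) :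
    bf (fun i : Fin k => x i.castSucc) j = bf x j.castSucc := by
  unfold bf
  congr 1
  ext y
  constructor
  · rintro ⟨i, hi, rfl⟩
    exact ⟨i.castSucc, by simpa using hi, rfl⟩
  · rintro ⟨i, hi, rfl⟩
    have hl : i ≠ Fin.last k := Fin.ne_last_of_lt hi
    refine ⟨i.castPred hl, ?_, by simp⟩
    rw [← Fin.castSucc_lt_castSucc_iff, Fin.castSucc_castPred]
    exact hi

theorem reg {R : Type} [CommRing R] [CharP R 2] : ∀ (k : ℕ) (x : Fin k → R)
    (_ : ∀ j f, x j * f ∈ bf x j → f ∈ bf x j) (u : Fin k → R) (_ : ∑ j, x j * u j = 0),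
    ∃ Z : Fin k → Fin k → R, (∀ i, Z i i = 0) ∧ (∀ i j, Z i j = Z j i) ∧
      ∀ j, u j = ∑ i, x i * Z i j := by
  intro k
  induction k with
  | zero =>
    intro x _ u _
    exact ⟨fun i _ => i.elim0, fun i => i.elim0, fun i => i.elim0, fun i => i.elim0⟩
  | succ k ih =>
    intro x hx u hu
    rw [Fin.sum_univ_castSucc] at hu
    have h1 : x (Fin.last k) * u (Fin.last k) = ∑ j : Fin k, x j.castSucc * u j.castSucc := by
      have h2 := eq_neg_of_add_eq_zero_right hu
      rw [h2, CharTwo.neg_eq]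
    have h3 : u (Fin.last k) ∈ bf x (Fin.last k) := by
      apply hx
      rw [h1]
      exact Ideal.sum_mem _ fun j _ => Ideal.mul_mem_right _ _
        (Ideal.subset_span ⟨j.castSucc, Fin.castSucc_lt_last j, rfl⟩)
    obtain ⟨w, hw⟩ := mem_span x h3
    have h4 : ∑ j : Fin k, x j.castSucc * (u j.castSucc + x (Fin.last k) * w j) = 0 := by
      have h5 : ∑ j : Fin k, x j.castSucc * (x (Fin.last k) * w j) =
          x (Fin.last k) * u (Fin.last k) := by
        rw [hw, Finset.mul_sum]
        exact Finset.sum_congr rfl fun i _ => by ring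
      rw [← hu, ← h5, ← Finset.sum_add_distrib]
      exact Finset.sum_congr rfl fun i _ => by ring
    obtain ⟨Z, hZ1, hZ2, hZ3⟩ := ih (fun i => x i.castSucc)
      (fun j f hf => by
        rw [bf_castSucc] at hf ⊢
        exact hx j.castSucc f hf) (fun j => u j.castSucc + x (Fin.last k) * w j) h4
    refine ⟨fun i j => Fin.lastCases (motive := fun _ => R)
      (Fin.lastCases (motive := fun _ => R) 0 w j)
      (fun i' => Fin.lastCases (motive := fun _ => R) (w i') (fun j' => Z i' j') j) i,
      ?_, ?_, ?_⟩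
    · intro i
      refine Fin.lastCases ?_ (fun i' => ?_) i
      · simp
      · simpa using hZ1 i'
    · intro i j
      refine Fin.lastCases ?_ (fun i' => ?_) i <;> refine Fin.lastCases ?_ (fun j' => ?_) j
      · simp
      · simp
      · simp
      · simpa using hZ2 i' j'
    · intro j
      refine Fin.lastCases ?_ (fun j' => ?_) j
      · rw [Fin.sum_univ_castSucc]
        simp [hw]
      · rw [Fin.sum_univ_castSucc]
        have h6 := hZ3 j'
        simp only [Fin.lastCases_castSucc, Fin.lastCases_last]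
        rw [← h6, add_assoc, CharTwo.add_self_eq_zero, add_zero]

theorem X_pow_eq (k N : ℕ) (j : Fin k) :
    (X j : PS (Fin k)) ^ N = monomial (Finsupp.single j N) 1 := by
  rw [X_pow_eq_monomial]

theorem bf_eq (k N : ℕ) (j : Fin k) : bf (fun i : Fin k => (X i : PS (Fin k)) ^ N) j =
    Ideal.span ((fun s => monomial s (1 : ZMod 2)) '' {s | ∃ i, i < j ∧ s = Finsupp.single i N}) := by
  unfold bf
  congr 1
  ext y
  constructor
  · rintro ⟨i, hi, rfl⟩
    exact ⟨Finsupp.single i N, ⟨i, hi, rfl⟩, (X_pow_eq k N i).symm⟩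
  · rintro ⟨s, ⟨i, hi, rfl⟩, rfl⟩
    exact ⟨i, hi, (X_pow_eq k N i).symm⟩

theorem regX (k N : ℕ) (j : Fin k) (f : PS (Fin k))
    (hf : (X j : PS (Fin k)) ^ N * f ∈ bf (fun i : Fin k => (X i : PS (Fin k)) ^ N) j) :
    f ∈ bf (fun i : Fin k => (X i : PS (Fin k)) ^ N) j := by
  rw [bf_eq, mem_ideal_span_monomial_image] at hf ⊢
  intro t ht
  have h1 : Finsupp.single j N + t ∈ ((X j : PS (Fin k)) ^ N * f).support := by
    rw [mem_support_iff, X_pow_eq, coeff_monomial_mul, one_mul]
    exact mem_support_iff.1 ht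
  obtain ⟨s, ⟨i, hi, rfl⟩, hs⟩ := hf _ h1
  refine ⟨_, ⟨i, hi, rfl⟩, ?_⟩
  rw [Finsupp.single_le_iff] at hs ⊢
  rw [Finsupp.add_apply, Finsupp.single_eq_of_ne (ne_of_lt hi), zero_add] at hs
  exact hs

/-- The component of a product with a homogeneous polynomial. -/
theorem hc {σ : Type} {D e : ℕ} {s : PS σ} (hs : s.IsHomogeneous D) (a : PS σ) :
    homogeneousComponent (e + D) (s * a) = s * homogeneousComponent e a := by
  rw [mul_comm s a]
  have h1 : a * s = ∑ i ∈ Finset.range (a.totalDegree + 1), homogeneousComponent i a * s := by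
    rw [← Finset.sum_mul, sum_homogeneousComponent]
  rw [h1, map_sum]
  have h2 : ∀ i, homogeneousComponent (e + D) (homogeneousComponent i a * s) =
      if i = e then homogeneousComponent i a * s else 0 := by
    intro i
    have h3 : homogeneousComponent i a * s ∈ homogeneousSubmodule σ (ZMod 2) (i + D) :=
      IsHomogeneous.mul (homogeneousComponent_isHomogeneous i a) hs
    rw [homogeneousComponent_of_mem h3]
    by_cases h4 : i = e
    · rw [if_pos h4, if_pos (by omega)]
    · rw [if_neg h4, if_neg (by omega)]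
  rw [Finset.sum_congr rfl fun i _ => h2 i, Finset.sum_ite_eq']
  split_ifs with h5
  · rw [mul_comm]
  · rw [Finset.mem_range, not_lt] at h5
    rw [homogeneousComponent_eq_zero _ _ (by omega), mul_zero]

end KOS

theorem t_KOS : Stmt_KOS := by
  intro k N a u hu hs
  obtain ⟨Z, hZ1, hZ2, hZ3⟩ := KOS.reg k (fun i : Fin k => (X i : PS (Fin k)) ^ N)
    (fun j f hf => KOS.regX k N j f hf) u hs
  refine ⟨fun i j => homogeneousComponent a (Z i j), fun i j => ?_, fun i => ?_, fun i j => ?_,
    fun j => ?_⟩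
  · exact homogeneousComponent_mem a (Z i j)
  · simp [hZ1 i]
  · simp [hZ2 i j]
  · have h1 : homogeneousComponent (a + N) (u j) = u j := by
      have h2 : (u j).IsHomogeneous (a + N) := hu j
      rw [homogeneousComponent_of_mem h2, if_pos rfl]
    rw [← h1]
    conv_lhs => rw [hZ3 j]
    rw [map_sum]
    refine Finset.sum_congr rfl fun i _ => ?_
    have h3 : ((X i : PS (Fin k)) ^ N).IsHomogeneous N := by
      simpa using isHomogeneous_X_pow (R := ZMod 2) i N
    exact KOS.hc h3 _

end HGX
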