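import Pool.Agent.HGX.Stmts

/-!
# HGX, module KRE: injectivity in large degrees, explicit bound (helper91)
-/

set_option autoImplicit false

namespace HGX

open HGP MvPolynomial

namespace KRE

/-- The elements `r` with `r ^ 2 ^ (C + t) * s ∈ NN` form an ideal. -/
theorem ideal_mem (d : ℕ) (c : ℤ) (t C : ℕ) (hT : Tor d c t C) (q₀ : ℤ) (n₀ : ℕ) (s : PS (Fin d))
    (hn : (n₀ : ℤ) = 2 ^ (C + t) * q₀ - c) (hs : s ∈ Hg (Fin d) n₀) (hK : KK c t C s)
    (r : PS (Fin d)) (hr : r ∈ Ideal.span {x : PS (Fin d) | ∃ v : WS (Fin d) →ₗ[ZMod 2] ZMod 2,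
      v ≠ 0 ∧ x = Sv v ^ 2 ^ (C + t)}) : r ^ 2 ^ (C + t) * s ∈ NN (Fin d) (C + t) := by
  let I : Ideal (PS (Fin d)) :=
    { carrier := {r | r ^ 2 ^ (C + t) * s ∈ NN (Fin d) (C + t)}
      add_mem' := by
        intro x y hx hy
        change (x + y) ^ 2 ^ (C + t) * s ∈ NN (Fin d) (C + t)
        rw [← KR2.fr_apply, map_add, add_mul]
        exact Submodule.add_mem _ hx hy
      zero_mem' := by
        change (0 : PS (Fin d)) ^ 2 ^ (C + t) * s ∈ NN (Fin d) (C + t)
        rw [← KR2.fr_apply, map_zero, zero_mul]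
        exact Submodule.zero_mem _
      smul_mem' := by
        intro a x hx
        change (a * x) ^ 2 ^ (C + t) * s ∈ NN (Fin d) (C + t)
        rw [mul_pow, mul_assoc]
        exact NNB.1 _ _ _ _ hx }
  have hI : Ideal.span {x : PS (Fin d) | ∃ v : WS (Fin d) →ₗ[ZMod 2] ZMod 2, v ≠ 0 ∧
      x = Sv v ^ 2 ^ (C + t)} ≤ I := by
    rw [Ideal.span_le]
    rintro _ ⟨v, hv, rfl⟩
    change (Sv v ^ 2 ^ (C + t)) ^ 2 ^ (C + t) * s ∈ NN (Fin d) (C + t)
    rw [← pow_mul]
    exact hT q₀ n₀ s hn hs hK v hv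
  exact hI hr

/-- Monomials of large degree. -/
theorem mono_mem (h : P_SVI) (d s : ℕ) (β : Fin (d + 1) → ℕ)
    (hβ : (d + 1) * 2 ^ (d + s) ≤ ∑ j, β j) :
    ∏ j, (X j : PS (Fin (d + 1))) ^ β j ∈
      Ideal.span {x : PS (Fin (d + 1)) | ∃ v : WS (Fin (d + 1)) →ₗ[ZMod 2] ZMod 2,
        v ≠ 0 ∧ x = Sv v ^ 2 ^ s} := by
  have h1 : ∑ _j : Fin (d + 1), 2 ^ (d + s) ≤ ∑ j, β j := by
    simpa using hβ
  obtain ⟨j, -, hj⟩ := Finset.exists_le_of_sum_le Finset.univ_nonempty h1
  refine Ideal.mem_of_dvd _ ?_ (h d s j)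
  exact (pow_dvd_pow _ hj).trans
    (Finset.dvd_prod_of_mem (fun j => (X j : PS (Fin (d + 1))) ^ β j) (Finset.mem_univ j))

/-- The iteration. -/
theorem iter (h1 : P_SVI) (h2 : P_SPL) (d : ℕ) (c : ℤ) (t C B : ℕ)
    (hdc : ((d + 1 : ℕ) : ℤ) - c < 2 ^ t) (hT : Tor (d + 1) c t C)
    (hS : ∀ q : ℤ, (B : ℤ) < q → Sur (d + 1) c t C q) (M : ℕ) :
    ∀ (β : Fin (d + 1) → ℕ) (q : ℤ) (n : ℕ) (f : PS (Fin (d + 1))),
      (d + 1) * 2 ^ (d + (C + t)) ≤ ∑ j, β j + M →
      (B : ℤ) + |c| + 3 * (d + 1 : ℕ) + 2 + 2 ^ (C + (d + 1)) + M < q →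
      (n : ℤ) = 2 ^ (C + t) * q - c → f ∈ Hg (Fin (d + 1)) n → KK c t C f →
      (∏ j, (X j : PS (Fin (d + 1))) ^ β j) ^ 2 ^ (C + t) * f ∈ NN (Fin (d + 1)) (C + t) := by
  induction M with
  | zero =>
    intro β q n f hβ _ hn hf hK
    exact ideal_mem (d + 1) c t C hT q n f hn hf hK _ (mono_mem h1 d (C + t) β (by simpa using hβ))
  | succ M ih =>
    intro β q n f hβ hq hn hf hK
    obtain ⟨n₁, h, hn₁, hh, rfl⟩ := h2 (d + 1) c t C B q hdc hS (by push_cast at hq ⊢; linarith) n f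
      hn hf hK
    rw [Finset.mul_sum]
    refine Submodule.sum_mem _ fun j _ => ?_
    have h3 := ih (Function.update β j (β j + 1)) (q - 1) n₁ (h j)
      (by
        rw [Finset.sum_update_of_mem (Finset.mem_univ j)]
        have h4 := Finset.add_sum_erase Finset.univ β (Finset.mem_univ j)
        rw [← Finset.sdiff_singleton_eq_erase] at h4
        omega)
      (by push_cast at hq ⊢; linarith) hn₁ (hh j).1 (hh j).2
    have h5 : ∏ i, (X i : PS (Fin (d + 1))) ^ (Function.update β j (β j + 1) i) =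
        (∏ i, (X i : PS (Fin (d + 1))) ^ β i) * X j := by
      have h6 : ∀ i, (X i : PS (Fin (d + 1))) ^ (Function.update β j (β j + 1) i) =
          X i ^ β i * (if i = j then X j else 1) := by
        intro i
        by_cases hi : i = j
        · subst hi
          rw [Function.update_self, if_pos rfl, pow_succ]
        · rw [Function.update_of_ne hi, if_neg hi, mul_one]
      rw [Finset.prod_congr rfl fun i _ => h6 i, Finset.prod_mul_distrib, Finset.prod_ite_eq' ]
      simp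
    rw [h5, mul_pow, mul_assoc] at h3
    exact h3

end KRE

open KRE in
theorem t_KRE : Stmt_KRE := by
  intro h1 h2 d c t C B hdc hT hS q hq n hn f hf hK
  cases d with
  | zero =>
    have h3 : (0 : ℤ) < n := by
      have h4 : -|c| ≤ c := neg_abs_le c
      have h4' : c ≤ |c| := le_abs_self c
      have h5 : (0 : ℤ) ≤ 2 ^ (C + 0) := by positivity
      have h6 : (0 : ℤ) < q := by
        have h7 : (0 : ℤ) ≤ |c| := abs_nonneg c
        push_cast at hq
        linarith
      have h8 : q ≤ 2 ^ (C + t) * q := by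
        have h9 : (1 : ℤ) ≤ 2 ^ (C + t) := one_le_pow₀ (by norm_num)
        nlinarith
      rw [hn]
      push_cast at hq
      linarith
    have h10 : f = 0 := by
      have h11 : f.IsHomogeneous n := hf
      by_contra h12
      have h13 := h11.totalDegree h12
      have h14 : f.totalDegree = 0 := by
        rw [MvPolynomial.eq_C_of_isEmpty f, MvPolynomial.totalDegree_C]
      omega
    rw [h10]
    exact Submodule.zero_mem _
  | succ d =>
    have h3 := iter h1 h2 d c t C B hdc hT hS ((d + 1) * 2 ^ (d + 1 + C + t)) (fun _ => 0) q n f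
      (by
        simp only [Finset.sum_const_zero, zero_add]
        refine Nat.mul_le_mul_left _ (Nat.pow_le_pow_right (by norm_num) (by omega)))
      (by push_cast at hq ⊢; linarith) hn hf hK
    simpa using h3

end HGX
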