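import Pool.Agent.HGX.Stmts

/-!
# LVL: the isomorphism at one level
-/

namespace HGX

open HGP MvPolynomial
open Pool.Agent.Lib_helper74.Hit (hits qd)
open scoped TensorProduct

theorem t_LVL : Stmt_LVL := by
  intro hTHT hEQV hEIN hESU d c t C hdc hIS hc q
  have h1 : ∀ m : Fin (d + 1), ∃ θ, IsTh d c t (d - (m : ℕ)) m θ := fun m => hTHT _ _ _ _ _ hdc
  choose Θ hΘ using h1
  have hE := fun m : Fin (d + 1) => hEQV d c t (d - (m : ℕ)) m (Θ m) hdc (hΘ m)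
  let Φ : Qz (Fin d) (2 ^ (C + t) * q - c) →ₗ[ZMod 2] ((m : Fin (d + 1)) →
      Ind d (d - (m : ℕ)) m (2 ^ C * q - ((d - (m : ℕ) : ℕ) : ℤ))
        (((d - (m : ℕ) : ℕ) : ℤ) - c)) :=
    LinearMap.pi fun m => LinearMap.codRestrict _
      ((LinearMap.pi fun g => Θ m g).comp (Submodule.subtype _)) fun x =>
      ⟨fun g => (hE m).2.2 C q g x.1 x.2, fun g h A D hb => (hE m).1 g h A D x.1 hb⟩
  have hΦ : ∀ x m g, (Φ x m).1 g = Θ m g x.1 := fun _ _ _ => rfl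
  have hinj : Function.Injective Φ := by
    rw [injective_iff_map_eq_zero]
    intro x hx
    apply Subtype.ext
    refine hEIN d c t C Θ hdc hΘ hIS q x.1 x.2 fun m g => ?_
    rw [← hΦ, hx]
    rfl
  have hsurj : Function.Surjective Φ := by
    intro φ
    obtain ⟨x, hx, h2⟩ := hESU d c t C Θ hdc hΘ hIS hc q φ
    refine ⟨⟨x, hx⟩, ?_⟩
    funext m
    apply Subtype.ext
    funext g
    rw [hΦ]
    exact h2 m g
  refine ⟨LinearEquiv.ofBijective Φ ⟨hinj, hsurj⟩, fun A x y hxy m g => ?_⟩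
  show (Φ y m).1 g = (Φ x m).1 (A.trans g)
  rw [hΦ, hΦ, hxy]
  exact (hE m).2.1 g A x.1

end HGX
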