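import Pool.Agent.HGX.Stmts

/-!
# MAE: the induction, with explicit bounds
-/

namespace HGX

open HGP

namespace MAE

theorem abs_lt (c : ℤ) : |c| < 2 ^ sz c := by
  rw [Int.abs_eq_natAbs]
  exact_mod_cast Nat.lt_size_self c.natAbs

theorem sz_sub (c : ℤ) : sz (c - 1) ≤ sz c + 1 := by
  unfold sz
  rw [Nat.size_le]
  have h1 : c.natAbs < 2 ^ c.natAbs.size := Nat.lt_size_self _
  have h2 : (c - 1).natAbs ≤ c.natAbs + 1 := by omega
  have h3 : 2 ^ (c.natAbs.size + 1) = 2 * 2 ^ c.natAbs.size := by rw [pow_succ, mul_comm]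
  omega

/-- The arithmetic of the bounds. -/
theorem arith (d C t s : ℕ) (c : ℤ) (hc : |c| < 2 ^ s) :
    (((d + 1) * (2 ^ (d + 1 + C) + 1) : ℕ) : ℤ) + |c| + 3 * ((d + 1 : ℕ) : ℤ) + 2 + 2 ^ (C + (d + 1)) +
      ((d + 1 : ℕ) : ℤ) * 2 ^ (d + 1 + C + t) ≤ 2 ^ (C + t + 2 * d + 4 + s) := by
  have h1 : d + 1 ≤ 2 ^ d := Nat.lt_two_pow_self
  set P : ℕ := 2 ^ d with hP
  set Q : ℕ := 2 ^ C with hQ
  set R : ℕ := 2 ^ t with hR
  set S : ℕ := 2 ^ s with hS
  have hP1 : 1 ≤ P := Nat.one_le_two_pow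
  have hQ1 : 1 ≤ Q := Nat.one_le_two_pow
  have hR1 : 1 ≤ R := Nat.one_le_two_pow
  have hS1 : 1 ≤ S := Nat.one_le_two_pow
  have e1 : 2 ^ (d + 1 + C) = 2 * P * Q := by rw [pow_add, pow_succ]; ring
  have e2 : 2 ^ (C + (d + 1)) = 2 * P * Q := by rw [pow_add, pow_succ]; ring
  have e3 : 2 ^ (d + 1 + C + t) = 2 * P * Q * R := by rw [pow_add, e1]
  have e4 : 2 ^ (C + t + 2 * d + 4 + s) = 16 * (P * P) * Q * R * S := by
    rw [pow_add, pow_add, pow_add, pow_add, mul_comm 2 d, pow_mul]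
    ring
  have hc' : |c| ≤ (S : ℤ) := by
    rw [hS]
    push_cast
    exact hc.le
  have key : (d + 1) * (2 ^ (d + 1 + C) + 1) + S + 3 * (d + 1) + 2 + 2 ^ (C + (d + 1)) +
      (d + 1) * 2 ^ (d + 1 + C + t) ≤ 2 ^ (C + t + 2 * d + 4 + s) := by
    rw [e1, e2, e3, e4]
    have a1 : (d + 1) * (2 * P * Q + 1) ≤ P * (2 * P * Q + 1) := Nat.mul_le_mul_right _ h1
    have a2 : (d + 1) * (2 * P * Q * R) ≤ P * (2 * P * Q * R) := Nat.mul_le_mul_right _ h1
    have hQR : 1 ≤ Q * R := Nat.one_le_iff_ne_zero.2 (by positivity)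
    have hPQR : P ≤ P * P * (Q * R) := by nlinarith [Nat.mul_le_mul hP1 hP1, Nat.mul_le_mul (Nat.mul_le_mul hP1 (le_refl P)) hQR]
    have hPPQR : 1 ≤ P * P * (Q * R) := hP1.trans hPQR
    have hS2 : S ≤ P * P * (Q * R) * S := Nat.le_mul_of_pos_left _ hPPQR
    have b1 : P * P * Q ≤ P * P * (Q * R) := by
      rw [← mul_assoc]
      exact Nat.le_mul_of_pos_right _ hR1
    have b2 : P * Q ≤ P * P * (Q * R) := by
      calc P * Q ≤ P * (P * (Q * R)) := Nat.mul_le_mul_left _ (by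
            calc Q ≤ Q * R := Nat.le_mul_of_pos_right _ hR1
              _ ≤ P * (Q * R) := Nat.le_mul_of_pos_left _ hP1)
        _ = P * P * (Q * R) := by ring
    have b3 : P * P * (Q * R) ≤ P * P * (Q * R) * S := Nat.le_mul_of_pos_right _ hS1
    have e5 : 16 * (P * P) * Q * R * S = 16 * (P * P * (Q * R) * S) := by ring
    have e6 : P * (2 * P * Q + 1) = 2 * (P * P * Q) + P := by ring
    have e7 : P * (2 * P * Q * R) = 2 * (P * P * (Q * R)) := by ring
    have e8 : 2 * P * Q = 2 * (P * Q) := by ring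
    rw [e6] at a1
    rw [e7] at a2
    calc (d + 1) * (2 * P * Q + 1) + S + 3 * (d + 1) + 2 + 2 * P * Q + (d + 1) * (2 * P * Q * R)
        ≤ (2 * (P * P * Q) + P) + S + 3 * (d + 1) + 2 + 2 * (P * Q) + 2 * (P * P * (Q * R)) := by
          rw [← e8]
          omega
      _ ≤ 16 * (P * P * (Q * R) * S) := by
          generalize P * P * (Q * R) * S = W at *
          generalize P * P * (Q * R) = V at *
          generalize P * P * Q = V1 at *
          generalize P * Q = V2 at *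
          clear a1 a2 e5 e6 e7 e8
          omega
      _ = 16 * (P * P) * Q * R * S := e5.symm
  have key' : (((d + 1) * (2 ^ (d + 1 + C) + 1) + S + 3 * (d + 1) + 2 + 2 ^ (C + (d + 1)) +
      (d + 1) * 2 ^ (d + 1 + C + t) : ℕ) : ℤ) ≤ ((2 ^ (C + t + 2 * d + 4 + s) : ℕ) : ℤ) := by
    exact_mod_cast key
  push_cast at key' ⊢
  linarith

theorem size_bound (d x : ℕ) : x + 2 * d + 6 ≤ 4 ^ (d + 1) * (2 * x + 2) := by
  have h : ∀ d : ℕ, 2 * d + 6 ≤ 2 * 4 ^ (d + 1) := by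
    intro d
    induction d with
    | zero => norm_num
    | succ d ih =>
      rw [pow_succ]
      omega
  have h1 := h d
  have h2 : 1 ≤ 4 ^ (d + 1) := Nat.one_le_pow _ _ (by norm_num)
  nlinarith

end MAE

open MAE in
theorem t_MAE : Stmt_MAE := by
  intro hKRE hCKE hFSE hQZE d
  induction d with
  | zero =>
    intro c t C hct hC q
    apply hQZE c t C q
    · simpa using hct
    · refine (abs_lt c).trans_le (pow_le_pow_right₀ (by norm_num) ?_)
      omega
  | succ d ih =>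
    intro c t C' hct hC'
    have hct' : (d : ℤ) - (c - 1) < 2 ^ t := by
      push_cast at hct
      linarith
    set C : ℕ := 4 ^ (d + 1) * (t + sz (c - 1) + 2) with hC
    have hC1 : 1 ≤ C := by
      rw [hC]
      exact Nat.one_le_iff_ne_zero.2 (by positivity)
    have h1 : ∀ q, Inj d (c - 1) t C q ∧ Sur d (c - 1) t C q := ih (c - 1) t C hct' le_rfl
    have hTor : Tor (d + 1) c t C := KR1 d c t C hC1 hct fun q => (h1 q).1
    have hCok : Cok d c t C := CK2 d c t C hC1 hct fun q => (h1 q).2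
    have hSur : ∀ q : ℤ, (((d + 1) * (2 ^ (d + 1 + C) + 1) : ℕ) : ℤ) < q → Sur (d + 1) c t C q := by
      intro q hq
      apply hCKE d c t C hCok q
      push_cast at hq
      exact hq
    have hInj := hKRE (d + 1) c t C _ hct hTor hSur
    have hsz := sz_sub c
    have hβ := arith d C t (sz c) c (abs_lt c)
    refine hFSE (d + 1) c t C (C + t + 2 * d + 4 + sz c) hct (fun q hq => ⟨hInj q ?_, hSur q ?_⟩) C' ?_
    · exact lt_of_le_of_lt hβ hq
    · refine lt_of_le_of_lt ?_ hq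
      refine le_trans ?_ hβ
      have a1 : (0 : ℤ) ≤ |c| := abs_nonneg c
      have a2 : (0 : ℤ) ≤ 3 * ((d + 1 : ℕ) : ℤ) := by positivity
      have a3 : (0 : ℤ) ≤ 2 ^ (C + (d + 1)) := by positivity
      have a4 : (0 : ℤ) ≤ ((d + 1 : ℕ) : ℤ) * 2 ^ (d + 1 + C + t) := by positivity
      linarith
    · refine le_trans ?_ hC'
      have hb := size_bound d (t + sz c)
      have hCle : C ≤ 4 ^ (d + 1) * (t + sz c + 3) := by
        rw [hC]
        exact Nat.mul_le_mul_left _ (by omega)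
      have e : 4 ^ (d + 1 + 1) * (t + sz c + 2) = 4 ^ (d + 1) * (4 * (t + sz c) + 8) := by
        rw [pow_succ]
        ring
      rw [e]
      have e2 : 4 ^ (d + 1) * (4 * (t + sz c) + 8) =
          2 * (4 ^ (d + 1) * (t + sz c + 3)) + 4 ^ (d + 1) * (2 * (t + sz c) + 2) := by ring
      rw [e2]
      omega

end HGX
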