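import Pool.Agent.HGX.Stmts

/-!
# HGX, module NUE
-/

set_option autoImplicit false

namespace HGX

open HGP MvPolynomial

namespace NUE

lemma mono {d : ℕ} (N : ℕ) (m : Fin d →₀ ℕ) (b : ℕ) (hm : m.degree = b) (hb : d * N < b) :
    ∃ i, N ≤ m i := by
  by_contra hcon
  push Not at hcon
  have h1 : m.degree = ∑ i, m i := by
    rw [Finsupp.degree_eq_sum]
  have h2 : ∑ i, m i ≤ ∑ _i : Fin d, N := Finset.sum_le_sum fun i _ => (hcon i).le
  rw [Finset.sum_const, Finset.card_univ, Fintype.card_fin, smul_eq_mul] at h2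
  omega

end NUE

theorem t_NUE : Stmt_NUE := by
  intro h d s b r hb hr
  have hdeg : ∀ m ∈ r.support, m.degree = b := by
    intro m hm
    have h1 : r.IsHomogeneous b := hr
    have h2 := h1 (MvPolynomial.mem_support_iff.1 hm)
    rw [← h2, Finsupp.degree_eq_weight_one]
    rfl
  rw [MvPolynomial.as_sum r]
  refine Ideal.sum_mem _ fun m hm => ?_
  rcases d with _ | d
  · obtain ⟨i, -⟩ := NUE.mono 0 m b (hdeg m hm) (by simpa using hb)
    exact i.elim0
  · have hN : (d + 1) * 2 ^ (d + s) < b := by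
      refine lt_of_le_of_lt ?_ hb
      refine Nat.mul_le_mul_left _ (Nat.pow_le_pow_right (by norm_num) (by omega))
    obtain ⟨i, hi⟩ := NUE.mono (2 ^ (d + s)) m b (hdeg m hm) hN
    have h1 : m = Finsupp.single i (2 ^ (d + s)) + (m - Finsupp.single i (2 ^ (d + s))) := by
      rw [add_tsub_cancel_of_le]
      exact Finsupp.single_le_iff.2 hi
    have h2 : monomial m (coeff m r) = X i ^ 2 ^ (d + s) *
        monomial (m - Finsupp.single i (2 ^ (d + s))) (coeff m r) := by
      rw [X_pow_eq_monomial, monomial_mul, one_mul, ← h1]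
    rw [h2]
    exact Ideal.mul_mem_right _ _ (h d s i)

end HGX
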