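import Pool.Agent.HGX.Stmts

/-!
# QZE: no variables, explicit bound
-/

namespace HGX

open HGP MvPolynomial

theorem t_QZE : Stmt_QZE := by
  intro c t C q hc hC
  rcases le_or_gt q 0 with h | h
  · exact QZR.1 0 c t C q (by simpa using hc) h
  · have hbig : c < 2 ^ C := (le_abs_self c).trans_lt hC
    refine ⟨?_, ?_⟩
    · intro n hn f hf _
      have hn0 : n ≠ 0 := by
        rintro rfl
        have h1 : (2 : ℤ) ^ C ≤ 2 ^ (C + t) := pow_le_pow_right₀ (by norm_num) (Nat.le_add_right _ _)
        have h2 : (2 : ℤ) ^ (C + t) * 1 ≤ 2 ^ (C + t) * q :=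
          mul_le_mul_of_nonneg_left (by omega) (by positivity)
        have h3 : ((0 : ℕ) : ℤ) = 0 := rfl
        rw [h3] at hn
        linarith
      rw [HGP.QZR.hg_zero hn0 hf]
      exact Submodule.zero_mem _
    · intro n k m n' r g hn hn' hr u hu ν hν
      obtain ⟨hkm, -⟩ := LIN.2.2.1 _ _ _ g
      have hk : k = 0 := by omega
      subst hk
      have hn0 : n' ≠ 0 := by
        rintro rfl
        have h1 : (0 : ℤ) < 2 ^ C * q := mul_pos (by positivity) h
        simp only [Nat.cast_zero, sub_zero] at hn'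
        omega
      rw [HGP.QZR.hg_zero hn0 hu]
      refine ⟨0, Submodule.zero_mem _, fun μ _ => ?_, fun k' m' g' μ' _ _ => ?_⟩
      · rw [map_zero, smul_zero, sub_zero]
        exact Submodule.zero_mem _
      · rw [map_zero]
        exact Submodule.zero_mem _

end HGX
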