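import Mathlib
import Pool.Agent.HGX.Stmts

/-!
# HGX, module SPL: splitting of an element of the kernel
-/

set_option autoImplicit false

namespace HGX

open HGP MvPolynomial

namespace SPL

lemma degree_le {d N : ℕ} (s : Fin d →₀ ℕ) (h : ∀ i, s i < N) : s.degree ≤ d * N := by
  rw [Finsupp.degree_eq_sum]
  calc ∑ i, s i ≤ ∑ _i : Fin d, N := Finset.sum_le_sum fun i _ => (h i).le
    _ = d * N := by simp

/-- a homogeneous polynomial of large degree is a combination of the `X_j ^ N` -/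
lemma split {d N n n₁ : ℕ} (hN : d * N < n) (hn : n = n₁ + N) (f : PS (Fin d))
    (hf : f ∈ Hg (Fin d) n) :
    ∃ h : Fin d → PS (Fin d), (∀ j, h j ∈ Hg (Fin d) n₁) ∧ f = ∑ j, (X j : PS (Fin d)) ^ N * h j := by
  rw [f.as_sum]
  refine Finset.sum_induction _ (fun g : PS (Fin d) => ∃ h : Fin d → PS (Fin d),
    (∀ j, h j ∈ Hg (Fin d) n₁) ∧ g = ∑ j, (X j : PS (Fin d)) ^ N * h j) ?_ ?_ ?_
  · rintro a b ⟨h, h1, rfl⟩ ⟨h', h1', rfl⟩
    refine ⟨fun j => h j + h' j, fun j => Submodule.add_mem _ (h1 j) (h1' j), ?_⟩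
    rw [← Finset.sum_add_distrib]
    exact Finset.sum_congr rfl fun j _ => by ring
  · exact ⟨fun _ => 0, fun _ => Submodule.zero_mem _, by simp⟩
  · intro s hs
    have hs' : s.degree = n := by
      have h1 := (mem_homogeneousSubmodule n f).1 hf (mem_support_iff.1 hs)
      rw [← h1, Finsupp.degree_eq_weight_one]
      rfl
    obtain ⟨j, hj⟩ : ∃ j, N ≤ s j := by
      by_contra hcon
      push Not at hcon
      have := degree_le s hcon
      omega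
    have hle : Finsupp.single j N ≤ s := by
      rw [Finsupp.single_le_iff]
      exact hj
    refine ⟨Pi.single j (monomial (s - Finsupp.single j N) (coeff s f)), ?_, ?_⟩
    · intro i
      rcases eq_or_ne i j with rfl | hij
      · rw [Pi.single_eq_same]
        apply isHomogeneous_monomial
        have h2 : (s - Finsupp.single i N).degree + (Finsupp.single i N).degree = s.degree := by
          rw [← map_add, tsub_add_cancel_of_le hle]
        rw [Finsupp.degree_single] at h2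
        omega
      · rw [Pi.single_eq_of_ne hij]
        exact Submodule.zero_mem _
    · rw [Finset.sum_eq_single j]
      · rw [Pi.single_eq_same, X_pow_eq_monomial, monomial_mul, one_mul, add_comm,
          tsub_add_cancel_of_le hle]
      · intro i _ hij
        rw [Pi.single_eq_of_ne hij, mul_zero]
      · intro h
        exact absurd (Finset.mem_univ j) h

/-- a symmetric double sum with zero diagonal vanishes in characteristic two -/
lemma double {d : ℕ} (G : Fin d → Fin d → PS (Fin d)) (y : Fin d → PS (Fin d))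
    (h0 : ∀ i, G i i = 0) (hs : ∀ i j, G i j = G j i) :
    ∑ j, y j * ∑ i, y i * G i j = 0 := by
  simp only [Finset.mul_sum]
  rw [← Finset.sum_product']
  refine Finset.sum_involution (fun p _ => (p.2, p.1)) ?_ ?_ ?_ ?_
  · rintro ⟨a, b⟩ _
    show y a * (y b * G b a) + y b * (y a * G a b) = 0
    rw [hs a b, show y a * (y b * G b a) = y b * (y a * G b a) by ring]
    exact CharTwo.add_self_eq_zero _
  · rintro ⟨a, b⟩ _ h h'
    rw [Prod.mk.injEq] at h'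
    apply h
    show y a * (y b * G b a) = 0
    have hb : b = a := h'.1
    rw [hb, h0, mul_zero, mul_zero]
  · rintro ⟨a, b⟩ _
    exact Finset.mem_product.2 ⟨Finset.mem_univ _, Finset.mem_univ _⟩
  · rintro ⟨a, b⟩ _
    rfl

/-- the projection of a combination of the `X_j ^ 2 ^ (C + t)` -/
lemma pj_comb {d : ℕ} {c : ℤ} {t C k m : ℕ} (g : WS (Fin d) ≃ₗ[ZMod 2] WS (Fin k ⊕ Fin m))
    (μ : PS (Fin m) →ₗ[ZMod 2] ZMod 2) (hμ : Ad c k m μ) (hdc : (d : ℤ) - c < 2 ^ t)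
    (h : Fin d → PS (Fin d)) :
    pj t g μ (∑ j, (X j : PS (Fin d)) ^ 2 ^ (C + t) * h j) =
      ∑ j, lj g j ^ 2 ^ C * pj t g μ (h j) := by
  rw [map_sum]
  refine Finset.sum_congr rfl fun j _ => ?_
  exact PJB.1 d c t C k m g μ hμ hdc (X j) (h j)

/-- one subspace -/
lemma one (hGKL : P_GKL) (d : ℕ) (c : ℤ) (t C B : ℕ) (q : ℤ) (hdc : (d : ℤ) - c < 2 ^ t)
    (hSur : ∀ q' : ℤ, (B : ℤ) < q' → Sur d c t C q')
    (hq : (B : ℤ) + |c| + 3 * d + 2 + 2 ^ (C + d) < q) (n₁ n₂ : ℕ)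
    (hn₁ : (n₁ : ℤ) = 2 ^ (C + t) * (q - 1) - c) (hn₂ : (n₂ : ℤ) = 2 ^ (C + t) * (q - 2) - c)
    (h0 : Fin d → PS (Fin d)) (hh0 : ∀ j, h0 j ∈ Hg (Fin d) n₁)
    (hKK : KK c t C (∑ j, (X j : PS (Fin d)) ^ 2 ^ (C + t) * h0 j))
    (k m : ℕ) (g : WS (Fin d) ≃ₗ[ZMod 2] WS (Fin k ⊕ Fin m)) :
    ∃ F : Fin d → Fin d → PS (Fin d), (∀ i j, F i j ∈ Hg (Fin d) n₂) ∧ (∀ i, F i i = 0) ∧
      (∀ i j, F i j = F j i) ∧
      (∀ (j : Fin d) (μ : PS (Fin m) →ₗ[ZMod 2] ZMod 2), Ad c k m μ →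
        pj t g μ (h0 j - ∑ i, (X i : PS (Fin d)) ^ 2 ^ (C + t) * F i j) ∈ NN (Fin k) C) ∧
      ∀ (j : Fin d) (k' m' : ℕ) (g' : WS (Fin d) ≃ₗ[ZMod 2] WS (Fin k' ⊕ Fin m'))
        (μ : PS (Fin m') →ₗ[ZMod 2] ZMod 2), Ad c k' m' μ → An g' ≠ An g →
          pj t g' μ (∑ i, (X i : PS (Fin d)) ^ 2 ^ (C + t) * F i j) ∈ NN (Fin k') C := by
  have hkm := (LIN.2.2.1 d k m g).1
  by_cases hk : (k : ℤ) < c
  · refine ⟨fun _ _ => 0, fun _ _ => Submodule.zero_mem _, fun _ => rfl, fun _ _ => rfl,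
      fun j μ hμ => ?_, fun j k' m' g' μ hμ _ => ?_⟩
    · rw [DET.ad_zero hμ hk, DET.pj_zero]
      exact Submodule.zero_mem _
    · simp only [mul_zero, Finset.sum_const_zero, map_zero]
      exact Submodule.zero_mem _
  obtain ⟨r, hr⟩ : ∃ r : ℕ, (r : ℤ) = k - c := ⟨((k : ℤ) - c).toNat, by omega⟩
  have hP1 : (1 : ℤ) ≤ 2 ^ C := one_le_pow₀ (by norm_num)
  have hPd : (0 : ℤ) < 2 ^ (C + d) := by positivity
  have habs := le_abs_self c
  have hk' : (k : ℤ) ≤ d := by omega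
  -- the degree of the `Z`
  obtain ⟨a, ha⟩ : ∃ a : ℕ, (a : ℤ) = 2 ^ C * (q - 2) - k := by
    have h1 : (1 : ℤ) * (q - 2) ≤ 2 ^ C * (q - 2) :=
      mul_le_mul_of_nonneg_right hP1 (by have := abs_nonneg c; omega)
    have h2 : (0 : ℤ) ≤ 2 ^ C * (q - 2) - k := by
      have := abs_nonneg c
      omega
    exact ⟨(2 ^ C * (q - 2) - k).toNat, Int.toNat_of_nonneg h2⟩
  have hGd : k * 2 ^ C + 2 ^ (2 * C + k) < a + 2 * 2 ^ C := by
    have h1 : (2 : ℤ) ^ (C + k) ≤ 2 ^ (C + d) := pow_le_pow_right₀ (by norm_num) (by omega)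
    have h2 : (2 : ℤ) ^ (2 * C + k) = 2 ^ C * 2 ^ (C + k) := by rw [← pow_add]; congr 1; ring
    have h3 : (2 : ℤ) ^ C * (3 * d + 2 + 2 ^ (C + k)) ≤ 2 ^ C * q :=
      mul_le_mul_of_nonneg_left (by have := abs_nonneg c; omega) (by positivity)
    have h4 : (2 : ℤ) ^ C * k ≤ 2 ^ C * d := mul_le_mul_of_nonneg_left hk' (by positivity)
    have h5 : (0 : ℤ) ≤ (2 ^ C - 1) * d := mul_nonneg (by omega) (by positivity)
    have h6 : (k : ℤ) * 2 ^ C + 2 ^ (2 * C + k) < a + 2 * 2 ^ C := by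
      rw [ha, h2]
      nlinarith
    exact_mod_cast h6
  obtain ⟨ν, μs, hν, hμs, -, hspan⟩ := DUB m r
  have hAd : ∀ i, Ad c k m (μs i) := fun i =>
    ⟨(hμs i).1, fun s hs b hb => (hμs i).2 s (by omega) b hb⟩
  -- the elements `Z`
  have hZ : ∀ i, ∃ Z : Fin d → Fin d → PS (Fin k), (∀ j j', Z j j' ∈ Hg (Fin k) a) ∧
      (∀ j, Z j j = 0) ∧ (∀ j j', Z j j' = Z j' j) ∧
      ∀ j, pj t g (μs i) (h0 j) - ∑ j', lj g j' ^ 2 ^ C * Z j' j ∈ NN (Fin k) C := by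
    intro i
    refine hGKL d k m C a g (fun j => pj t g (μs i) (h0 j)) hGd ?_ ?_
    · intro j
      refine PJB.2.2.2.1 d c t k m n₁ (a + 2 ^ C) r g (μs i) (hAd i) (h0 j) (hh0 j) hr ?_
      have h1 : ((n₁ + k : ℕ) : ℤ) = ((2 ^ t * (a + 2 ^ C + k) + r : ℕ) : ℤ) := by
        push_cast
        rw [hn₁, ha, hr, pow_add]
        ring
      exact_mod_cast h1
    · rw [← pj_comb g (μs i) (hAd i) hdc h0]
      exact hKK k m g (μs i) (hAd i)
  choose Z hZa hZ0 hZs hZN using hZ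
  -- the lifts
  have hL : ∀ (i : Fin (Pool.Agent.Lib_helper74.Hit.qd (Fin m) r)) (j j' : Fin d),
      ∃ F : PS (Fin d), Lft c t C n₂ g (Z i j j') (ν i) F := by
    intro i j j'
    refine hSur (q - 2) (by have := abs_nonneg c; omega) n₂ k m a r g hn₂ ha hr (Z i j j')
      (hZa i j j') (ν i) (hν i)
  choose F hF using hL
  set F' : Fin (Pool.Agent.Lib_helper74.Hit.qd (Fin m) r) → Fin d → Fin d → PS (Fin d) :=
    fun i j j' => if j < j' then F i j j' else if j' < j then F i j' j else 0 with hF'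
  have hF'L : ∀ i j j', Lft c t C n₂ g (Z i j j') (ν i) (F' i j j') := by
    intro i j j'
    simp only [hF']
    split_ifs with h1 h2
    · exact hF i j j'
    · rw [hZs i j j']
      exact hF i j' j
    · have h3 : j = j' := le_antisymm (not_lt.1 h2) (not_lt.1 h1)
      rw [h3, hZ0]
      exact TRN.2.2.2 d c t C n₂ k m g (ν i)
  have hF'0 : ∀ i j, F' i j j = 0 := by
    intro i j
    simp only [hF']
    rw [if_neg (lt_irrefl j), if_neg (lt_irrefl j)]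
  have hF's : ∀ i j j', F' i j j' = F' i j' j := by
    intro i j j'
    simp only [hF']
    rcases lt_trichotomy j j' with h | h | h
    · rw [if_pos h, if_neg (not_lt.2 h.le), if_pos h]
    · rw [h]
    · rw [if_neg (not_lt.2 h.le), if_pos h, if_pos h]
  refine ⟨fun j j' => ∑ i, F' i j j', fun j j' => Submodule.sum_mem _ fun i _ => (hF'L i j j').1,
    fun j => Finset.sum_eq_zero fun i _ => hF'0 i j,
    fun j j' => Finset.sum_congr rfl fun i _ => hF's i j j', fun j μ hμ => ?_,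
    fun j k' m' g' μ hμ hg' => ?_⟩
  · have h1 : μ = ∑ i, μ (ν i) • μs i := hspan μ hμ.1 fun s hs b hb =>
      hμ.2 s (by omega) b hb
    have h2 : pj t g μ (h0 j) = ∑ i, μ (ν i) • pj t g (μs i) (h0 j) := by
      nth_rewrite 1 [h1]
      exact DET.pj_sum _ _ _ _
    have h3 : pj t g μ (h0 j - ∑ j', (X j' : PS (Fin d)) ^ 2 ^ (C + t) * ∑ i, F' i j' j) =
        ∑ i, (μ (ν i) • (pj t g (μs i) (h0 j) - ∑ j', lj g j' ^ 2 ^ C * Z i j' j) -
          ∑ j', lj g j' ^ 2 ^ C * (pj t g μ (F' i j' j) - μ (ν i) • Z i j' j)) := by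
      rw [map_sub, pj_comb g μ hμ hdc, h2]
      have e1 : ∑ j', lj g j' ^ 2 ^ C * pj t g μ (∑ i, F' i j' j) =
          ∑ i, ∑ j', lj g j' ^ 2 ^ C * pj t g μ (F' i j' j) := by
        rw [Finset.sum_comm]
        refine Finset.sum_congr rfl fun j' _ => ?_
        rw [map_sum, Finset.mul_sum]
      rw [e1, ← Finset.sum_sub_distrib]
      refine Finset.sum_congr rfl fun i _ => ?_
      rw [smul_sub, Finset.smul_sum]
      simp only [mul_sub, Finset.sum_sub_distrib, mul_smul_comm]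
      ring
    rw [h3]
    refine Submodule.sum_mem _ fun i _ => Submodule.sub_mem _
      (Submodule.smul_mem _ _ (hZN i j)) (Submodule.sum_mem _ fun j' _ => ?_)
    exact NNB.1 (Fin k) C _ _ ((hF'L i j' j).2.1 μ hμ)
  · rw [pj_comb g' μ hμ hdc]
    refine Submodule.sum_mem _ fun j' _ => NNB.1 (Fin k') C _ _ ?_
    rw [map_sum]
    exact Submodule.sum_mem _ fun i _ => (hF'L i j' j).2.2 k' m' g' μ hμ hg'

end SPL

open SPL in
theorem t_SPL : Stmt_SPL := by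
  intro hGKL hCHK d c t C B q hdc hSur hq n f hn hf hKf
  have hN1 : (1 : ℤ) ≤ 2 ^ (C + t) := one_le_pow₀ (by norm_num)
  have hPd : (0 : ℤ) < 2 ^ (C + d) := by positivity
  have habs := le_abs_self c
  have habs0 := abs_nonneg c
  obtain ⟨n₁, hn₁⟩ : ∃ n₁ : ℕ, (n₁ : ℤ) = 2 ^ (C + t) * (q - 1) - c := by
    have h1 : (1 : ℤ) * (q - 1) ≤ 2 ^ (C + t) * (q - 1) :=
      mul_le_mul_of_nonneg_right hN1 (by omega)
    exact ⟨(2 ^ (C + t) * (q - 1) - c).toNat, Int.toNat_of_nonneg (by omega)⟩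
  obtain ⟨n₂, hn₂⟩ : ∃ n₂ : ℕ, (n₂ : ℤ) = 2 ^ (C + t) * (q - 2) - c := by
    have h1 : (1 : ℤ) * (q - 2) ≤ 2 ^ (C + t) * (q - 2) :=
      mul_le_mul_of_nonneg_right hN1 (by omega)
    exact ⟨(2 ^ (C + t) * (q - 2) - c).toNat, Int.toNat_of_nonneg (by omega)⟩
  have e1 : n = n₁ + 2 ^ (C + t) := by
    have : (n : ℤ) = ((n₁ + 2 ^ (C + t) : ℕ) : ℤ) := by
      push_cast
      rw [hn, hn₁]
      ring
    exact_mod_cast this
  have e2 : n₁ = 2 ^ (C + t) + n₂ := by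
    have : (n₁ : ℤ) = ((2 ^ (C + t) + n₂ : ℕ) : ℤ) := by
      push_cast
      rw [hn₂, hn₁]
      ring
    exact_mod_cast this
  have e3 : d * 2 ^ (C + t) < n := by
    have h1 : (2 : ℤ) ^ (C + t) * (|c| + d + 1) ≤ 2 ^ (C + t) * q :=
      mul_le_mul_of_nonneg_left (by omega) (by positivity)
    have h2 : (0 : ℤ) ≤ (2 ^ (C + t) - 1) * |c| := mul_nonneg (by omega) habs0
    have h3 : (d : ℤ) * 2 ^ (C + t) < n := by
      rw [hn]
      nlinarith
    exact_mod_cast h3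
  obtain ⟨h0, hh0, hf0⟩ := split e3 e1 f hf
  rw [hf0] at hKf
  have hLIN : ∀ Λ : Submodule (ZMod 2) (WS (Fin d)), ∃ (k m : ℕ)
      (g : WS (Fin d) ≃ₗ[ZMod 2] WS (Fin k ⊕ Fin m)), An g = Λ := by
    intro Λ
    obtain ⟨k₀, g₀, h⟩ := LIN.1 d Λ
    exact ⟨k₀, _, g₀, h⟩
  choose k m g hg using hLIN
  choose F hFn hF0 hFs hFa hFb using fun Λ : Submodule (ZMod 2) (WS (Fin d)) =>
    one hGKL d c t C B q hdc hSur hq n₁ n₂ hn₁ hn₂ h0 hh0 hKf (k Λ) (m Λ) (g Λ)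
  have : Fintype (Submodule (ZMod 2) (WS (Fin d))) := Fintype.ofFinite _
  classical
  refine ⟨n₁, fun j => h0 j - ∑ Λ, ∑ i, (X i : PS (Fin d)) ^ 2 ^ (C + t) * F Λ i j, hn₁,
    fun j => ⟨?_, ?_⟩, ?_⟩
  · refine Submodule.sub_mem _ (hh0 j) (Submodule.sum_mem _ fun Λ _ =>
      Submodule.sum_mem _ fun i _ => ?_)
    have h1 : (X i : PS (Fin d)) ^ 2 ^ (C + t) ∈ Hg (Fin d) (2 ^ (C + t)) := by
      have := (isHomogeneous_X (ZMod 2) i).pow (2 ^ (C + t))
      rw [one_mul] at this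
      exact this
    rw [e2]
    exact IsHomogeneous.mul h1 (hFn Λ i j)
  · refine hCHK d c t C _ hdc fun Λ => ⟨k Λ, m Λ, g Λ, hg Λ, fun μ hμ => ?_⟩
    have h1 : h0 j - ∑ Λ', ∑ i, (X i : PS (Fin d)) ^ 2 ^ (C + t) * F Λ' i j =
        (h0 j - ∑ i, (X i : PS (Fin d)) ^ 2 ^ (C + t) * F Λ i j) -
          ∑ Λ' ∈ Finset.univ.erase Λ, ∑ i, (X i : PS (Fin d)) ^ 2 ^ (C + t) * F Λ' i j := by
      rw [← Finset.add_sum_erase Finset.univ _ (Finset.mem_univ Λ)]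
      ring
    beta_reduce
    rw [h1, map_sub, map_sum]
    refine Submodule.sub_mem _ (hFa Λ j μ hμ) (Submodule.sum_mem _ fun Λ' hΛ' => ?_)
    refine hFb Λ' j (k Λ) (m Λ) (g Λ) μ hμ ?_
    rw [hg, hg]
    exact (Finset.ne_of_mem_erase hΛ').symm
  · have h1 : ∑ j, (X j : PS (Fin d)) ^ 2 ^ (C + t) *
        (h0 j - ∑ Λ, ∑ i, (X i : PS (Fin d)) ^ 2 ^ (C + t) * F Λ i j) =
        (∑ j, (X j : PS (Fin d)) ^ 2 ^ (C + t) * h0 j) -
          ∑ Λ, ∑ j, (X j : PS (Fin d)) ^ 2 ^ (C + t) *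
            ∑ i, (X i : PS (Fin d)) ^ 2 ^ (C + t) * F Λ i j := by
      rw [Finset.sum_comm (s := (Finset.univ : Finset (Submodule (ZMod 2) (WS (Fin d)))))]
      rw [← Finset.sum_sub_distrib]
      refine Finset.sum_congr rfl fun j _ => ?_
      rw [mul_sub, Finset.mul_sum]
    have h2 : ∑ Λ, ∑ j, (X j : PS (Fin d)) ^ 2 ^ (C + t) *
        ∑ i, (X i : PS (Fin d)) ^ 2 ^ (C + t) * F Λ i j = 0 :=
      Finset.sum_eq_zero fun Λ _ =>
        double (F Λ) (fun j => (X j : PS (Fin d)) ^ 2 ^ (C + t)) (hF0 Λ) (hFs Λ)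
    rw [h1, h2, sub_zero]
    exact hf0

end HGX
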