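import Pool.Agent.HGX.Stmts

/-!
# SVI: powers of the variables are in the ideal of the powers of the products of linear forms
-/

namespace HGX

open HGP MvPolynomial

namespace SVI

section

variable {ι A : Type} [DecidableEq ι] [CommRing A]

/-- The product of `z + ∑ a i` over all subsets. -/
def L (s : Finset ι) (a : ι → A) (z : A) : A := ∏ U ∈ s.powerset, (z + ∑ i ∈ U, a i)

omit [DecidableEq ι] in
theorem L_empty (a : ι → A) (z : A) : L ∅ a z = z := by
  simp [L]

theorem L_insert {s : Finset ι} {j : ι} (h : j ∉ s) (a : ι → A) (z : A) :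
    L (insert j s) a z = L s a z * L s a (z + a j) := by
  unfold L
  rw [Finset.prod_powerset_insert h]
  congr 1
  refine Finset.prod_congr rfl fun U hU => ?_
  rw [Finset.sum_insert fun h' => h (Finset.mem_powerset.1 hU h')]
  ring

omit [DecidableEq ι] in
theorem L_congr {s : Finset ι} {a b : ι → A} (h : ∀ i ∈ s, a i = b i) (z : A) :
    L s a z = L s b z := by
  unfold L
  refine Finset.prod_congr rfl fun U hU => ?_
  rw [Finset.sum_congr rfl fun i hi => h i (Finset.mem_powerset.1 hU hi)]

theorem L_add [CharP A 2] (s : Finset ι) (a : ι → A) : ∀ z w : A,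
    L s a (z + w) = L s a z + L s a w := by
  induction s using Finset.induction_on with
  | empty =>
    intro z w
    rw [L_empty, L_empty, L_empty]
  | insert j s h ih =>
    intro z w
    rw [L_insert h, L_insert h, L_insert h, ih (z + w), ih z w, ih z (a j), ih w (a j)]
    linear_combination (L s a z * L s a w) * (CharTwo.two_eq_zero : (2 : A) = 0)

theorem ident [CharP A 2] (s : Finset ι) (x : A) (y : ι → A) :
    x ^ 2 ^ s.card = ∑ V ∈ s.powerset, L s (fun i => y i + if i ∈ V then x else 0) x := by
  induction s using Finset.induction_on with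
  | empty =>
    rw [Finset.card_empty, pow_zero, pow_one, Finset.powerset_empty, Finset.sum_singleton, L_empty]
  | insert j s h ih =>
    rw [Finset.card_insert_of_notMem h, pow_succ 2, pow_mul, ih, CharTwo.sum_sq,
      Finset.sum_powerset_insert h, ← Finset.sum_add_distrib]
    refine Finset.sum_congr rfl fun V hV => ?_
    have hj : j ∉ V := fun h' => h (Finset.mem_powerset.1 hV h')
    have hc : ∀ z, L s (fun i => y i + if i ∈ insert j V then x else 0) z =
        L s (fun i => y i + if i ∈ V then x else 0) z := by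
      intro z
      refine L_congr (fun i hi => ?_) z
      have hij : i ≠ j := fun e => h (e ▸ hi)
      have h1 : i ∈ insert j V ↔ i ∈ V := by
        rw [Finset.mem_insert]
        exact ⟨fun h2 => h2.resolve_left hij, Or.inr⟩
      simp only [h1]
    rw [L_insert h, L_insert h, hc, hc, if_neg hj, if_pos (Finset.mem_insert_self j V), add_zero,
      L_add, L_add s _ x (y j + x), L_add s _ (y j) x]
    generalize L s (fun i => y i + if i ∈ V then x else 0) x = P
    generalize L s (fun i => y i + if i ∈ V then x else 0) (y j) = Q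
    linear_combination -(P * P + P * Q) * (CharTwo.two_eq_zero : (2 : A) = 0)

end

section

variable {n : ℕ}

/-- The functional. -/
noncomputable def vV (i : Fin n) (V : Finset (Fin n)) : WS (Fin n) →ₗ[ZMod 2] ZMod 2 :=
  (LinearMap.proj i : WS (Fin n) →ₗ[ZMod 2] ZMod 2) +
    ∑ j ∈ V, (LinearMap.proj j : WS (Fin n) →ₗ[ZMod 2] ZMod 2)

variable (i : Fin n) (V : Finset (Fin n))

theorem vV_apply (w : WS (Fin n)) : vV i V w = w i + ∑ j ∈ V, w j := by
  unfold vV
  rw [LinearMap.add_apply, LinearMap.sum_apply]
  rfl

/-- The vector of a subset. -/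
def wU (U : Finset (Fin n)) : WS (Fin n) := fun j =>
  if j = i then 1 + ∑ l ∈ U, (if l ∈ V then 1 else 0) else if j ∈ U then 1 else 0

theorem zmod2_cases (x : ZMod 2) : x = 0 ∨ x = 1 := by
  revert x
  decide

theorem Sv_eq (hi : i ∉ V) : Sv (vV i V) =
    L (Finset.univ.erase i) (fun j => (X j : PS (Fin n)) + if j ∈ V then X i else 0) (X i) := by
  unfold Sv L
  symm
  refine Finset.prod_bij (fun U _ => wU i V U) (fun U hU => ?_) (fun U hU U' hU' h => ?_)
    (fun w hw => ?_) fun U hU => ?_
  · rw [Finset.mem_filter]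
    refine ⟨Finset.mem_univ _, ?_⟩
    rw [vV_apply]
    have hiU : i ∉ U := fun h => Finset.notMem_erase i _ (Finset.mem_powerset.1 hU h)
    have h1 : ∑ j ∈ V, wU i V U j = ∑ l ∈ U, (if l ∈ V then (1 : ZMod 2) else 0) := by
      have h2 : ∀ j ∈ V, wU i V U j = if j ∈ U then 1 else 0 := by
        intro j hj
        have : j ≠ i := fun e => hi (e ▸ hj)
        unfold wU
        rw [if_neg this]
      rw [Finset.sum_congr rfl h2, Finset.sum_ite_mem, Finset.sum_ite_mem, Finset.inter_comm]
    rw [h1]
    unfold wU
    rw [if_pos rfl, add_assoc, CharTwo.add_self_eq_zero, add_zero]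
  · have hiU : i ∉ U := fun h => Finset.notMem_erase i _ (Finset.mem_powerset.1 hU h)
    have hiU' : i ∉ U' := fun h => Finset.notMem_erase i _ (Finset.mem_powerset.1 hU' h)
    ext j
    by_cases hj : j = i
    · subst hj
      exact ⟨fun h => absurd h hiU, fun h => absurd h hiU'⟩
    · have h1 := congrFun h j
      simp only [wU, if_neg hj] at h1
      by_cases h2 : j ∈ U <;> by_cases h3 : j ∈ U' <;> simp_all
  · rw [Finset.mem_filter, vV_apply] at hw
    refine ⟨(Finset.univ.erase i).filter fun j => w j = 1, ?_, ?_⟩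
    · rw [Finset.mem_powerset]
      exact Finset.filter_subset _ _
    · funext j
      unfold wU
      have h0 : ∀ l, l ≠ i → ((if w l = 1 then (1 : ZMod 2) else 0) = w l) := by
        intro l _
        rcases zmod2_cases (w l) with h | h <;> rw [h] <;> simp
      split_ifs with h1 h2
      · subst h1
        have h3 : ∑ l ∈ (Finset.univ.erase j).filter (fun l => w l = 1),
            (if l ∈ V then (1 : ZMod 2) else 0) = ∑ l ∈ V, w l := by
          rw [Finset.sum_ite_mem, Finset.filter_inter, Finset.sum_filter]
          have h4 : Finset.univ.erase j ∩ V = V := by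
            ext l
            rw [Finset.mem_inter, Finset.mem_erase]
            exact ⟨fun h => h.2, fun h => ⟨⟨fun e => hi (e ▸ h), Finset.mem_univ _⟩, h⟩⟩
          rw [h4]
          exact Finset.sum_congr rfl fun l hl => h0 l fun e => hi (e ▸ hl)
        rw [h3, ← hw.2, add_assoc, CharTwo.add_self_eq_zero, add_zero]
      · rw [Finset.mem_filter] at h2
        exact h2.2.symm
      · rw [Finset.mem_filter] at h2
        rcases zmod2_cases (w j) with h | h
        · exact h.symm
        · exact absurd ⟨Finset.mem_erase.2 ⟨h1, Finset.mem_univ _⟩, h⟩ h2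
  · have hiU : i ∉ U := fun h => Finset.notMem_erase i _ (Finset.mem_powerset.1 hU h)
    unfold lf
    rw [← Finset.add_sum_erase _ _ (Finset.mem_univ i)]
    have h1 : ∑ j ∈ Finset.univ.erase i, C (wU i V U j) * (X j : PS (Fin n)) = ∑ j ∈ U, X j := by
      have h2 : ∀ j ∈ Finset.univ.erase i, C (wU i V U j) * (X j : PS (Fin n)) =
          if j ∈ U then X j else 0 := by
        intro j hj
        unfold wU
        rw [if_neg (Finset.ne_of_mem_erase hj)]
        split_ifs
        · rw [map_one, one_mul]
        · rw [map_zero, zero_mul]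
      rw [Finset.sum_congr rfl h2, Finset.sum_ite_mem,
        Finset.inter_eq_right.2 (Finset.mem_powerset.1 hU)]
    have h3 : C (wU i V U i) * (X i : PS (Fin n)) =
        X i + ∑ j ∈ U, (if j ∈ V then X i else 0) := by
      unfold wU
      rw [if_pos rfl, map_add, map_one, add_mul, one_mul, map_sum, Finset.sum_mul]
      congr 1
      refine Finset.sum_congr rfl fun j _ => ?_
      split_ifs
      · rw [map_one, one_mul]
      · rw [map_zero, zero_mul]
    rw [h1, h3, Finset.sum_add_distrib]
    ring

end

end SVI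

/-- SVI -/
theorem t_SVI : Stmt_SVI := by
  intro d s i
  have h1 := SVI.ident (A := PS (Fin (d + 1))) (Finset.univ.erase i) (X i) X
  rw [Finset.card_erase_of_mem (Finset.mem_univ i), Finset.card_univ, Fintype.card_fin,
    Nat.add_sub_cancel] at h1
  have h2 : (X i : PS (Fin (d + 1))) ^ 2 ^ (d + s) =
      ∑ V ∈ (Finset.univ.erase i).powerset, Sv (SVI.vV i V) ^ 2 ^ s := by
    rw [pow_add, pow_mul, h1, ← sum_pow_char_pow (p := 2)]
    refine congrArg (· ^ 2 ^ s) (Finset.sum_congr rfl fun V hV => ?_)
    have hi : i ∉ V := fun h => Finset.notMem_erase i _ (Finset.mem_powerset.1 hV h)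
    exact (SVI.Sv_eq i V hi).symm
  rw [h2]
  refine Ideal.sum_mem _ fun V hV => Ideal.subset_span ⟨SVI.vV i V, ?_, rfl⟩
  have hi : i ∉ V := fun h => Finset.notMem_erase i _ (Finset.mem_powerset.1 hV h)
  intro h
  have h3 := LinearMap.congr_fun h (Pi.single i 1)
  have h4 : ∑ j ∈ V, (Pi.single i 1 : WS (Fin (d + 1))) j = 0 := by
    refine Finset.sum_eq_zero fun j hj => Pi.single_eq_of_ne ?_ 1
    rintro rfl
    exact hi hj
  rw [SVI.vV_apply, Pi.single_eq_same, LinearMap.zero_apply, h4, add_zero] at h3
  exact one_ne_zero h3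

end HGX
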