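import Pool.Agent.HGX.Stmts

/-!
# TDL: dual bases in `Q P_m`
-/

namespace HGX

open HGP MvPolynomial
open Pool.Agent.Lib_helper74.Hit (hits qd)
open scoped TensorProduct

namespace TDL

theorem Qz_nat (σ : Type) (r : ℕ) : Qz σ (r : ℤ) = (Hg σ r).map (hits σ).mkQ := by
  unfold Qz
  rw [if_pos (Int.natCast_nonneg r), Int.toNat_natCast]

theorem Qz_neg (σ : Type) {z : ℤ} (hz : z < 0) : Qz σ z = ⊥ := by
  unfold Qz
  rw [if_neg (by omega)]

theorem mem_Qz {σ : Type} {z : ℤ} {v : QS σ} (hv : v ∈ Qz σ z) :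
    v = 0 ∨ ∃ n : ℕ, (n : ℤ) = z ∧ ∃ f ∈ Hg σ n, (hits σ).mkQ f = v := by
  rcases lt_or_ge z 0 with h | h
  · rw [Qz_neg σ h, Submodule.mem_bot] at hv
    exact Or.inl hv
  · obtain ⟨n, rfl⟩ := Int.eq_ofNat_of_zero_le h
    rw [Qz_nat] at hv
    obtain ⟨f, hf, e⟩ := Submodule.mem_map.1 hv
    exact Or.inr ⟨n, rfl, f, hf, e⟩

theorem ev_tmul (k : ℕ) {m : ℕ} (ν : QS (Fin m) →ₗ[ZMod 2] ZMod 2) (a : QS (Fin k)) (v : QS (Fin m)) :
    ev k ν (a ⊗ₜ[ZMod 2] v) = ν v • a := by
  unfold ev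
  rw [LinearMap.comp_apply, TensorProduct.map_tmul, LinearMap.id_apply, LinearEquiv.coe_coe,
    TensorProduct.rid_tmul]

theorem expand (k m : ℕ) (b : ℤ) (N : ℕ) (e : Fin N → QS (Fin m))
    (ε : Fin N → (QS (Fin m) →ₗ[ZMod 2] ZMod 2))
    (h : ∀ v ∈ Qz (Fin m) b, v = ∑ i, ε i v • e i) :
    ∀ x ∈ Bs k m b, x = ∑ i, (ev k (ε i) x) ⊗ₜ[ZMod 2] (e i) := by
  rintro x ⟨y, rfl⟩
  induction y using TensorProduct.induction_on with
  | zero =>
    rw [map_zero]
    exact (Finset.sum_eq_zero fun i _ => by rw [map_zero, TensorProduct.zero_tmul]).symm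
  | tmul a v =>
    rw [TensorProduct.map_tmul, LinearMap.id_apply, Submodule.subtype_apply]
    conv_lhs => rw [h v.1 v.2, TensorProduct.tmul_sum]
    refine Finset.sum_congr rfl fun i _ => ?_
    rw [ev_tmul, TensorProduct.smul_tmul]
  | add x y hx hy =>
    rw [map_add]
    conv_lhs => rw [hx, hy, ← Finset.sum_add_distrib]
    refine Finset.sum_congr rfl fun i _ => ?_
    rw [map_add, TensorProduct.add_tmul]

end TDL

/-- TDL -/
theorem t_TDL : Stmt_TDL := by
  intro k m b
  rcases lt_or_ge b 0 with hb | hb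
  · have h4 : ∀ v ∈ Qz (Fin m) b, v = ∑ i : Fin 0,
        (fun i : Fin 0 => (i.elim0 : QS (Fin m) →ₗ[ZMod 2] ZMod 2)) i v •
          (fun i : Fin 0 => (i.elim0 : QS (Fin m))) i := by
      intro v hv
      rw [TDL.Qz_neg _ hb, Submodule.mem_bot] at hv
      rw [hv, Finset.univ_eq_empty, Finset.sum_empty]
    exact ⟨0, fun i => i.elim0, fun i => i.elim0, fun i => i.elim0, fun i => i.elim0,
      fun i => i.elim0, h4, TDL.expand k m b 0 _ _ h4⟩
  · obtain ⟨r, rfl⟩ := Int.eq_ofNat_of_zero_le hb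
    obtain ⟨ν, μ, h1, h2, h3, h4⟩ := DUB m r
    let e : Fin (qd (Fin m) r) → QS (Fin m) := fun i => (hits (Fin m)).mkQ (ν i)
    let ε : Fin (qd (Fin m) r) → (QS (Fin m) →ₗ[ZMod 2] ZMod 2) := fun i =>
      (hits (Fin m)).liftQ (μ i) fun f hf => (h2 i).1 f hf
    have hε : ∀ i f, ε i ((hits (Fin m)).mkQ f) = μ i f := fun i f => rfl
    have h5 : ∀ v ∈ Qz (Fin m) (r : ℤ), v = ∑ i, ε i v • e i := by
      intro v hv
      rw [TDL.Qz_nat] at hv
      obtain ⟨f, hf, rfl⟩ := Submodule.mem_map.1 hv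
      have hw : f - ∑ i, μ i f • ν i ∈ Hg (Fin m) r :=
        Submodule.sub_mem _ hf (Submodule.sum_mem _ fun i _ => Submodule.smul_mem _ _ (h1 i))
      have hμw : ∀ j, μ j (f - ∑ i, μ i f • ν i) = 0 := by
        intro j
        rw [map_sub, map_sum]
        have : ∀ i ∈ Finset.univ, μ j (μ i f • ν i) = if j = i then μ i f else 0 := by
          intro i _
          rw [map_smul, h3 j i, smul_eq_mul, mul_ite, mul_one, mul_zero]
        rw [Finset.sum_congr rfl this, Finset.sum_ite_eq Finset.univ j, if_pos (Finset.mem_univ j),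
          sub_self]
      have hz : (hits (Fin m)).mkQ (f - ∑ i, μ i f • ν i) = 0 := by
        rw [← Module.forall_dual_apply_eq_zero_iff (ZMod 2)]
        intro φ
        have h6 := h4 ((φ.comp (hits (Fin m)).mkQ).comp (homogeneousComponent r)) (by
          intro g hg
          have := DUB.comp_hits (Fin m) r g hg
          rw [LinearMap.comp_apply, LinearMap.comp_apply, Submodule.mkQ_apply,
            (Submodule.Quotient.mk_eq_zero _).2 this, map_zero]) (by
          intro s hs g hg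
          rw [LinearMap.comp_apply, homogeneousComponent_of_mem hg, if_neg hs.symm, map_zero])
        have h7 := LinearMap.congr_fun h6 (f - ∑ i, μ i f • ν i)
        rw [LinearMap.comp_apply, LinearMap.comp_apply, homogeneousComponent_eq_self hw,
          LinearMap.sum_apply] at h7
        rw [h7]
        refine Finset.sum_eq_zero fun i _ => ?_
        rw [LinearMap.smul_apply, hμw, smul_zero]
      rw [map_sub, map_sum, sub_eq_zero] at hz
      conv_lhs => rw [hz]
      refine Finset.sum_congr rfl fun i _ => ?_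
      rw [map_smul, hε]
    refine ⟨qd (Fin m) r, e, ε, fun i => ?_, fun i z hz v hv => ?_, fun i j => h3 i j, h5,
      TDL.expand k m r _ e ε h5⟩
    · rw [TDL.Qz_nat]
      exact Submodule.mem_map_of_mem (h1 i)
    · rcases TDL.mem_Qz hv with rfl | ⟨n, rfl, f, hf, rfl⟩
      · rw [map_zero]
      · rw [hε]
        exact (h2 i).2 n (fun h => hz (by rw [h])) f hf

end HGX
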