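import Pool.Agent.HGX.Stmts
import Pool.Agent.HGP.DET

/-!
# THT: construction of the maps `θ g`
-/

namespace HGX

open HGP MvPolynomial
open Pool.Agent.Lib_helper74.Hit (hits qd)
open scoped TensorProduct

namespace THT

theorem mem_Qz {m r : ℕ} {f : PS (Fin m)} (hf : f ∈ Hg (Fin m) r) :
    (hits (Fin m)).mkQ f ∈ Qz (Fin m) (r : ℤ) := by
  unfold Qz
  rw [if_pos (Int.natCast_nonneg r), Int.toNat_natCast]
  exact Submodule.mem_map_of_mem hf

theorem ev_tmul (k : ℕ) {m : ℕ} (ν : QS (Fin m) →ₗ[ZMod 2] ZMod 2) (u : QS (Fin k))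
    (v : QS (Fin m)) : ev k ν (u ⊗ₜ[ZMod 2] v) = ν v • u := by
  unfold ev
  rw [LinearMap.comp_apply, TensorProduct.map_tmul]
  exact TensorProduct.rid_tmul _ _

theorem mkQ_hits {m : ℕ} {f : PS (Fin m)} (hf : f ∈ hits (Fin m)) :
    (hits (Fin m)).mkQ f = 0 := by
  rw [Submodule.mkQ_apply]
  exact (Submodule.Quotient.mk_eq_zero _).2 hf

/-- an admissible linear form is a combination of the dual basis -/
theorem comb {c : ℤ} {k m N : ℕ} {e : Fin N → QS (Fin m)}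
    {ε : Fin N → (QS (Fin m) →ₗ[ZMod 2] ZMod 2)}
    (hε : ∀ i z, z ≠ (k : ℤ) - c → ∀ v ∈ Qz (Fin m) z, ε i v = 0)
    (hdec : ∀ v ∈ Qz (Fin m) ((k : ℤ) - c), v = ∑ i, ε i v • e i)
    {ν : QS (Fin m) →ₗ[ZMod 2] ZMod 2} (hν : Ad c k m (ν.comp (hits (Fin m)).mkQ)) :
    ν.comp (hits (Fin m)).mkQ = ∑ i, ν (e i) • (ε i).comp (hits (Fin m)).mkQ := by
  have hhom : ∀ (r : ℕ) (h : PS (Fin m)), h ∈ Hg (Fin m) r →
      (ν.comp (hits (Fin m)).mkQ) h =
        (∑ i, ν (e i) • (ε i).comp (hits (Fin m)).mkQ) h := by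
    intro r h hh
    rw [LinearMap.sum_apply]
    by_cases hr : (r : ℤ) = (k : ℤ) - c
    · have h1 := hdec ((hits (Fin m)).mkQ h) (hr ▸ mem_Qz hh)
      rw [LinearMap.comp_apply]
      conv_lhs => rw [h1]
      rw [map_sum]
      refine Finset.sum_congr rfl fun i _ => ?_
      rw [map_smul, LinearMap.smul_apply, LinearMap.comp_apply, smul_eq_mul, smul_eq_mul,
        mul_comm]
    · rw [hν.2 r hr h hh]
      symm
      refine Finset.sum_eq_zero fun i _ => ?_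
      rw [LinearMap.smul_apply, LinearMap.comp_apply, hε i r hr _ (mem_Qz hh), smul_zero]
  refine LinearMap.ext fun h => ?_
  rw [← MvPolynomial.sum_homogeneousComponent h, map_sum, map_sum]
  exact Finset.sum_congr rfl fun r _ => hhom r _ (MvPolynomial.homogeneousComponent_mem r h)

end THT

open THT in
theorem t_THT : Stmt_THT := by
  intro hHPJ hTDL d c t k m hdc
  obtain ⟨N, e, ε, he, hε, -, hdec, -⟩ := hTDL k m ((k : ℤ) - c)
  have hAd : ∀ i, Ad c k m ((ε i).comp (hits (Fin m)).mkQ) := by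
    intro i
    refine ⟨fun f hf => ?_, fun r hr f hf => ?_⟩
    · rw [LinearMap.comp_apply, mkQ_hits hf, map_zero]
    · rw [LinearMap.comp_apply]
      exact hε i r hr _ (mem_Qz hf)
  have hker : ∀ (g : WS (Fin d) ≃ₗ[ZMod 2] WS (Fin k ⊕ Fin m)) (i : Fin N),
      hits (Fin d) ≤ LinearMap.ker ((hits (Fin k)).mkQ.comp
        (pj t g ((ε i).comp (hits (Fin m)).mkQ))) := by
    intro g i f hf
    rw [LinearMap.mem_ker, LinearMap.comp_apply]
    exact mkQ_hits (hHPJ d c t k m g _ hdc (hAd i) f hf)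
  refine ⟨fun g => ∑ i, ((TensorProduct.mk (ZMod 2) (QS (Fin k)) (QS (Fin m))).flip (e i)).comp
    ((hits (Fin d)).liftQ _ (hker g i)), ?_⟩
  intro g f
  have hval : (∑ i, ((TensorProduct.mk (ZMod 2) (QS (Fin k)) (QS (Fin m))).flip (e i)).comp
      ((hits (Fin d)).liftQ _ (hker g i))) ((hits (Fin d)).mkQ f) =
      ∑ i, ((hits (Fin k)).mkQ (pj t g ((ε i).comp (hits (Fin m)).mkQ) f)) ⊗ₜ[ZMod 2] (e i) := by
    rw [LinearMap.sum_apply]
    refine Finset.sum_congr rfl fun i _ => ?_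
    rfl
  constructor
  · show (∑ i, ((TensorProduct.mk (ZMod 2) (QS (Fin k)) (QS (Fin m))).flip (e i)).comp
      ((hits (Fin d)).liftQ _ (hker g i))) ((hits (Fin d)).mkQ f) ∈ Bs k m ((k : ℤ) - c)
    rw [hval]
    refine Submodule.sum_mem _ fun i _ => ?_
    exact ⟨((hits (Fin k)).mkQ (pj t g ((ε i).comp (hits (Fin m)).mkQ) f)) ⊗ₜ[ZMod 2]
      (⟨e i, he i⟩ : Qz (Fin m) ((k : ℤ) - c)), rfl⟩
  · intro ν hν
    show ev k ν ((∑ i, ((TensorProduct.mk (ZMod 2) (QS (Fin k)) (QS (Fin m))).flip (e i)).comp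
      ((hits (Fin d)).liftQ _ (hker g i))) ((hits (Fin d)).mkQ f)) = _
    rw [hval, map_sum, comb hε hdec hν, DET.pj_sum, map_sum]
    refine Finset.sum_congr rfl fun i _ => ?_
    rw [ev_tmul, map_smul]

end HGX
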