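import Pool.Agent.HGX.Stmts

/-!
# UN2: the projection and the parabolic subgroup (helper62)
-/

namespace HGX

open HGP MvPolynomial

namespace UN2

variable {k m : ℕ}

theorem elim_zero_inr (D : WS (Fin m)) (w : WS (Fin k ⊕ Fin m)) (h1 : w ∘ Sum.inl = 0)
    (h2 : w ∘ Sum.inr = D) : w = Sum.elim (0 : WS (Fin k)) D := by
  rw [← UNI.elim_eta w, h1, h2]

end UN2

theorem t_UN2 : Stmt_UN2 := by
  refine ⟨?_, ?_⟩
  · intro d t k m g h A D μ f hb hμ
    let hl : WS (Fin k ⊕ Fin m) →ₗ[ZMod 2] WS (Fin k ⊕ Fin m) := h.toLinearMap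
    have hp : UNI.Pr hl := by
      intro z
      change (h (Sum.elim (0 : WS (Fin k)) z)) ∘ Sum.inl = 0
      rw [hb.2 z]
      rfl
    have hA : A.toLinearMap = UNI.bA hl := by
      refine LinearMap.ext fun y => ?_
      change A y = (h (Sum.elim y 0)) ∘ Sum.inl
      rw [hb.1]
      rfl
    have hD : UNI.bD hl = D.toLinearMap := by
      refine LinearMap.ext fun y => ?_
      change (h (Sum.elim (0 : WS (Fin k)) y)) ∘ Sum.inr = D y
      rw [hb.2]
      rfl
    have h1 : sb (g.trans h).toLinearMap f = sb hl (sb g.toLinearMap f) :=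
      (SBB.2.1 (Fin d) (Fin k ⊕ Fin m) (Fin k ⊕ Fin m) g.toLinearMap hl f).symm
    have h2 := UNI.main SBB EXB EXE CTB t hl hl hp A hA μ hμ (sb g.toLinearMap f)
    rw [hD] at h2
    change ex (Fin k) t (ct μ (sb (g.trans h).toLinearMap f)) = sb A.toLinearMap (ex (Fin k) t
      (ct (μ.comp (sb D.toLinearMap).toLinearMap) (sb g.toLinearMap f)))
    rw [h1]
    exact h2
  · intro d k m g g₀ hg
    let e := g₀.symm.trans g
    let h : WS (Fin k ⊕ Fin m) →ₗ[ZMod 2] WS (Fin k ⊕ Fin m) := e.toLinearMap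
    let h' : WS (Fin k ⊕ Fin m) →ₗ[ZMod 2] WS (Fin k ⊕ Fin m) := e.symm.toLinearMap
    have hh' : ∀ u, h (h' u) = u := fun u => e.apply_symm_apply u
    have h'h : ∀ u, h' (h u) = u := fun u => e.symm_apply_apply u
    have hp : UNI.Pr h := by
      intro z
      have h1 : g₀.symm (Sum.elim (0 : WS (Fin k)) z) ∈ An g₀ := by
        intro i
        rw [LinearEquiv.apply_symm_apply]
        rfl
      rw [← hg] at h1
      funext i
      exact h1 i
    have hp' : UNI.Pr h' := by
      intro z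
      have h1 : g.symm (Sum.elim (0 : WS (Fin k)) z) ∈ An g := by
        intro i
        rw [LinearEquiv.apply_symm_apply]
        rfl
      rw [hg] at h1
      funext i
      exact h1 i
    let A : WS (Fin k) ≃ₗ[ZMod 2] WS (Fin k) := LinearEquiv.ofLinearMap (UNI.bA h) (UNI.bA h')
      (LinearMap.ext fun y => UNI.bA_inv hp hh' y) (LinearMap.ext fun y => UNI.bA_inv hp' h'h y)
    let D : WS (Fin m) ≃ₗ[ZMod 2] WS (Fin m) := LinearEquiv.ofLinearMap (UNI.bD h) (UNI.bD h')
      (LinearMap.ext fun y => UNI.bD_inv hp' hh' y) (LinearMap.ext fun y => UNI.bD_inv hp h'h y)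
    refine ⟨A, D, fun u => ?_, fun z => ?_⟩
    · change (h u) ∘ Sum.inl = UNI.bA h (u ∘ Sum.inl)
      have e1 : u = Sum.elim (u ∘ Sum.inl) 0 + Sum.elim (0 : WS (Fin k)) (u ∘ Sum.inr) := by
        funext x
        rcases x with i | j
        · simp
        · simp
      have e2 := hp (u ∘ Sum.inr)
      funext i
      have e3 := congrFun e2 i
      have e4 : (h u) (Sum.inl i) = (h (Sum.elim (u ∘ Sum.inl) 0)) (Sum.inl i) +
          (h (Sum.elim (0 : WS (Fin k)) (u ∘ Sum.inr))) (Sum.inl i) := by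
        conv_lhs => rw [e1]
        rw [map_add]
        rfl
      change (h u) (Sum.inl i) = (h (Sum.elim (u ∘ Sum.inl) 0)) (Sum.inl i)
      rw [e4]
      change (h (Sum.elim (0 : WS (Fin k)) (u ∘ Sum.inr))) (Sum.inl i) = 0 at e3
      rw [e3, add_zero]
    · exact UN2.elim_zero_inr _ _ (hp z) rfl

end HGX
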