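import Pool.Agent.HGX.Expl
import Pool.Agent.HGX.DCK
import Pool.Agent.HGX.SVI
import Pool.Agent.HGX.NUE
import Pool.Agent.HGX.ESD
import Pool.Agent.HGX.BGN
import Pool.Agent.HGX.KOS
import Pool.Agent.HGX.GK1
import Pool.Agent.HGX.GKL
import Pool.Agent.HGX.CHK
import Pool.Agent.HGX.SPL
import Pool.Agent.HGX.KRE
import Pool.Agent.HGX.CKE
import Pool.Agent.HGX.FSE
import Pool.Agent.HGX.QZE
import Pool.Agent.HGX.MAE
import Pool.Agent.HGX.GSE
import Pool.Agent.HGX.GAE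
import Pool.Agent.HGX.UN2
import Pool.Agent.HGX.HPJ
import Pool.Agent.HGX.TDL
import Pool.Agent.HGX.THT
import Pool.Agent.HGX.EQV
import Pool.Agent.HGX.EIN
import Pool.Agent.HGX.ESU

/-!
# The hit problem: the explicit, equivariant gap splitting
-/

namespace HGX

open HGP MvPolynomial
open Pool.Agent.Lib_helper74.Hit (hits qd)
open scoped TensorProduct

theorem hNUE : P_NUE := t_NUE t_SVI
theorem hBGN : P_BGN := t_BGN (t_ESD t_DCK)
theorem hGKL : P_GKL := t_GKL (t_GK1 hBGN t_KOS)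
theorem hKRE : P_KRE := t_KRE t_SVI (t_SPL hGKL t_CHK)
theorem hMAE : P_MAE := t_MAE hKRE (t_CKE hNUE) t_FSE t_QZE
theorem hGSE : P_GSE := t_GSE hMAE
theorem hTHT : P_THT := t_THT t_HPJ t_TDL
theorem hEQV : P_EQV := t_EQV t_UN2 t_TDL
theorem hESU : P_ESU := t_ESU t_UN2 t_TDL hEQV

/-- The dimension formula. -/
theorem formula (d : ℕ) (c : ℤ) (s C : ℕ) (hs : sz c + d ≤ s) (hC : SS d c ≤ C) (q : ℤ) :
    qz d (2 ^ (C + s) * q - c) = ∑ m ∈ Finset.range (d + 1), nsub d m *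
      (qz (d - m) (2 ^ C * q - ((d - m : ℕ) : ℤ)) * qz m (((d - m : ℕ) : ℤ) - c)) := by
  obtain ⟨j, rfl⟩ := Nat.exists_eq_add_of_le' hs
  have hdef : SS d c = 4 ^ (d + 1) * (2 * sz c + d + 3) := rfl
  have h2 := GSE.stab_all hMAE d C (le_trans (le_trans (Nat.mul_le_mul_left _
    (by omega : d + 3 ≤ 2 * sz c + d + 3)) hdef.ge) hC)
  have h0 := hMAE d c (sz c + d) (C + j) (GSE.lt_t0 d c) (by
    have h1 : 4 ^ (d + 1) * (sz c + d + sz c + 2) ≤ SS d c := Nat.mul_le_mul_left _ (by omega)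
    omega)
  have h3 : (2 : ℤ) ^ (C + (j + (sz c + d))) = 2 ^ (C + j + (sz c + d)) := by rw [add_assoc]
  rw [h3]
  have hRH : RH d c (C + j) q = RH d c C q := by
    unfold RH
    refine Finset.sum_congr rfl fun m _ => ?_
    rw [h2 (d - m) (Nat.sub_le _ _) (C + j) C (Nat.le_add_right _ _) le_rfl q]
  by_cases hn : 0 ≤ 2 ^ (C + j + (sz c + d)) * q - c
  · obtain ⟨n, hn'⟩ := Int.eq_ofNat_of_zero_le hn
    have h1 := CNT d c (sz c + d) (C + j) (GSE.lt_t0 d c) h0 q n hn'.symm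
    rw [GSP.qz_nat d n hn'.symm, h1, hRH]
    rfl
  · push Not at hn
    rw [GSP.qz_neg d hn]
    have hcl : |c| < 2 ^ (C + j + (sz c + d)) :=
      (GSE.abs_lt c).trans_le (pow_le_pow_right₀ (by norm_num) (by omega))
    have hq : q ≤ 0 := by
      by_contra hq
      push Not at hq
      have h4 : (0 : ℤ) < 2 ^ (C + j + (sz c + d)) := by positivity
      have h5 : (2 : ℤ) ^ (C + j + (sz c + d)) * 1 ≤ 2 ^ (C + j + (sz c + d)) * q :=
        mul_le_mul_of_nonneg_left (by omega) h4.le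
      have h6 := le_abs_self c
      rw [mul_one] at h5
      omega
    refine (GSP.RH_neg d c C hq fun h => ?_).symm
    subst h
    rw [mul_zero] at hn
    omega

/-- The explicit isomorphism of modules over the linear group. -/
theorem iso (d : ℕ) (c : ℤ) (s C : ℕ) (hs : sz c + d ≤ s) (hC : SS d c ≤ C) (q : ℤ) :
    ∃ e : Qz (Fin d) (2 ^ (C + s) * q - c) ≃ₗ[ZMod 2] ((m : Fin (d + 1)) →
      Ind d (d - (m : ℕ)) m (2 ^ C * q - ((d - (m : ℕ) : ℕ) : ℤ)) (((d - (m : ℕ) : ℕ) : ℤ) - c)),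
      (∀ (x : Qz (Fin d) (2 ^ (C + s) * q - c)) (f : PS (Fin d)),
        (x : QS (Fin d)) = (hits (Fin d)).mkQ f → ∀ m g,
          (e x m).1 g = Th s (((d - (m : ℕ) : ℕ) : ℤ) - c) g f) ∧
      ∀ (A : WS (Fin d) ≃ₗ[ZMod 2] WS (Fin d)) (x y : Qz (Fin d) (2 ^ (C + s) * q - c)),
        (y : QS (Fin d)) = qs A.toLinearMap (x : QS (Fin d)) →
          ∀ m g, (e y m).1 g = (e x m).1 (A.trans g) := by
  obtain ⟨e, he⟩ := EXP.expl hMAE hTHT hEQV t_EIN hESU t_TDL d c s C hs hC q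
  refine ⟨e, he, fun A x y hxy m g => ?_⟩
  obtain ⟨f, hf⟩ := (hits (Fin d)).mkQ_surjective (x : QS (Fin d))
  have hy : (y : QS (Fin d)) = (hits (Fin d)).mkQ (sb A.toLinearMap f) := by
    rw [hxy, ← hf]
    rfl
  rw [he y _ hy m g, he x f hf.symm m (A.trans g), EXP.Th_sb]

theorem TT_ge (d : ℕ) (c : ℤ) : SS d c + (sz c + d) ≤ TT d c := by
  unfold SS TT
  have h2 : 1 ≤ 4 ^ (d + 1) := Nat.one_le_pow _ _ (by norm_num)
  have e : 4 ^ (d + 2) * (sz c + d + 1) = 4 ^ (d + 1) * (2 * sz c + d + 3) +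
      4 ^ (d + 1) * (2 * sz c + 3 * d + 1) := by
    rw [pow_succ 4 (d + 1)]
    ring
  have h3 : 1 * (2 * sz c + 3 * d + 1) ≤ 4 ^ (d + 1) * (2 * sz c + 3 * d + 1) :=
    Nat.mul_le_mul_right _ h2
  rw [e]
  omega

/-- The covering. -/
theorem cover (d n : ℕ) (hn : qd (Fin d) n ≠ 0) : ∃ (c q : ℤ) (t : ℕ),
    |c| < 2 ^ 4 ^ ((d + 3) ^ 2) ∧ SS d c + (sz c + d) < t ∧ t ≤ 4 ^ ((d + 3) ^ 2) ∧
      (n : ℤ) = 2 ^ t * q - c := by
  obtain ⟨c, q, t, h1, h2, h3, h4⟩ := t_GAE d n hn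
  exact ⟨c, q, t, h1, (TT_ge d c).trans_lt h2, h3, h4⟩

end HGX
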